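import Pool.Agent.Helper29.PA.Defs

/-!
# Simplicial complexes of dimension at most two and groups acting on them
-/

set_option autoImplicit false

namespace Pool.Agent.Helper3.FJ

open Pool.Agent.Helper29.BA Pool.Agent.Helper29.PA

/-- A simplicial complex of dimension at most two with vertices `V`: `adj u v` means that `u` and
`v` span an edge, `tri u v w` that `u`, `v` and `w` span a triangle. -/
structure Cpx (V : Type) where
  adj : V → V → Prop
  tri : V → V → V → Prop
  adj_symm : ∀ u v, adj u v → adj v u
  adj_irrefl : ∀ u, ¬ adj u u
  tri_rot : ∀ u v w, tri u v w → tri v w u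
  tri_flip : ∀ u v w, tri u v w → tri v u w
  tri_adj : ∀ u v w, tri u v w → adj u v

namespace Cpx

variable {V : Type} (X : Cpx V)

/-- A 1-cocycle with values in the group `H`. -/
def Cocycle {H : Type} [Group H] (c : V → V → H) : Prop :=
  (∀ u v, X.adj u v → c u v * c v u = 1) ∧ ∀ u v w, X.tri u v w → c u v * c v w * c w u = 1

/-- `X` is connected and simply connected: it is not empty, any two vertices are joined by an edge
path, and each 1-cocycle with values in a group is a coboundary. -/
def SimplyConn : Prop :=
  Nonempty V ∧ (∀ u v, Relation.ReflTransGen X.adj u v) ∧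
    ∀ (H : Type) [Group H] (c : V → V → H), X.Cocycle c →
      ∃ g : V → H, ∀ u v, X.adj u v → c u v = (g u)⁻¹ * g v

/-- The links of the vertices have girth at least 6: no link contains a circuit of length 3, 4
or 5. -/
def LinkGirth : Prop :=
  ∀ (v : V) (k : ℕ), 3 ≤ k → k ≤ 5 → ∀ u : ZMod k → V, Function.Injective u →
    ¬ ∀ i, X.tri v (u i) (u (i + 1))

variable (G : Type) [Group G] [MulAction G V]

/-- `G` acts on `X`. -/
def Acts : Prop :=
  (∀ (g : G) u v, X.adj u v → X.adj (g • u) (g • v)) ∧
    ∀ (g : G) u v w, X.tri u v w → X.tri (g • u) (g • v) (g • w)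

/-- The action of `G` on `X` is cocompact: there are finitely many orbits of vertices, edges and
triangles. -/
def Cocompact : Prop :=
  ∃ S : Set (V × V × V), S.Finite ∧
    (∀ v, ∃ g : G, (g • v, g • v, g • v) ∈ S) ∧
    (∀ u v, X.adj u v → ∃ g : G, (g • u, g • u, g • v) ∈ S) ∧
    ∀ u v w, X.tri u v w → ∃ g : G, (g • u, g • v, g • w) ∈ S

end Cpx

/-- The classes of groups which in addition contain all groups which act cocompactly and with
finite vertex stabilizers on simply connected complexes of dimension two with links of girth at
least six. (With equilateral triangles these complexes are CAT(0) spaces.) -/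
structure TriClass (C : ∀ (G : Type) [Group G], Prop) : Prop extends ExtClass C where
  triangle : ∀ (V : Type) (X : Cpx V) (G : Type) [Group G] [MulAction G V],
    X.SimplyConn → X.LinkGirth → X.Acts G → (∀ v : V, Finite (MulAction.stabilizer G v)) →
      X.Cocompact G → C G

end Pool.Agent.Helper3.FJ
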