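import Pool.Agent.Helper3.FJ.Main2

/-!
# Groups acting properly on piecewise Euclidean complexes of dimension two
-/

set_option autoImplicit false

namespace Pool.Agent.Helper3.FJ

open Relation Pool.Agent.Helper29.BA Pool.Agent.Helper29.PA

namespace Cpx

variable {V : Type}

/-- The triangles of `X` are Euclidean triangles: `ℓ u v` is the length of the edge from `u`
to `v`. -/
structure Metric (X : Cpx V) (ℓ : V → V → ℝ) : Prop where
  symm : ∀ u v, ℓ u v = ℓ v u
  pos : ∀ u v, X.adj u v → 0 < ℓ u v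
  tri : ∀ u v w, X.tri u v w → ℓ u w < ℓ u v + ℓ v w

/-- The angle at `v` of the Euclidean triangle with vertices `v`, `u`, `w`. -/
noncomputable def ang (ℓ : V → V → ℝ) (v u w : V) : ℝ :=
  Real.arccos ((ℓ v u ^ 2 + ℓ v w ^ 2 - ℓ u w ^ 2) / (2 * ℓ v u * ℓ v w))

/-- The link condition: each circuit in the link of a vertex has length at least `2π`. -/
def LinkCond (X : Cpx V) (ℓ : V → V → ℝ) : Prop :=
  ∀ (v : V) (k : ℕ) (u : ZMod (k + 3) → V), Function.Injective u →
    (∀ i, X.tri v (u i) (u (i + 1))) → 2 * Real.pi ≤ ∑ i, ang ℓ v (u i) (u (i + 1))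

end Cpx

/-- The closed classes which in addition contain all groups which act by isometries, cocompactly
and with finite vertex stabilizers on simply connected piecewise Euclidean complexes of dimension
two which satisfy the link condition. (These complexes are CAT(0) spaces.) -/
structure CatClass (C : ∀ (G : Type) [Group G], Prop) : Prop extends ClosedClass C where
  cat : ∀ (V : Type) (X : Cpx V) (ℓ : V → V → ℝ) (G : Type) [Group G] [MulAction G V],
    X.SimplyConn → X.Metric ℓ → X.LinkCond ℓ → X.Acts G → (∀ (g : G) u v, ℓ (g • u) (g • v) = ℓ u v) →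
      (∀ v : V, Finite (MulAction.stabilizer G v)) → X.Cocompact G → C G

namespace Cpx

variable {V : Type} {X : Cpx V} {G : Type} [Group G] [MulAction G V]

theorem cover_metric {ℓ : V → V → ℝ} (h : X.Metric ℓ) (v₀ : V) :
    (cover X v₀).Metric (fun p q => ℓ p.1.1 q.1.1) :=
  ⟨fun _ _ => h.symm _ _, fun _ _ hpq => h.pos _ _ hpq.1, fun _ _ _ ht => h.tri _ _ _ ht.1⟩

theorem cover_linkCond {ℓ : V → V → ℝ} (h : X.LinkCond ℓ) (v₀ : V) :
    (cover X v₀).LinkCond (fun p q => ℓ p.1.1 q.1.1) := by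
  intro p k u hu ht
  refine h p.1.1 k (fun i => (u i).1.1) ?_ (fun i => (ht i).1)
  intro i j hij
  apply hu
  have h1 := (ht i).2.1
  have h2 := (ht j).2.1
  refine Cv.ext hij ?_
  rw [h1, h2]
  have : (u i).1.1 = (u j).1.1 := hij
  rw [this]

theorem sb_metric {ℓ : V → V → ℝ} (h : X.Metric ℓ) (s : Finset V) : (X.sb G s).Metric ℓ :=
  ⟨h.symm, fun u v huv => h.pos u v huv.1, fun u v w ht => h.tri u v w ht.1⟩

theorem sb_linkCond {ℓ : V → V → ℝ} (h : X.LinkCond ℓ) (s : Finset V) :
    (X.sb G s).LinkCond ℓ := fun v k u hu ht => h v k u hu fun i => (ht i).1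

/-- Groups acting by isometries and with finite stabilizers. -/
theorem proper {C : ∀ (G : Type) [Group G], Prop} (hC : CatClass C) {ℓ : V → V → ℝ}
    (hX : X.SimplyConn) (hM : X.Metric ℓ) (hL : X.LinkCond ℓ) (hA : X.Acts G)
    (hI : ∀ (g : G) u v, ℓ (g • u) (g • v) = ℓ u v)
    (hst : ∀ v : V, Finite (MulAction.stabilizer G v)) : C G := by
  refine of_fg hC.toClosedClass hA fun T S hS hAT => ?_
  refine colim_gen hC.toClosedClass hAT hX S hS fun v₀ s hv₀ => ?_
  refine hC.cat (Cv (X.sb T s) v₀) (cover (X.sb T s) v₀) (fun p q => ℓ p.1.1 q.1.1) _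
    cover_simplyConn (cover_metric (sb_metric hM s) v₀) (cover_linkCond (sb_linkCond hL s) v₀)
    (cover_acts (sb_acts hAT s)) (fun g p q => ?_) (fun p => cover_stab _ p ?_)
    (cover_cocompact (sb_acts hAT s) s hv₀ (fun u v h => h.2) (fun u v w h => h.2))
  · exact hI g.1.right.1 p.1.1 q.1.1
  · have := hst p.1.1
    refine Finite.of_injective (β := MulAction.stabilizer G p.1.1) (fun x => ⟨x.1.1, x.2⟩) ?_
    intro x y hxy
    exact Subtype.ext (Subtype.ext (congrArg (fun z : MulAction.stabilizer G p.1.1 => z.1) hxy))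

end Cpx

end Pool.Agent.Helper3.FJ
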