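import Pool.Agent.Helper3.FJ.Tree

/-!
# Collapsing a simply connected complex to a tree
-/

set_option autoImplicit false

namespace Pool.Agent.Helper3.FJ

open Relation

namespace Cpx

variable {V : Type}

/-- The graph with the edges `T`. -/
def gr (X : Cpx V) (T : V → V → Prop) (hTs : ∀ x y, T x y → T y x)
    (hTa : ∀ x y, T x y → X.adj x y) : Cpx V where
  adj := T
  tri _ _ _ := False
  adj_symm := hTs
  adj_irrefl u h := X.adj_irrefl u (hTa _ _ h)
  tri_rot _ _ _ h := h
  tri_flip _ _ _ h := h
  tri_adj _ _ _ h := h.elim

section col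

variable (T : V → V → Prop) (r : V × V → V × V → Prop) (E : V → V → V → Prop)
  (hwf : WellFounded r) {H : Type} [Group H] (c : V → V → H)

open Classical in
/-- The extension of the edge function. -/
noncomputable def exf : V × V → H := hwf.fix fun p rec =>
  if T p.1 p.2 then c p.1 p.2
  else if h : ∃ z, E p.1 p.2 z then
    ((if h1 : r (p.2, h.choose) p then rec _ h1 else c p.2 h.choose) *
      (if h2 : r (h.choose, p.1) p then rec _ h2 else c h.choose p.1))⁻¹
  else 1

theorem exf_T {x y : V} (h : T x y) : exf T r E hwf c (x, y) = c x y := by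
  rw [exf, hwf.fix_eq, if_pos h]

theorem exf_E (hn : ∀ x y z, E x y z → ¬ T x y)
    (h1 : ∀ x y z, E x y z → T y z ∨ r (y, z) (x, y))
    (h2 : ∀ x y z, E x y z → T z x ∨ r (z, x) (x, y))
    (hu : ∀ x y z z', E x y z → E x y z' → z = z') {x y z : V} (h : E x y z) :
    exf T r E hwf c (x, y) * exf T r E hwf c (y, z) * exf T r E hwf c (z, x) = 1 := by
  have hex : ∃ z, E (x, y).1 (x, y).2 z := ⟨z, h⟩
  have hz : hex.choose = z := hu _ _ _ _ hex.choose_spec h
  have e1 : exf T r E hwf c (x, y) =
      (exf T r E hwf c (y, hex.choose) * exf T r E hwf c (hex.choose, x))⁻¹ := by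
    conv_lhs => rw [exf, hwf.fix_eq]
    rw [if_neg (hn _ _ _ h), dif_pos hex]
    congr 2
    · split_ifs with h3
      · rfl
      · rcases h1 _ _ _ hex.choose_spec with h4 | h4
        · exact (exf_T T r E hwf c h4).symm
        · exact (h3 h4).elim
    · split_ifs with h3
      · rfl
      · rcases h2 _ _ _ hex.choose_spec with h4 | h4
        · exact (exf_T T r E hwf c h4).symm
        · exact (h3 h4).elim
  rw [hz] at e1
  rw [e1]
  group

end col

/-- If each edge outside `T` has a designated triangle, whose other edges come before it, and every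
triangle is designated, then `T` is a tree. -/
theorem collapse {X : Cpx V} (hX : X.SimplyConn) (T : V → V → Prop) (r : V × V → V × V → Prop)
    (E : V → V → V → Prop) (hwf : WellFounded r) (hTs : ∀ x y, T x y → T y x)
    (hTa : ∀ x y, T x y → X.adj x y) (hs : ∀ x y z, E x y z → E y x z)
    (hn : ∀ x y z, E x y z → ¬ T x y) (h1 : ∀ x y z, E x y z → T y z ∨ r (y, z) (x, y))
    (h2 : ∀ x y z, E x y z → T z x ∨ r (z, x) (x, y))
    (hex : ∀ x y, X.adj x y → ¬ T x y → ∃ z, E x y z)
    (hu : ∀ x y z z', E x y z → E x y z' → z = z')
    (hall : ∀ x y z, X.tri x y z → E x y z ∨ E y z x ∨ E z x y)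
    (htri : ∀ x y z, E x y z → X.tri x y z) : (X.gr T hTs hTa).SimplyConn := by
  obtain ⟨hne, hconn, hsc⟩ := hX
  have symm : ∀ {x y : V}, ReflTransGen T x y → ReflTransGen T y x := by
    intro x y hxy
    induction hxy with
    | refl => exact ReflTransGen.refl
    | tail _ h4 ih => exact ih.head (hTs _ _ h4)
  have hadj : ∀ p : V × V, X.adj p.1 p.2 → ReflTransGen T p.1 p.2 := by
    intro p
    induction p using hwf.induction with
    | _ p ih =>
      obtain ⟨x, y⟩ := p
      intro hp
      by_cases hT : T x y
      · exact ReflTransGen.single hT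
      · obtain ⟨z, hz⟩ := hex _ _ hp hT
        have ht := htri _ _ _ hz
        have a1 : ReflTransGen T y z := by
          rcases h1 _ _ _ hz with h3 | h3
          · exact ReflTransGen.single h3
          · exact ih _ h3 (X.tri_adj _ _ _ (X.tri_rot _ _ _ ht))
        have a2 : ReflTransGen T z x := by
          rcases h2 _ _ _ hz with h3 | h3
          · exact ReflTransGen.single h3
          · exact ih _ h3 (X.tri_adj _ _ _ (X.tri_rot _ _ _ (X.tri_rot _ _ _ ht)))
        exact symm (a1.trans a2)
  refine ⟨hne, fun u v => ?_, fun H _ c hc => ?_⟩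
  · have := hconn u v
    induction this with
    | refl => exact ReflTransGen.refl
    | tail _ h4 ih => exact ih.trans (hadj (_, _) h4)
  · have key : ∀ {x y z : V}, E x y z →
        exf T r E hwf c (x, y) * exf T r E hwf c (y, z) * exf T r E hwf c (z, x) = 1 :=
      fun h => exf_E T r E hwf c hn h1 h2 hu h
    have anti : ∀ p : V × V, X.adj p.1 p.2 →
        exf T r E hwf c p * exf T r E hwf c (p.2, p.1) = 1 := by
      intro p
      induction p using hwf.induction with
      | _ p ih =>
        obtain ⟨x, y⟩ := p
        intro hp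
        by_cases hT : T x y
        · rw [exf_T T r E hwf c hT, exf_T T r E hwf c (hTs _ _ hT)]
          exact hc.1 _ _ hT
        · obtain ⟨z, hz⟩ := hex _ _ hp hT
          have ht := htri _ _ _ hz
          have a1 : exf T r E hwf c (y, z) * exf T r E hwf c (z, y) = 1 := by
            rcases h1 _ _ _ hz with h3 | h3
            · rw [exf_T T r E hwf c h3, exf_T T r E hwf c (hTs _ _ h3)]
              exact hc.1 _ _ h3
            · exact ih _ h3 (X.tri_adj _ _ _ (X.tri_rot _ _ _ ht))
          have a2 : exf T r E hwf c (z, x) * exf T r E hwf c (x, z) = 1 := by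
            rcases h2 _ _ _ hz with h3 | h3
            · rw [exf_T T r E hwf c h3, exf_T T r E hwf c (hTs _ _ h3)]
              exact hc.1 _ _ h3
            · exact ih _ h3 (X.tri_adj _ _ _ (X.tri_rot _ _ _ (X.tri_rot _ _ _ ht)))
          have e1 := key hz
          have e2 := key (hs _ _ _ hz)
          have e3 := eq_inv_of_mul_eq_one_left a1
          have e4 := eq_inv_of_mul_eq_one_left a2
          rw [e3, e4] at e1
          have e5 : exf T r E hwf c (x, y) = exf T r E hwf c (x, z) * exf T r E hwf c (z, y) := by
            rw [mul_assoc, mul_eq_one_iff_eq_inv] at e1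
            rw [e1]
            group
          change exf T r E hwf c (x, y) * exf T r E hwf c (y, x) = 1
          rw [e5]
          rw [mul_assoc, mul_eq_one_iff_eq_inv] at e2
          rw [e2]
          group
    obtain ⟨g, hg⟩ := hsc H (fun x y => exf T r E hwf c (x, y)) ⟨fun x y hxy => anti (x, y) hxy,
      fun x y z ht => by
        rcases hall _ _ _ ht with h3 | h3 | h3
        · exact key h3
        · have := key h3
          rw [mul_assoc, mul_eq_one_iff_eq_inv] at this
          change exf T r E hwf c (x, y) * exf T r E hwf c (y, z) * exf T r E hwf c (z, x) = 1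
          rw [this]
          group
        · have := key h3
          rw [mul_assoc, mul_eq_one_iff_eq_inv] at this
          change exf T r E hwf c (x, y) * exf T r E hwf c (y, z) * exf T r E hwf c (z, x) = 1
          rw [this]
          group⟩
    refine ⟨g, fun x y hxy => ?_⟩
    have := hg x y (hTa _ _ hxy)
    rwa [exf_T T r E hwf c hxy] at this

end Cpx

end Pool.Agent.Helper3.FJ
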