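import Pool.Agent.Helper3.FJ.Cpx

/-!
# The universal cover of a complex and the lifts of a group

The universal cover of `X` is realized in `V × Φ`, where `Φ` is the universal group of the
1-cocycles of `X`.
-/

set_option autoImplicit false

namespace Pool.Agent.Helper3.FJ

open Relation

namespace Cpx

variable {V : Type} (X : Cpx V)

/-- The relations. -/
def relc : Set (FreeGroup (V × V)) :=
  {w | (∃ u v, X.adj u v ∧ w = FreeGroup.of (u, v) * FreeGroup.of (v, u)) ∨
    ∃ u v x, X.tri u v x ∧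
      w = FreeGroup.of (u, v) * FreeGroup.of (v, x) * FreeGroup.of (x, u)}

/-- The universal group of the cocycles. -/
abbrev Phi : Type := FreeGroup (V × V) ⧸ Subgroup.normalClosure X.relc

/-- The universal cocycle. -/
def ec (u v : V) : X.Phi := QuotientGroup.mk (FreeGroup.of (u, v))

theorem ec_cocycle : X.Cocycle X.ec := by
  constructor
  · intro u v h
    rw [ec, ec, ← QuotientGroup.mk_mul, QuotientGroup.eq_one_iff]
    exact Subgroup.subset_normalClosure (Or.inl ⟨u, v, h, rfl⟩)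
  · intro u v w h
    rw [ec, ec, ec, ← QuotientGroup.mk_mul, ← QuotientGroup.mk_mul, QuotientGroup.eq_one_iff]
    exact Subgroup.subset_normalClosure (Or.inr ⟨u, v, w, h, rfl⟩)

variable {X}

/-- The universal property. -/
def liftPhi {H : Type} [Group H] {c : V → V → H} (hc : X.Cocycle c) : X.Phi →* H :=
  QuotientGroup.lift _ (FreeGroup.lift fun p : V × V => c p.1 p.2) (by
    refine Subgroup.normalClosure_le_normal
      (N := (FreeGroup.lift fun p : V × V => c p.1 p.2).ker) ?_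
    rintro w (⟨u, v, h, rfl⟩ | ⟨u, v, x, h, rfl⟩)
    · change FreeGroup.lift _ _ = 1
      rw [map_mul, FreeGroup.lift_apply_of, FreeGroup.lift_apply_of]
      exact hc.1 u v h
    · change FreeGroup.lift _ _ = 1
      rw [map_mul, map_mul, FreeGroup.lift_apply_of, FreeGroup.lift_apply_of,
        FreeGroup.lift_apply_of]
      exact hc.2 u v x h)

@[simp] theorem liftPhi_ec {H : Type} [Group H] {c : V → V → H} (hc : X.Cocycle c) (u v : V) :
    liftPhi hc (X.ec u v) = c u v := by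
  change FreeGroup.lift (fun p : V × V => c p.1 p.2) (FreeGroup.of (u, v)) = _
  rw [FreeGroup.lift_apply_of]

theorem phi_hom_ext {H : Type} [Group H] {f g : X.Phi →* H}
    (h : ∀ u v, f (X.ec u v) = g (X.ec u v)) : f = g := by
  refine QuotientGroup.monoidHom_ext _ ?_
  refine FreeGroup.ext_hom _ _ ?_
  rintro ⟨u, v⟩
  exact h u v

theorem phi_induction {P : X.Phi → Prop} (h1 : P 1) (hof : ∀ u v, P (X.ec u v))
    (hinv : ∀ x, P x → P x⁻¹) (hmul : ∀ x y, P x → P y → P (x * y)) (x : X.Phi) : P x := by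
  induction x using QuotientGroup.induction_on with
  | H w =>
    induction w using FreeGroup.induction_on with
    | C1 => exact h1
    | of p => exact hof p.1 p.2
    | inv_of p hp => exact hinv _ hp
    | mul a b ha hb => exact hmul _ _ ha hb

variable {G : Type} [Group G] [MulAction G V]

theorem ec_smul_cocycle (hA : X.Acts G) (g : G) :
    X.Cocycle fun u v => X.ec (g • u) (g • v) :=
  ⟨fun _ _ h => X.ec_cocycle.1 _ _ (hA.1 g _ _ h), fun _ _ _ h => X.ec_cocycle.2 _ _ _ (hA.2 g _ _ _ h)⟩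

/-- The action on the universal group. -/
def actPhi' (hA : X.Acts G) : G →* MulAut X.Phi where
  toFun g := MonoidHom.toMulEquiv (liftPhi (ec_smul_cocycle hA g))
    (liftPhi (ec_smul_cocycle hA g⁻¹))
    (phi_hom_ext fun u v => by simp) (phi_hom_ext fun u v => by simp)
  map_one' := by
    apply MulEquiv.toMonoidHom_injective
    refine phi_hom_ext fun u v => ?_
    change liftPhi (ec_smul_cocycle hA 1) (X.ec u v) = X.ec u v
    simp
  map_mul' a b := by
    apply MulEquiv.toMonoidHom_injective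
    refine phi_hom_ext fun u v => ?_
    change liftPhi (ec_smul_cocycle hA (a * b)) (X.ec u v) =
      liftPhi (ec_smul_cocycle hA a) (liftPhi (ec_smul_cocycle hA b) (X.ec u v))
    simp [mul_smul]

theorem exists_actPhi (hA : X.Acts G) : ∃ f : G →* MulAut X.Phi,
    ∀ (g : G) (u v : V), f g (X.ec u v) = X.ec (g • u) (g • v) :=
  ⟨actPhi' hA, fun g u v => liftPhi_ec (ec_smul_cocycle hA g) u v⟩

/-- The action on the universal group. -/
noncomputable def actPhi (hA : X.Acts G) : G →* MulAut X.Phi := (exists_actPhi hA).choose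

@[simp] theorem actPhi_ec (hA : X.Acts G) (g : G) (u v : V) :
    actPhi hA g (X.ec u v) = X.ec (g • u) (g • v) :=
  (exists_actPhi hA).choose_spec g u v

/-- Adjacency in the cover. -/
def adjW (X : Cpx V) (p q : V × X.Phi) : Prop := X.adj p.1 q.1 ∧ q.2 = p.2 * X.ec p.1 q.1

theorem adjW_symm {p q : V × X.Phi} (h : adjW X p q) : adjW X q p := by
  refine ⟨X.adj_symm _ _ h.1, ?_⟩
  rw [h.2, mul_assoc, X.ec_cocycle.1 _ _ h.1, mul_one]

theorem reachW_symm {p q : V × X.Phi} (h : ReflTransGen (adjW X) p q) :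
    ReflTransGen (adjW X) q p := by
  induction h with
  | refl => exact ReflTransGen.refl
  | tail _ h1 ih => exact ih.head (adjW_symm h1)

/-- The component of the base point. -/
def Cv (X : Cpx V) (v₀ : V) : Type :=
  {p : V × X.Phi // ReflTransGen (adjW X) (v₀, 1) p}

variable {v₀ : V}

/-- The vertices below. -/
def Cv.pr (p : Cv X v₀) : V := p.1.1

theorem Cv.ext {p q : Cv X v₀} (h1 : p.1.1 = q.1.1) (h2 : p.1.2 = q.1.2) : p = q :=
  Subtype.ext (Prod.ext h1 h2)

theorem triW_snd {u v w : V} (h : X.tri u v w) : X.ec u v * X.ec v w = X.ec u w := by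
  have e1 := X.ec_cocycle.2 _ _ _ h
  have e2 := X.ec_cocycle.1 _ _ (X.tri_adj _ _ _ (X.tri_rot _ _ _ (X.tri_rot _ _ _ h)))
  rw [mul_eq_one_iff_eq_inv] at e1
  rw [e1, eq_comm, eq_inv_iff_mul_eq_one]
  rw [mul_eq_one_iff_eq_inv] at e2
  rw [e2, mul_inv_cancel]

/-- The complex on the component. -/
def cover (X : Cpx V) (v₀ : V) : Cpx (Cv X v₀) where
  adj p q := adjW X p.1 q.1
  tri p q r := X.tri p.1.1 q.1.1 r.1.1 ∧ q.1.2 = p.1.2 * X.ec p.1.1 q.1.1 ∧
    r.1.2 = q.1.2 * X.ec q.1.1 r.1.1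
  adj_symm _ _ := adjW_symm
  adj_irrefl p h := X.adj_irrefl _ h.1
  tri_rot p q r h := by
    refine ⟨X.tri_rot _ _ _ h.1, h.2.2, ?_⟩
    rw [h.2.2, h.2.1, mul_assoc, mul_assoc, ← mul_assoc (X.ec p.1.1 q.1.1),
      X.ec_cocycle.2 _ _ _ h.1, mul_one]
  tri_flip p q r h := by
    refine ⟨X.tri_flip _ _ _ h.1, ?_, ?_⟩
    · exact (adjW_symm ⟨X.tri_adj _ _ _ h.1, h.2.1⟩).2
    · rw [h.2.2, h.2.1, mul_assoc, triW_snd h.1]
  tri_adj p q r h := ⟨X.tri_adj _ _ _ h.1, h.2.1⟩

theorem cover_reach (p : V × X.Phi) (hp : ReflTransGen (adjW X) (v₀, 1) p) :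
    ReflTransGen (cover X v₀).adj ⟨(v₀, 1), ReflTransGen.refl⟩ ⟨p, hp⟩ := by
  induction hp with
  | refl => exact ReflTransGen.refl
  | tail h1 h2 ih => exact ih.tail h2

section potential

variable {H : Type} [Group H] (c : Cv X v₀ → Cv X v₀ → H)

open Classical in
/-- Extension of a cocycle of the cover to all pairs. -/
noncomputable def bb (p q : V × X.Phi) : H :=
  if h : ReflTransGen (adjW X) (v₀, 1) p ∧ ReflTransGen (adjW X) (v₀, 1) q then
    c ⟨p, h.1⟩ ⟨q, h.2⟩ else 1

theorem bb_edge (hc : (cover X v₀).Cocycle c) {p q : V × X.Phi} (h : adjW X p q) :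
    bb c p q * bb c q p = 1 := by
  by_cases hp : ReflTransGen (adjW X) (v₀, 1) p
  · have hq := hp.tail h
    rw [bb, bb, dif_pos ⟨hp, hq⟩, dif_pos ⟨hq, hp⟩]
    exact hc.1 _ _ h
  · rw [bb, bb, dif_neg (fun h => hp h.1), dif_neg (fun h => hp h.2), mul_one]

theorem bb_tri (hc : (cover X v₀).Cocycle c) {p q r : V × X.Phi} (h : X.tri p.1 q.1 r.1)
    (h1 : q.2 = p.2 * X.ec p.1 q.1) (h2 : r.2 = q.2 * X.ec q.1 r.1) :
    bb c p q * bb c q r * bb c r p = 1 := by
  have e1 : adjW X p q := ⟨X.tri_adj _ _ _ h, h1⟩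
  have e2 : adjW X q r := ⟨X.tri_adj _ _ _ (X.tri_rot _ _ _ h), h2⟩
  by_cases hp : ReflTransGen (adjW X) (v₀, 1) p
  · have hq := hp.tail e1
    have hr := hq.tail e2
    rw [bb, bb, bb, dif_pos ⟨hp, hq⟩, dif_pos ⟨hq, hr⟩, dif_pos ⟨hr, hp⟩]
    exact hc.2 _ _ _ ⟨h, h1, h2⟩
  · have hq : ¬ ReflTransGen (adjW X) (v₀, 1) q := fun hq => hp (hq.tail (adjW_symm e1))
    rw [bb, bb, bb, dif_neg (fun h => hp h.1), dif_neg (fun h => hq h.1),
      dif_neg (fun h => hp h.2), mul_one, mul_one]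

/-- The permutation of `Φ × H` defined by an edge. -/
noncomputable def pm (u v : V) : Equiv.Perm (X.Phi × H) where
  toFun x := (x.1 * X.ec u v, x.2 * bb c (u, x.1) (v, x.1 * X.ec u v))
  invFun x := (x.1 * (X.ec u v)⁻¹, x.2 * (bb c (u, x.1 * (X.ec u v)⁻¹) (v, x.1))⁻¹)
  left_inv x := by
    ext
    · simp
    · simp
  right_inv x := by
    ext
    · simp
    · simp

theorem pm_cocycle (hc : (cover X v₀).Cocycle c) :
    X.Cocycle fun u v => MulOpposite.op (pm c u v) := by
  constructor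
  · intro u v h
    rw [← MulOpposite.op_mul, ← MulOpposite.op_one]
    congr 1
    ext x
    · change x.1 * X.ec u v * X.ec v u = x.1
      rw [mul_assoc, X.ec_cocycle.1 _ _ h, mul_one]
    · change x.2 * bb c (u, x.1) (v, x.1 * X.ec u v) *
        bb c (v, x.1 * X.ec u v) (u, x.1 * X.ec u v * X.ec v u) = x.2
      have e1 : x.1 * X.ec u v * X.ec v u = x.1 := by
        rw [mul_assoc, X.ec_cocycle.1 _ _ h, mul_one]
      rw [e1, mul_assoc, bb_edge c hc ⟨h, rfl⟩, mul_one]
  · intro u v w h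
    rw [← MulOpposite.op_mul, ← MulOpposite.op_mul, ← MulOpposite.op_one]
    congr 1
    ext x
    · change x.1 * X.ec u v * X.ec v w * X.ec w u = x.1
      rw [mul_assoc, mul_assoc, ← mul_assoc (X.ec u v), X.ec_cocycle.2 _ _ _ h, mul_one]
    · change x.2 * bb c (u, x.1) (v, x.1 * X.ec u v) *
        bb c (v, x.1 * X.ec u v) (w, x.1 * X.ec u v * X.ec v w) *
        bb c (w, x.1 * X.ec u v * X.ec v w) (u, x.1 * X.ec u v * X.ec v w * X.ec w u) = x.2
      have e1 : x.1 * X.ec u v * X.ec v w * X.ec w u = x.1 := by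
        rw [mul_assoc, mul_assoc, ← mul_assoc (X.ec u v), X.ec_cocycle.2 _ _ _ h, mul_one]
      rw [e1, mul_assoc, mul_assoc, ← mul_assoc (bb c (u, x.1) _),
        bb_tri c hc (p := (u, x.1)) (q := (v, x.1 * X.ec u v))
          (r := (w, x.1 * X.ec u v * X.ec v w)) h rfl rfl, mul_one]

theorem pm_fst (hc : (cover X v₀).Cocycle c) (x : X.Phi) :
    ∀ y : X.Phi × H, ((liftPhi (pm_cocycle c hc) x).unop y).1 = y.1 * x := by
  induction x using phi_induction with
  | h1 => intro y; simp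
  | hof u v =>
    intro y
    rw [liftPhi_ec]
    rfl
  | hinv x hx =>
    intro y
    have e := hx (((liftPhi (pm_cocycle c hc) x).unop)⁻¹ y)
    have e0 : (liftPhi (pm_cocycle c hc) x).unop (((liftPhi (pm_cocycle c hc) x).unop)⁻¹ y) = y :=
      Equiv.apply_symm_apply _ y
    rw [e0] at e
    rw [map_inv, MulOpposite.unop_inv, e, mul_inv_cancel_right]
  | hmul x z hx hz =>
    intro y
    rw [map_mul, MulOpposite.unop_mul, Equiv.Perm.mul_apply, hz, hx, mul_assoc]

/-- The holonomy. -/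
noncomputable def hol (hc : (cover X v₀).Cocycle c) (x : X.Phi) : H :=
  ((liftPhi (pm_cocycle c hc) x).unop (1, 1)).2

theorem hol_mul_ec (hc : (cover X v₀).Cocycle c) (x : X.Phi) (u v : V) :
    hol c hc (x * X.ec u v) = hol c hc x * bb c (u, x) (v, x * X.ec u v) := by
  have h1 : (liftPhi (pm_cocycle c hc) x).unop (1, 1) = (x, hol c hc x) := by
    ext
    · rw [pm_fst c hc, one_mul]
    · rfl
  rw [hol, map_mul, MulOpposite.unop_mul, Equiv.Perm.mul_apply, h1, liftPhi_ec]
  rfl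

end potential

theorem cover_simplyConn : (cover X v₀).SimplyConn := by
  refine ⟨⟨⟨(v₀, 1), ReflTransGen.refl⟩⟩, fun p q => ?_, fun H _ c hc => ?_⟩
  · have h1 := cover_reach p.1 p.2
    have h2 := cover_reach q.1 q.2
    have h3 : ∀ {a b : Cv X v₀}, ReflTransGen (cover X v₀).adj a b →
        ReflTransGen (cover X v₀).adj b a := by
      intro a b h
      induction h with
      | refl => exact ReflTransGen.refl
      | tail _ h1 ih => exact ih.head ((cover X v₀).adj_symm _ _ h1)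
    exact (h3 h1).trans h2
  · refine ⟨fun p => hol c hc p.1.2, fun p q hpq => ?_⟩
    have e1 := hol_mul_ec c hc p.1.2 p.1.1 q.1.1
    rw [← hpq.2] at e1
    have e2 : bb c (p.1.1, p.1.2) (q.1.1, q.1.2) = c p q := by
      rw [bb, dif_pos ⟨p.2, q.2⟩]
      rfl
    rw [e2] at e1
    change c p q = (hol c hc p.1.2)⁻¹ * hol c hc q.1.2
    rw [e1, inv_mul_cancel_left]

theorem cover_linkGirth (hX : X.LinkGirth) : (cover X v₀).LinkGirth := by
  intro p k hk3 hk5 u hu ht
  refine hX p.1.1 k hk3 hk5 (fun i => (u i).1.1) (fun i j hij => hu ?_) (fun i => (ht i).1)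
  refine Cv.ext hij ?_
  change (u i).1.1 = (u j).1.1 at hij
  rw [(ht i).2.1, (ht j).2.1, hij]

end Cpx

end Pool.Agent.Helper3.FJ
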