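import Pool.Agent.Helper3.FJ.Mat

/-!
# Linear groups of degree at most three over rings with a degree function
-/

set_option autoImplicit false

namespace Pool.Agent.Helper3.FJ

open WithZero Pool.Agent.Helper29.BA Pool.Agent.Helper29.PA

open scoped Matrix MatrixGroups Polynomial

section ring

variable {R : Type} [CommRing R] [IsDomain R] (w : Valuation R ℤᵐ⁰)

theorem le_supp (hw : ∀ x, w x = 0 → x = 0) : nonZeroDivisors R ≤ w.supp.primeCompl := by
  intro x hx h0
  exact nonZeroDivisors.ne_zero hx (hw x h0)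

/-- The extension to the field of fractions. -/
noncomputable def frv (hw : ∀ x, w x = 0 → x = 0) : Valuation (FractionRing R) ℤᵐ⁰ :=
  w.extendToLocalization (le_supp w hw) (FractionRing R)

theorem frv_apply (hw : ∀ x, w x = 0 → x = 0) (x : R) :
    frv w hw (algebraMap R (FractionRing R) x) = w x :=
  w.extendToLocalization_apply_map_apply (le_supp w hw) (FractionRing R) x

theorem frv_surj (hw : ∀ x, w x = 0 → x = 0) (t : R) (ht : w t = exp 1) :
    Function.Surjective (frv w hw) := by
  intro y
  rcases eq_or_ne y 0 with rfl | hy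
  · exact ⟨0, map_zero _⟩
  · refine ⟨(algebraMap R (FractionRing R) t) ^ (log y), ?_⟩
    rw [map_zpow₀, frv_apply, ht, ← exp_zsmul, smul_eq_mul, mul_one, exp_log hy]

/-- The map to the matrices over the field of fractions. -/
noncomputable def toK (n : ℕ) : GL (Fin n) R →* GL (Fin n) (FractionRing R) :=
  Matrix.GeneralLinearGroup.map (algebraMap R (FractionRing R))

theorem toK_apply {n : ℕ} (g : GL (Fin n) R) (i j : Fin n) :
    (toK n g).1 i j = algebraMap R (FractionRing R) (g.1 i j) := rfl

theorem toK_det {n : ℕ} (g : GL (Fin n) R) :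
    (toK n g).1.det = algebraMap R (FractionRing R) g.1.det := by
  have : (toK n g).1 = (algebraMap R (FractionRing R)).mapMatrix g.1 := rfl
  rw [this, ← RingHom.map_det]

theorem toK_inj {n : ℕ} : Function.Injective (toK (R := R) n) := by
  intro a b hab
  refine Units.ext (Matrix.ext fun i j => ?_)
  have h : (toK n a).1 i j = (toK n b).1 i j := by rw [hab]
  rw [toK_apply, toK_apply] at h
  exact IsFractionRing.injective R (FractionRing R) h

theorem ring_two {C : ∀ (G : Type) [Group G], Prop} (hC : ExtClass C)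
    (hw : ∀ x, w x = 0 → x = 0) (t : R) (ht : w t = exp 1) {G : Type} [Group G]
    (ρ : G →* GL (Fin 2) R) (hρ : Function.Injective ρ) (hdet : ∀ g, w (ρ g).1.det = 1)
    (hQ : ∀ m : ℤ, ∃ (Q : Type) (_ : Group Q) (f : G →* Q), C Q ∧
      ∀ g, f g = 1 → (∀ i j, w ((ρ g).1 i j) ≤ exp m) → g = 1) : C G := by
  have hinj : Function.Injective ((toK 2).comp ρ) := toK_inj.comp hρ
  let e : G ≃* ((toK 2).comp ρ).range := MonoidHom.ofInjective hinj
  have he : ∀ g, (e g).1 = toK 2 (ρ g) := fun g => rfl
  refine hC.iso _ _ e.symm ?_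
  refine rank_two hC (frv_surj w hw t ht) _ ?_ ?_
  · rintro _ ⟨g, rfl⟩
    change frv w hw (toK 2 (ρ g)).1.det = 1
    rw [toK_det, frv_apply, hdet]
  · intro m
    obtain ⟨Q, _, f, hCQ, hf⟩ := hQ m
    refine ⟨Q, _, f.comp e.symm.toMonoidHom, hCQ, fun g hg hb => ?_⟩
    obtain ⟨g, rfl⟩ := e.surjective g
    have h1 : f g = 1 := by simpa using hg
    rw [hf g h1 fun i j => ?_, map_one]
    have := hb i j
    rwa [he, toK_apply, frv_apply] at this

theorem ring_three {C : ∀ (G : Type) [Group G], Prop} (hC : TriClass C)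
    (hw : ∀ x, w x = 0 → x = 0) (t : R) (ht : w t = exp 1) {n : ℕ} (hn : n ≤ 3)
    {G : Type} [Group G]
    (ρ : G →* GL (Fin n) R) (hρ : Function.Injective ρ) (hdet : ∀ g, w (ρ g).1.det = 1)
    (hfin : ∀ m : ℤ, {g : G | ∀ i j, w ((ρ g).1 i j) ≤ exp m}.Finite) : C G := by
  have hinj : Function.Injective ((toK n).comp ρ) := toK_inj.comp hρ
  refine hC.iso _ _ (MonoidHom.ofInjective hinj).symm ?_
  refine rank_three hC (frv_surj w hw t ht) hn _ ?_ ?_
  · rintro _ ⟨g, rfl⟩
    change frv w hw (toK n (ρ g)).1.det = 1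
    rw [toK_det, frv_apply, hdet]
  · intro m
    refine ((hfin m).image ((toK n).comp ρ)).subset ?_
    rintro _ ⟨⟨g, rfl⟩, hb⟩
    refine ⟨g, fun i j => ?_, rfl⟩
    have := hb i j
    change frv w hw ((toK n (ρ g)).1 i j) ≤ _ at this
    rwa [toK_apply, frv_apply] at this

end ring

section poly

variable (A : Type) [CommRing A] [IsDomain A]

open Classical in
/-- The degree valuation. -/
noncomputable def degVal : Valuation A[X] ℤᵐ⁰ where
  toFun p := if p = 0 then 0 else exp (p.natDegree : ℤ)
  map_zero' := if_pos rfl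
  map_one' := by simp
  map_mul' p q := by
    rcases eq_or_ne p 0 with rfl | hp
    · simp
    rcases eq_or_ne q 0 with rfl | hq
    · simp
    rw [if_neg hp, if_neg hq, if_neg (mul_ne_zero hp hq), Polynomial.natDegree_mul hp hq, ← exp_add]
    push_cast
    rfl
  map_add_le_max' p q := by
    rcases eq_or_ne p 0 with rfl | hp
    · simp
    rcases eq_or_ne q 0 with rfl | hq
    · simp
    rw [if_neg hp, if_neg hq]
    rcases eq_or_ne (p + q) 0 with h | h
    · rw [if_pos h]
      exact zero_le
    rw [if_neg h]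
    have := Polynomial.natDegree_add_le p q
    rcases le_max_iff.1 this with h1 | h1
    · exact le_max_of_le_left (exp_le_exp.2 (by exact_mod_cast h1))
    · exact le_max_of_le_right (exp_le_exp.2 (by exact_mod_cast h1))

variable {A}

theorem degVal_of_ne {p : A[X]} (hp : p ≠ 0) : degVal A p = exp (p.natDegree : ℤ) := if_neg hp

theorem degVal_zero (p : A[X]) (hp : degVal A p = 0) : p = 0 := by
  by_contra h
  rw [degVal_of_ne h] at hp
  exact exp_ne_zero hp

theorem degVal_X : degVal A Polynomial.X = exp 1 := by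
  rw [degVal_of_ne Polynomial.X_ne_zero, Polynomial.natDegree_X]
  rfl

theorem degVal_unit {p : A[X]} (hp : IsUnit p) : degVal A p = 1 := by
  rw [degVal_of_ne hp.ne_zero, Polynomial.natDegree_eq_zero_of_isUnit hp]
  rfl

theorem natDegree_lt {p : A[X]} {m : ℤ} (hp : degVal A p ≤ exp m) : p.natDegree < m.toNat + 1 := by
  rcases eq_or_ne p 0 with rfl | h
  · simp
  · rw [degVal_of_ne h, exp_le_exp] at hp
    omega

/-- Differences with the identity matrix. -/
theorem sub_one_bd {n : ℕ} {M : Matrix (Fin n) (Fin n) A[X]} {m : ℤ}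
    (hM : ∀ i j, degVal A (M i j) ≤ exp m) (i j : Fin n) :
    ((M - 1) i j).natDegree < m.toNat + 1 := by
  rw [Matrix.sub_apply, Matrix.one_apply]
  split_ifs
  · refine lt_of_le_of_lt (Polynomial.natDegree_sub_le _ _) ?_
    rw [Polynomial.natDegree_one]
    exact max_lt (natDegree_lt (hM i j)) (Nat.succ_pos _)
  · rw [sub_zero]
    exact natDegree_lt (hM i j)

/-- A quotient detecting the matrices of small degree, over a finite ring. -/
theorem finite_quot [Finite A] (m : ℤ) : ∃ (B : Type) (_ : CommRing B) (φ : A[X] →+* B),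
    Finite B ∧ ∀ p : A[X], p.natDegree < m.toNat + 1 → φ p = 0 → p = 0 := by
  let q : A[X] := Polynomial.X ^ (m.toNat + 1)
  have hq : q.Monic := Polynomial.monic_X_pow _
  have : Module.Finite A (AdjoinRoot q) := hq.finite_adjoinRoot
  refine ⟨AdjoinRoot q, inferInstance, AdjoinRoot.mk q, Module.finite_of_finite A, ?_⟩
  intro p hp h0
  rw [AdjoinRoot.mk_eq_zero] at h0
  refine Polynomial.eq_zero_of_dvd_of_natDegree_lt h0 ?_
  rwa [Polynomial.natDegree_X_pow]

end poly

end Pool.Agent.Helper3.FJ
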