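import Pool.Agent.Helper3.FJ.Cpx

/-!
# Complexes of lattices up to homothety

An abstract version: `Λ` is a join-semilattice (the lattices) with an automorphism `σ` (the
multiplication by a uniformizer).
-/

set_option autoImplicit false

namespace Pool.Agent.Helper3.FJ

open Relation

/-- The axioms. -/
structure LatSys {Λ : Type} [SemilatticeSup Λ] (σ : Λ ≃o Λ) : Prop where
  ne : Nonempty Λ
  lt : ∀ L, σ L < L
  cofinal : ∀ L M : Λ, ∃ k : ℕ, (σ ^ k) L ≤ M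

namespace LatSys

variable {Λ : Type} [SemilatticeSup Λ] {σ : Λ ≃o Λ}

/-- Homothety. -/
def setoid (σ : Λ ≃o Λ) : Setoid Λ where
  r L M := ∃ k : ℤ, (σ ^ k) L = M
  iseqv := by
    refine ⟨fun L => ⟨0, rfl⟩, ?_, ?_⟩
    · rintro L M ⟨k, rfl⟩
      refine ⟨-k, ?_⟩
      rw [← RelIso.mul_apply, ← zpow_add, neg_add_cancel, zpow_zero]
      rfl
    · rintro L M N ⟨k, rfl⟩ ⟨l, rfl⟩
      refine ⟨l + k, ?_⟩
      rw [zpow_add]
      rfl

/-- The vertices: the homothety classes. -/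
def Vx (σ : Λ ≃o Λ) : Type := Quotient (setoid σ)

/-- The homothety class. -/
def cls (σ : Λ ≃o Λ) (L : Λ) : Vx σ := Quotient.mk (setoid σ) L

/-- A lattice in the class. -/
noncomputable def rep (v : Vx σ) : Λ := Quotient.out (s := setoid σ) v

theorem cls_rep (v : Vx σ) : cls σ (rep v) = v := Quotient.out_eq (s := setoid σ) v

theorem cls_surj (v : Vx σ) : ∃ L, cls σ L = v := ⟨rep v, cls_rep v⟩

theorem cls_eq {L M : Λ} : cls σ L = cls σ M ↔ ∃ k : ℤ, (σ ^ k) L = M :=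
  ⟨fun h => Quotient.exact h, fun h => Quotient.sound h⟩

theorem cls_σ (L : Λ) : cls σ (σ L) = cls σ L := by
  rw [eq_comm, cls_eq]
  exact ⟨1, by rw [zpow_one]⟩

variable (h : LatSys σ)

include h

theorem pow_le (k : ℕ) (L : Λ) : (σ ^ k) L ≤ L := by
  induction k with
  | zero => exact le_rfl
  | succ k ih =>
    rw [pow_succ']
    exact (h.lt _).le.trans ih

theorem pow_succ_le (k : ℕ) (L : Λ) : (σ ^ (k + 1)) L ≤ σ L := by
  rw [pow_succ]
  exact h.pow_le k (σ L)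

theorem cls_ne {L M : Λ} (h1 : σ L < M) (h2 : M < L) : cls σ L ≠ cls σ M := by
  intro he
  obtain ⟨k, hk⟩ := cls_eq.1 he
  rcases le_or_gt k 0 with hk0 | hk0
  · obtain ⟨m, rfl⟩ : ∃ m : ℕ, k = -m := ⟨(-k).toNat, by omega⟩
    have h3 : L = (σ ^ m) M := by
      rw [← hk, ← zpow_natCast, ← RelIso.mul_apply, ← zpow_add, add_neg_cancel, zpow_zero]
      rfl
    exact absurd (h3 ▸ h.pow_le m M) (not_le_of_gt h2)
  · obtain ⟨m, rfl⟩ : ∃ m : ℕ, k = (m : ℤ) + 1 := ⟨(k - 1).toNat, by omega⟩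
    have h3 : (σ ^ (m + 1)) L = M := by
      rw [← hk, ← zpow_natCast]
      norm_num
    exact absurd (h3 ▸ h.pow_succ_le m L) (not_le_of_gt h1)

omit h in
/-- Oriented triangles. -/
def T (σ : Λ ≃o Λ) (u v w : Vx σ) : Prop :=
  ∃ L M N : Λ, cls σ L = u ∧ cls σ M = v ∧ cls σ N = w ∧ M < L ∧ N < M ∧ σ L < N

omit h in
theorem T.rot {u v w : Vx σ} (ht : T σ u v w) : T σ v w u := by
  obtain ⟨L, M, N, hL, hM, hN, h1, h2, h3⟩ := ht
  exact ⟨M, N, σ L, hM, hN, by rw [cls_σ, hL], h2, h3, σ.lt_iff_lt.2 h1⟩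

omit h in
/-- Edges. -/
def A (σ : Λ ≃o Λ) (u v : Vx σ) : Prop :=
  ∃ L M : Λ, cls σ L = u ∧ cls σ M = v ∧ M < L ∧ σ L < M

omit h in
theorem A.symm {u v : Vx σ} (ha : A σ u v) : A σ v u := by
  obtain ⟨L, M, hL, hM, h1, h2⟩ := ha
  exact ⟨M, σ L, hM, by rw [cls_σ, hL], h2, σ.lt_iff_lt.2 h1⟩

omit h in
theorem T.adj {u v w : Vx σ} (ht : T σ u v w) : A σ u v := by
  obtain ⟨L, M, N, hL, hM, hN, h1, h2, h3⟩ := ht
  exact ⟨L, M, hL, hM, h1, h3.trans h2⟩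

/-- The complex of the homothety classes. -/
def cpx : Cpx (Vx σ) where
  adj := A σ
  tri u v w := T σ u v w ∨ T σ v u w
  adj_symm _ _ := A.symm
  adj_irrefl u hu := by
    obtain ⟨L, M, hL, hM, h1, h2⟩ := hu
    exact h.cls_ne h2 h1 (hL.trans hM.symm)
  tri_rot u v w ht := by
    rcases ht with ht | ht
    · exact Or.inl ht.rot
    · exact Or.inr ht.rot.rot
  tri_flip u v w ht := by
    rcases ht with ht | ht
    · exact Or.inr ht
    · exact Or.inl ht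
  tri_adj u v w ht := by
    rcases ht with ht | ht
    · exact ht.adj
    · exact ht.adj.symm

/-- The ladder: `M ⊔ σ ^ i L`. -/
def lad (_h : LatSys σ) (L M : Λ) (i : ℕ) : Λ := M ⊔ (σ ^ i) L

theorem lad_zero {L M : Λ} (hM : M ≤ L) : h.lad L M 0 = L := by
  simp [lad, hM]

theorem le_lad (L M : Λ) (i : ℕ) : M ≤ h.lad L M i := le_sup_left

theorem lad_succ_le (L M : Λ) (i : ℕ) : h.lad L M (i + 1) ≤ h.lad L M i := by
  refine sup_le_sup_left ?_ _
  rw [pow_succ']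
  exact (h.lt _).le

theorem σ_lad_le (L M : Λ) (i : ℕ) : σ (h.lad L M i) ≤ h.lad L M (i + 1) := by
  unfold lad
  rw [map_sup, pow_succ']
  exact sup_le_sup (h.lt M).le le_rfl

theorem lad_mono {L L' : Λ} (hL : L' ≤ L) (M : Λ) (i : ℕ) : h.lad L' M i ≤ h.lad L M i :=
  sup_le_sup_left ((σ ^ i).monotone hL) _

theorem lad_succ_le' {L L' : Λ} (hL : σ L ≤ L') (M : Λ) (i : ℕ) :
    h.lad L M (i + 1) ≤ h.lad L' M i := by
  refine sup_le_sup_left ?_ _
  rw [pow_succ]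
  exact (σ ^ i).monotone hL

theorem lad_eq {L M : Λ} {k : ℕ} (hk : (σ ^ k) L ≤ M) {i : ℕ} (hi : k ≤ i) :
    h.lad L M i = M := by
  refine sup_eq_left.2 ?_
  obtain ⟨j, rfl⟩ := Nat.exists_eq_add_of_le' hi
  rw [pow_add]
  exact (h.pow_le j _).trans hk

theorem step_reach {L M : Λ} (h1 : M ≤ L) (h2 : σ L ≤ M) :
    ReflTransGen (h.cpx).adj (cls σ L) (cls σ M) := by
  rcases eq_or_lt_of_le h1 with rfl | h1
  · exact ReflTransGen.refl
  rcases eq_or_lt_of_le h2 with rfl | h2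
  · rw [cls_σ]
  · exact ReflTransGen.single ⟨L, M, rfl, rfl, h1, h2⟩

theorem le_reach {L M : Λ} (hM : M ≤ L) : ReflTransGen (h.cpx).adj (cls σ L) (cls σ M) := by
  have key : ∀ i, ReflTransGen (h.cpx).adj (cls σ L) (cls σ (h.lad L M i)) := by
    intro i
    induction i with
    | zero => rw [h.lad_zero hM]
    | succ i ih => exact ih.trans (h.step_reach (h.lad_succ_le L M i) (h.σ_lad_le L M i))
  obtain ⟨k, hk⟩ := h.cofinal L M
  have := key k
  rwa [h.lad_eq hk le_rfl] at this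

omit h in
theorem cls_pow (k : ℕ) (L : Λ) : cls σ ((σ ^ k) L) = cls σ L := by
  rw [eq_comm, cls_eq]
  exact ⟨k, by rw [zpow_natCast]⟩

theorem reach (u v : Vx σ) : ReflTransGen (h.cpx).adj u v := by
  obtain ⟨L, rfl⟩ := cls_surj u
  obtain ⟨M, rfl⟩ := cls_surj v
  obtain ⟨k, hk⟩ := h.cofinal M L
  have := h.le_reach hk
  rwa [cls_pow] at this

section cocycle

variable {H : Type} [Group H] (c : Vx σ → Vx σ → H)

open Classical in
omit h in
/-- The cocycle on pairs of lattices. -/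
noncomputable def ch (L M : Λ) : H := if cls σ L = cls σ M then 1 else c (cls σ L) (cls σ M)

omit h in
theorem ch_self (L : Λ) : ch c L L = 1 := by simp [ch]

omit h in
theorem ch_σ (L : Λ) : ch c L (σ L) = 1 := by simp [ch, cls_σ]

variable {c}

theorem ch_adj {L M : Λ} (h1 : M < L) (h2 : σ L < M) : ch c L M = c (cls σ L) (cls σ M) :=
  if_neg (h.cls_ne h2 h1)

theorem ch_mul (hc : (h.cpx).Cocycle c) {L M N : Λ} (h1 : M ≤ L) (h2 : N ≤ M) (h3 : σ L ≤ N) :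
    ch c L N = ch c L M * ch c M N := by
  rcases eq_or_lt_of_le h1 with rfl | h1
  · rw [ch_self, one_mul]
  rcases eq_or_lt_of_le h2 with rfl | h2
  · rw [ch_self, mul_one]
  rcases eq_or_lt_of_le h3 with rfl | h3
  · rw [ch_σ, h.ch_adj h1 h2, h.ch_adj h2 (σ.lt_iff_lt.2 h1), cls_σ]
    exact (hc.1 _ _ ⟨L, M, rfl, rfl, h1, h2⟩).symm
  · rw [h.ch_adj (h2.trans h1) h3, h.ch_adj h1 (h3.trans h2),
      h.ch_adj h2 ((σ.lt_iff_lt.2 h1).trans h3)]
    have e1 := hc.2 _ _ _ (Or.inl ⟨L, M, N, rfl, rfl, rfl, h1, h2, h3⟩)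
    have e2 := hc.1 _ _ ⟨L, N, rfl, rfl, h2.trans h1, h3⟩
    rw [mul_eq_one_iff_eq_inv] at e1 e2
    rw [e1, e2]

variable (c)

/-- The holonomy along the ladder. -/
noncomputable def hol (L M : Λ) : ℕ → H
  | 0 => 1
  | k + 1 => hol L M k * ch c (h.lad L M k) (h.lad L M (k + 1))

variable {c}

theorem hol_stable {L M : Λ} {k : ℕ} (hk : (σ ^ k) L ≤ M) {i : ℕ} (hi : k ≤ i) :
    h.hol c L M i = h.hol c L M k := by
  induction hi with
  | refl => rfl
  | @step i hi ih =>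
    rw [Nat.succ_eq_add_one, hol, ih, h.lad_eq hk hi, h.lad_eq hk (Nat.le_succ_of_le hi),
      ch_self, mul_one]

theorem hol_ladder (hc : (h.cpx).Cocycle c) {L L' M : Λ} (h1 : L' ≤ L) (h2 : σ L ≤ L')
    (h3 : M ≤ L') (k : ℕ) :
    h.hol c L M k * ch c (h.lad L M k) (h.lad L' M k) = ch c L L' * h.hol c L' M k := by
  induction k with
  | zero => rw [hol, hol, h.lad_zero h3, h.lad_zero (h3.trans h1), one_mul, mul_one]
  | succ k ih =>
    rw [hol, hol, ← mul_assoc, ← ih]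
    have e1 := h.ch_mul hc (h.lad_mono h1 M k) (h.lad_succ_le' h2 M k) (h.σ_lad_le L M k)
    have e2 := h.ch_mul hc (h.lad_succ_le' h2 M k) (h.lad_mono h1 M (k + 1)) (h.σ_lad_le L' M k)
    rw [e1, e2]
    group

variable (c)

/-- The holonomy from `L` to `M`. -/
noncomputable def HH (L M : Λ) : H := h.hol c L M (h.cofinal L M).choose

variable {c}

theorem HH_eq {L M : Λ} {k : ℕ} (hk : (σ ^ k) L ≤ M) : h.HH c L M = h.hol c L M k := by
  have h0 := (h.cofinal L M).choose_spec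
  rcases le_total k (h.cofinal L M).choose with hle | hle
  · exact h.hol_stable hk hle
  · exact (h.hol_stable h0 hle).symm

theorem HH_step (hc : (h.cpx).Cocycle c) {L L' M : Λ} (h1 : L' ≤ L) (h2 : σ L ≤ L')
    (h3 : M ≤ L') : h.HH c L M = ch c L L' * h.HH c L' M := by
  obtain ⟨k, hk⟩ := h.cofinal L M
  have hk' : (σ ^ k) L' ≤ M := ((σ ^ k).monotone h1).trans hk
  rw [h.HH_eq hk, h.HH_eq hk', ← h.hol_ladder hc h1 h2 h3 k, h.lad_eq hk le_rfl,
    h.lad_eq hk' le_rfl, ch_self, mul_one]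

theorem HH_self (M : Λ) : h.HH c M M = 1 := by
  rw [h.HH_eq (k := 0) (by simp)]
  rfl

theorem HH_σ_self (hc : (h.cpx).Cocycle c) (M : Λ) : h.HH c M (σ M) = 1 := by
  rw [h.HH_step hc (h.lt M).le le_rfl le_rfl, h.HH_self, ch_σ, mul_one]

theorem HH_lad (hc : (h.cpx).Cocycle c) {L M : Λ} (hM : M ≤ L) (k : ℕ) :
    h.HH c L (σ M) = h.hol c L M k * h.HH c (h.lad L M k) (σ M) := by
  induction k with
  | zero => rw [hol, h.lad_zero hM, one_mul]
  | succ k ih =>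
    rw [ih, hol, mul_assoc, ← h.HH_step hc (h.lad_succ_le L M k) (h.σ_lad_le L M k)
      ((h.lt M).le.trans (h.le_lad L M (k + 1)))]

theorem HH_σ (hc : (h.cpx).Cocycle c) {L M : Λ} (hM : M ≤ L) : h.HH c L (σ M) = h.HH c L M := by
  obtain ⟨k, hk⟩ := h.cofinal L M
  rw [h.HH_lad hc hM k, h.lad_eq hk le_rfl, h.HH_σ_self hc, mul_one, h.HH_eq hk]

theorem HH_pow (hc : (h.cpx).Cocycle c) {L M : Λ} {k : ℕ} (hk : (σ ^ k) M ≤ L) {i : ℕ}
    (hi : k ≤ i) : h.HH c L ((σ ^ i) M) = h.HH c L ((σ ^ k) M) := by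
  induction hi with
  | refl => rfl
  | @step i hi ih =>
    rw [Nat.succ_eq_add_one, pow_succ', RelIso.mul_apply, h.HH_σ hc ?_, ih]
    obtain ⟨j, rfl⟩ := Nat.exists_eq_add_of_le' hi
    rw [pow_add]
    exact (h.pow_le j _).trans hk

theorem exists_potential (hc : (h.cpx).Cocycle c) : ∃ g : Λ → H, (∀ L, g (σ L) = g L) ∧
    ∀ L M, M ≤ L → σ L ≤ M → ch c L M = (g L)⁻¹ * g M := by
  obtain ⟨L₀⟩ := h.ne
  let g : Λ → H := fun L => (h.HH c L ((σ ^ (h.cofinal L₀ L).choose) L₀))⁻¹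
  have hg : ∀ (L : Λ) (k : ℕ), (σ ^ k) L₀ ≤ L → g L = (h.HH c L ((σ ^ k) L₀))⁻¹ := by
    intro L k hk
    have h0 := (h.cofinal L₀ L).choose_spec
    change (h.HH c L ((σ ^ (h.cofinal L₀ L).choose) L₀))⁻¹ = _
    rcases le_total k (h.cofinal L₀ L).choose with hle | hle
    · rw [h.HH_pow hc hk hle]
    · rw [h.HH_pow hc h0 hle]
  have h2 : ∀ L M, M ≤ L → σ L ≤ M → ch c L M = (g L)⁻¹ * g M := by
    intro L M h1 h2
    obtain ⟨k, hk⟩ := h.cofinal L₀ M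
    rw [hg L k (hk.trans h1), hg M k hk, h.HH_step hc h1 h2 hk]
    group
  refine ⟨g, fun L => ?_, h2⟩
  have := h2 L (σ L) (h.lt L).le le_rfl
  rw [ch_σ, eq_comm, inv_mul_eq_one] at this
  exact this.symm

end cocycle

theorem simplyConn : (h.cpx).SimplyConn := by
  refine ⟨h.ne.map (cls σ), h.reach, fun H _ c hc => ?_⟩
  obtain ⟨g, hg1, hg2⟩ := h.exists_potential hc
  have hz : ∀ (k : ℤ) L, g ((σ ^ k) L) = g L := by
    intro k L
    induction k with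
    | zero => rfl
    | succ k ih =>
      rw [add_comm, zpow_add, zpow_one, RelIso.mul_apply, hg1, ih]
    | pred k ih =>
      rw [← ih, ← hg1 ((σ ^ (-(k : ℤ) - 1)) L), ← RelIso.mul_apply, ← zpow_one_add]
      congr 3
      ring
  have hout : ∀ L, g (rep (cls σ L)) = g L := by
    intro L
    obtain ⟨k, hk⟩ := cls_eq.1 (cls_rep (cls σ L)).symm
    rw [← hz k L, hk]
  refine ⟨fun v => g (rep v), ?_⟩
  rintro _ _ ⟨L, M, rfl, rfl, h1, h2⟩
  change c (cls σ L) (cls σ M) = (g (rep (cls σ L)))⁻¹ * g (rep (cls σ M))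
  rw [hout, hout, ← hg2 L M h1.le h2.le, h.ch_adj h1 h2]

/-- If there are no chains `L > M > N > σ L`, there are no triangles. -/
theorem no_tri (h2 : ∀ L M N : Λ, M < L → N < M → σ L < N → False) (u v w : Vx σ) :
    ¬ (h.cpx).tri u v w := by
  rintro (⟨L, M, N, -, -, -, h3, h4, h5⟩ | ⟨L, M, N, -, -, -, h3, h4, h5⟩)
  · exact h2 L M N h3 h4 h5
  · exact h2 L M N h3 h4 h5

/-- A neighbour of the class of `L` has a unique representative between `σ L` and `L`. -/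
theorem rep_unique {L M M' : Λ} (h1 : M < L) (h2 : σ L < M) (h1' : M' < L) (h2' : σ L < M')
    (he : cls σ M = cls σ M') : M = M' := by
  obtain ⟨k, hk⟩ := cls_eq.1 he
  rcases lt_trichotomy k 0 with hk0 | hk0 | hk0
  · obtain ⟨m, rfl⟩ : ∃ m : ℕ, k = -(m + 1 : ℕ) := ⟨(-k - 1).toNat, by omega⟩
    have h3 : M = (σ ^ (m + 1)) M' := by
      rw [← hk, ← zpow_natCast, ← RelIso.mul_apply, ← zpow_add, add_neg_cancel, zpow_zero]
      rfl
    have h4 := h.pow_succ_le m M'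
    rw [← h3] at h4
    exact absurd (h2.trans_le (h4.trans (σ.lt_iff_lt.2 h1').le)) (lt_irrefl _)
  · rw [hk0, zpow_zero] at hk
    exact hk
  · obtain ⟨m, rfl⟩ : ∃ m : ℕ, k = (m + 1 : ℕ) := ⟨(k - 1).toNat, by omega⟩
    have h3 : (σ ^ (m + 1)) M = M' := by
      rw [← hk, zpow_natCast]
    have h4 := h.pow_succ_le m M
    rw [h3] at h4
    exact absurd (h2'.trans_le (h4.trans (σ.lt_iff_lt.2 h1).le)) (lt_irrefl _)

omit h in
theorem T.at {u v w : Vx σ} (ht : T σ u v w) (L : Λ) (hL : cls σ L = u) :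
    ∃ M N : Λ, cls σ M = v ∧ cls σ N = w ∧ M < L ∧ N < M ∧ σ L < N := by
  obtain ⟨L', M, N, hL', hM, hN, h1, h2, h3⟩ := ht
  obtain ⟨k, hk⟩ := cls_eq.1 (hL'.trans hL.symm)
  refine ⟨(σ ^ k) M, (σ ^ k) N, ?_, ?_, ?_, (σ ^ k).lt_iff_lt.2 h2, ?_⟩
  · rw [← hM, eq_comm, cls_eq]
    exact ⟨k, rfl⟩
  · rw [← hN, eq_comm, cls_eq]
    exact ⟨k, rfl⟩
  · rw [← hk]
    exact (σ ^ k).lt_iff_lt.2 h1
  · rw [← hk, ← RelIso.mul_apply, ← zpow_one_add, add_comm, zpow_add, zpow_one,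
      RelIso.mul_apply]
    exact (σ ^ k).lt_iff_lt.2 h3

omit h in
theorem odd3 {p q r : Prop} (h1 : p ↔ ¬ q) (h2 : q ↔ ¬ r) (h3 : r ↔ ¬ p) : False := by
  by_cases hp : p
  · exact (h3.1 (not_not.1 (mt h2.2 (h1.1 hp)))) hp
  · exact h2.1 (not_not.1 (mt h1.2 hp)) (h3.2 hp)

omit h in
theorem odd5 {p q r s t : Prop} (h1 : p ↔ ¬ q) (h2 : q ↔ ¬ r) (h3 : r ↔ ¬ s) (h4 : s ↔ ¬ t)
    (h5 : t ↔ ¬ p) : False :=
  odd3 h1 (h2.trans (not_congr (h3.trans (not_congr h4 |>.trans not_not)))) h5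

/-- In dimension two the links have girth at least six. -/
theorem linkGirth
    (h3 : ∀ L M N P : Λ, M < L → N < M → P < N → σ L < P → False) : (h.cpx).LinkGirth := by
  intro v k hk3 hk5 u hu ht
  obtain ⟨L, rfl⟩ := cls_surj v
  have key : ∀ i : ZMod k, ∃ M N : Λ, M < L ∧ σ L < M ∧ N < L ∧ σ L < N ∧
      cls σ M = u i ∧ cls σ N = u (i + 1) ∧ (N < M ∨ M < N) := by
    intro i
    rcases ht i with h1 | h1
    · obtain ⟨M, N, hM, hN, h4, h5, h6⟩ := h1.at L rfl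
      exact ⟨M, N, h4, h6.trans h5, h5.trans h4, h6, hM, hN, Or.inl h5⟩
    · obtain ⟨N, M, hN, hM, h4, h5, h6⟩ := h1.rot.at L rfl
      exact ⟨M, N, h5.trans h4, h6, h4, h6.trans h5, hM, hN, Or.inr h5⟩
  choose M N h1 h2 h4 h5 hM hN hor using key
  have hNM : ∀ i, N i = M (i + 1) := fun i =>
    h.rep_unique (h4 i) (h5 i) (h1 (i + 1)) (h2 (i + 1)) ((hN i).trans (hM (i + 1)).symm)
  have hor' : ∀ i, M (i + 1) < M i ∨ M i < M (i + 1) := fun i => by rw [← hNM i]; exact hor i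
  have hinj : Function.Injective M := fun i j hij => hu (by rw [← hM i, ← hM j, hij])
  -- the directions alternate
  have alt : ∀ i, (M (i + 1) < M i ↔ M (i + 1) < M (i + 1 + 1)) := by
    intro i
    constructor
    · intro ha
      rcases hor' (i + 1) with hb | hb
      · exact (h3 L (M i) (M (i + 1)) (M (i + 1 + 1)) (h1 i) ha hb (h2 _)).elim
      · exact hb
    · intro ha
      rcases hor' i with hb | hb
      · exact hb
      · exact (h3 L (M (i + 1 + 1)) (M (i + 1)) (M i) (h1 _) ha hb (h2 _)).elim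
  have asym : ∀ i, (M (i + 1) < M i ↔ ¬ M i < M (i + 1)) := fun i =>
    ⟨fun ha hb => lt_asymm ha hb, fun ha => (hor' i).resolve_right ha⟩
  have alt2 : ∀ i, (M (i + 1) < M i ↔ ¬ M (i + 1 + 1) < M (i + 1)) := by
    intro i
    rw [alt i, asym (i + 1), not_not]
  -- no circuits of length four
  have four : ∀ a b c d : Λ, a < L → c < L → σ L < b → σ L < d → b < a → b < c → d < c → d < a →
      a ≠ c → b ≠ d → False := by
    intro a b c d ha hc hb hd hba hbc hdc hda hac hbd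
    have hb1 : b < b ⊔ d := by
      refine lt_of_le_of_ne le_sup_left fun he => ?_
      have hdb : d ≤ b := by rw [he]; exact le_sup_right
      exact h3 L a b d ha hba (lt_of_le_of_ne hdb hbd.symm) hd
    have ha1 : b ⊔ d < a := by
      refine lt_of_le_of_ne (sup_le hba.le hda.le) fun he => ?_
      have hac' : a ≤ c := by rw [← he]; exact sup_le hbc.le hdc.le
      exact h3 L c a b hc (lt_of_le_of_ne hac' hac) hba hb
    exact h3 L a (b ⊔ d) b ha ha1 hb1 hb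
  obtain ⟨P, hP⟩ : ∃ P : ZMod k → Prop, ∀ i, P i ↔ M (i + 1) < M i := ⟨_, fun _ => Iff.rfl⟩
  have hPP : ∀ i, P i ↔ ¬ P (i + 1) := fun i => by rw [hP, hP]; exact alt2 i
  interval_cases k
  · have e0 : P 0 ↔ ¬ P 1 := hPP 0
    have e1 : P 1 ↔ ¬ P 2 := hPP 1
    have e2 : P 2 ↔ ¬ P 0 := hPP 2
    exact odd3 e0 e1 e2
  · have e0 : P 0 ↔ ¬ P 1 := hPP 0
    have e1 : P 1 ↔ ¬ P 2 := hPP 1
    have e2 : P 2 ↔ ¬ P 3 := hPP 2
    have f0 : P 0 ↔ M 1 < M 0 := hP 0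
    have f1 : P 1 ↔ M 2 < M 1 := hP 1
    have f2 : P 2 ↔ M 3 < M 2 := hP 2
    have f3 : P 3 ↔ M 0 < M 3 := hP 3
    have o0 : M 1 < M 0 ∨ M 0 < M 1 := hor' 0
    have o1 : M 2 < M 1 ∨ M 1 < M 2 := hor' 1
    have o2 : M 3 < M 2 ∨ M 2 < M 3 := hor' 2
    have o3 : M 0 < M 3 ∨ M 3 < M 0 := hor' 3
    have n02 : M 0 ≠ M 2 := fun he => absurd (hinj he) (by decide)
    have n13 : M 1 ≠ M 3 := fun he => absurd (hinj he) (by decide)
    by_cases h0 : P 0
    · have p1 : ¬ P 1 := e0.1 h0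
      have p2 : P 2 := not_not.1 (mt e1.2 p1)
      have p3 : ¬ P 3 := e2.1 p2
      exact four (M 0) (M 1) (M 2) (M 3) (h1 0) (h1 2) (h2 1) (h2 3) (f0.1 h0)
        (o1.resolve_left fun hx => p1 (f1.2 hx)) (f2.1 p2)
        (o3.resolve_left fun hx => p3 (f3.2 hx)) n02 n13
    · have p1 : P 1 := not_not.1 (mt e0.2 h0)
      have p2 : ¬ P 2 := e1.1 p1
      have p3 : P 3 := not_not.1 (mt e2.2 p2)
      exact four (M 1) (M 2) (M 3) (M 0) (h1 1) (h1 3) (h2 2) (h2 0) (f1.1 p1)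
        (o2.resolve_left fun hx => p2 (f2.2 hx)) (f3.1 p3)
        (o0.resolve_left fun hx => h0 (f0.2 hx)) n13 n02.symm
  · have e0 : P 0 ↔ ¬ P 1 := hPP 0
    have e1 : P 1 ↔ ¬ P 2 := hPP 1
    have e2 : P 2 ↔ ¬ P 3 := hPP 2
    have e3 : P 3 ↔ ¬ P 4 := hPP 3
    have e4 : P 4 ↔ ¬ P 0 := hPP 4
    exact odd5 e0 e1 e2 e3 e4

end LatSys

end Pool.Agent.Helper3.FJ
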