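import Pool.Agent.Helper3.FJ.Cpx
import Pool.Agent.Helper78.PA.FreeExt

/-!
# Groups acting on trees
-/

set_option autoImplicit false

namespace Pool.Agent.Helper3.FJ

open Pool.Agent.Helper29.BA Pool.Agent.Helper29.PA Relation

namespace Cpx

variable {V : Type} (X : Cpx V) (G : Type) [Group G] [MulAction G V]

/-- Edges of the subcomplex spanned by the translates of the finite set `K`. -/
def kadj (K : Finset V) (u v : V) : Prop := X.adj u v ∧ ∃ g : G, g • u ∈ K ∧ g • v ∈ K

variable {X G}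

theorem kadj_symm {K : Finset V} {u v : V} (h : X.kadj G K u v) : X.kadj G K v u := by
  obtain ⟨h1, g, h2, h3⟩ := h
  exact ⟨X.adj_symm _ _ h1, g, h3, h2⟩

theorem kadj_mono {K L : Finset V} (hKL : K ⊆ L) {u v : V} (h : X.kadj G K u v) :
    X.kadj G L u v := by
  obtain ⟨h1, g, h2, h3⟩ := h
  exact ⟨h1, g, hKL h2, hKL h3⟩

theorem kadj_smul (hA : ∀ (g : G) u v, X.adj u v → X.adj (g • u) (g • v)) {K : Finset V} {u v : V}
    (g : G) (h : X.kadj G K u v) : X.kadj G K (g • u) (g • v) := by
  obtain ⟨h1, γ, h2, h3⟩ := h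
  refine ⟨hA _ _ _ h1, γ * g⁻¹, ?_, ?_⟩
  · simpa [mul_smul] using h2
  · simpa [mul_smul] using h3

theorem reach_mono {K L : Finset V} (hKL : K ⊆ L) {u v : V}
    (h : ReflTransGen (X.kadj G K) u v) : ReflTransGen (X.kadj G L) u v := by
  induction h with
  | refl => exact ReflTransGen.refl
  | tail _ h1 ih => exact ih.tail (kadj_mono hKL h1)

theorem reach_symm {K : Finset V} {u v : V} (h : ReflTransGen (X.kadj G K) u v) :
    ReflTransGen (X.kadj G K) v u := by
  induction h with
  | refl => exact ReflTransGen.refl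
  | tail _ h1 ih => exact ih.head (kadj_symm h1)

theorem reach_smul (hA : ∀ (g : G) u v, X.adj u v → X.adj (g • u) (g • v)) {K : Finset V}
    {u v : V} (g : G) (h : ReflTransGen (X.kadj G K) u v) :
    ReflTransGen (X.kadj G K) (g • u) (g • v) := by
  induction h with
  | refl => exact ReflTransGen.refl
  | tail _ h1 ih => exact ih.tail (kadj_smul hA g h1)

open Classical in
theorem exists_reach {u v : V} (h : ReflTransGen X.adj u v) :
    ∃ K : Finset V, ReflTransGen (X.kadj G K) u v := by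
  induction h with
  | refl => exact ⟨∅, ReflTransGen.refl⟩
  | @tail b c _ hbc ih =>
    obtain ⟨K, hK⟩ := ih
    refine ⟨insert b (insert c K), (reach_mono ?_ hK).tail ⟨hbc, 1, ?_, ?_⟩⟩
    · exact (Finset.subset_insert _ _).trans (Finset.subset_insert _ _)
    · simp
    · simp

open Classical in
/-- If `G` is finitely generated, the vertices `g • v₀` are joined inside the translates of a
finite set. -/
theorem exists_orbit_reach (hA : ∀ (g : G) u v, X.adj u v → X.adj (g • u) (g • v))
    (hconn : ∀ u v, ReflTransGen X.adj u v) (S : Finset G)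
    (hS : Subgroup.closure (S : Set G) = ⊤) (v₀ : V) :
    ∃ K : Finset V, v₀ ∈ K ∧ ∀ L : Finset V, K ⊆ L → ∀ g : G,
      ReflTransGen (X.kadj G L) v₀ (g • v₀) := by
  choose K hK using fun g : G => exists_reach (G := G) (hconn v₀ (g • v₀))
  refine ⟨insert v₀ (S.biUnion K), by simp, fun L hL g => ?_⟩
  have hg : g ∈ Subgroup.closure (S : Set G) := by rw [hS]; trivial
  induction hg using Subgroup.closure_induction with
  | mem x hx =>
    refine reach_mono ((Finset.subset_biUnion_of_mem K hx).trans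
      ((Finset.subset_insert _ _).trans hL)) (hK x)
  | one => rw [one_smul]
  | mul x y _ _ hx hy =>
    rw [mul_smul]
    exact hx.trans (reach_smul hA x hy)
  | inv x _ hx =>
    have := reach_symm (reach_smul hA x⁻¹ hx)
    rwa [inv_smul_smul] at this

theorem reach_mem {K : Finset V} {u v : V} (hu : ∃ g : G, g • u ∈ K)
    (h : ReflTransGen (X.kadj G K) u v) : ∃ g : G, g • v ∈ K := by
  induction h with
  | refl => exact hu
  | tail _ hbc _ =>
    obtain ⟨_, g, _, h2⟩ := hbc
    exact ⟨g, h2⟩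

end Cpx

section edges

variable {V G Q : Type} [Group G] [MulAction G V] [Group Q] (f : G →* Q)

/-- `Q ×_G (V × V)`. -/
def epSetoid (V : Type) [MulAction G V] : Setoid (Q × V × V) where
  r x y := ∃ g : G, y = (x.1 * (f g)⁻¹, g • x.2.1, g • x.2.2)
  iseqv := by
    refine ⟨fun x => ⟨1, by simp⟩, ?_, ?_⟩
    · rintro ⟨q, u, v⟩ y ⟨g, rfl⟩
      exact ⟨g⁻¹, by simp⟩
    · rintro ⟨q, u, v⟩ y z ⟨g, rfl⟩ ⟨g', rfl⟩
      exact ⟨g' * g, by simp [mul_smul, mul_assoc]⟩

/-- The set `Q ×_G (V × V)`. -/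
def EP (V : Type) [MulAction G V] : Type := Quotient (epSetoid f V)

/-- The class of a pair. -/
def ep (u v : V) : EP f V := Quotient.mk (epSetoid f V) (1, u, v)

instance : MulAction Q (EP f V) where
  smul q := Quotient.map (fun x => (q * x.1, x.2)) (by
    rintro x y ⟨g, rfl⟩
    exact ⟨g, by simp [mul_assoc]⟩)
  one_smul x := by
    induction x using Quotient.inductionOn with
    | h x =>
      change Quotient.mk (epSetoid f V) _ = _
      simp
  mul_smul a b x := by
    induction x using Quotient.inductionOn with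
    | h x =>
      change Quotient.mk (epSetoid f V) _ = Quotient.mk (epSetoid f V) _
      simp [mul_assoc]

theorem ep_smul (g : G) (u v : V) : ep f (g • u) (g • v) = f g • ep f u v := by
  change Quotient.mk (epSetoid f V) _ = Quotient.mk (epSetoid f V) _
  apply Quotient.sound
  exact ⟨g⁻¹, by simp⟩

theorem ep_eq {u v u' v' : V} (h : ep f u v = ep f u' v') :
    ∃ g : G, f g = 1 ∧ u' = g • u ∧ v' = g • v := by
  obtain ⟨g, hg⟩ := Quotient.exact h
  simp only [Prod.mk.injEq, one_mul] at hg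
  exact ⟨g, by rw [eq_comm, inv_eq_one] at hg; exact hg.1, hg.2.1, hg.2.2⟩

end edges

/-- An invariant orientation of the edges. -/
theorem exists_pos {V G : Type} [Group G] [MulAction G V] (X : Cpx V)
    (hni : ∀ (g : G) u v, X.adj u v → g • u = v → g • v = u → False) :
    ∃ pos : V → V → Prop, (∀ (g : G) u v, pos (g • u) (g • v) ↔ pos u v) ∧
      ∀ u v, X.adj u v → (pos u v ↔ ¬ pos v u) := by
  classical
  let _ : LinearOrder (MulAction.orbitRel.Quotient G (V × V)) :=
    linearOrderOfSTO WellOrderingRel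
  let q : V → V → MulAction.orbitRel.Quotient G (V × V) := fun u v => Quotient.mk'' (u, v)
  have hq : ∀ (g : G) u v, q (g • u) (g • v) = q u v := fun g u v =>
    Quotient.sound' ⟨g, rfl⟩
  refine ⟨fun u v => q u v < q v u, fun g u v => ?_, fun u v huv => ?_⟩
  · change q (g • u) (g • v) < q (g • v) (g • u) ↔ q u v < q v u
    rw [hq, hq]
  · have hne : q u v ≠ q v u := by
      intro h
      obtain ⟨g, hg⟩ := Quotient.exact' h
      change (g • v, g • u) = (u, v) at hg
      rw [Prod.mk.injEq] at hg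
      exact hni g v u (X.adj_symm _ _ huv) hg.1 hg.2
    change q u v < q v u ↔ ¬ q v u < q u v
    rw [not_lt]
    exact ⟨fun h => h.le, fun h => lt_of_le_of_ne h hne⟩

section main

variable {V G Q : Type} [Group G] [MulAction G V] [Group Q] (f : G →* Q) (X : Cpx V)
  (K : Finset V)

/-- Vertices in the same orbit of the kernel of `f`. -/
def nSetoid (V : Type) [MulAction G V] : Setoid V where
  r u v := ∃ g : G, f g = 1 ∧ g • u = v
  iseqv := by
    refine ⟨fun x => ⟨1, map_one f, one_smul _ _⟩, ?_, ?_⟩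
    · rintro u v ⟨g, hg, rfl⟩
      exact ⟨g⁻¹, by simp [hg], by simp⟩
    · rintro u v w ⟨g, hg, rfl⟩ ⟨g', hg', rfl⟩
      exact ⟨g' * g, by simp [hg, hg'], by simp [mul_smul]⟩

theorem exists_nn (v : V) :
    ∃ g : G, f g = 1 ∧ g • (Quotient.mk (nSetoid f V) v).out = v :=
  Quotient.exact (Quotient.out_eq (Quotient.mk (nSetoid f V) v))

/-- The coordinate in the orbit of the kernel. -/
noncomputable def nn (v : V) : G := (exists_nn f v).choose

theorem f_nn (v : V) : f (nn f v) = 1 := (exists_nn f v).choose_spec.1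

theorem nn_smul_out (v : V) : nn f v • (Quotient.mk (nSetoid f V) v).out = v :=
  (exists_nn f v).choose_spec.2

variable {f K} in
theorem nn_smul (hK : ∀ v ∈ K, ∀ g : G, g • v = v → f g = 1 → g = 1) {m : G} (hm : f m = 1)
    {v : V} (hv : ∃ g : G, g • v ∈ K) : nn f (m • v) = m * nn f v := by
  have h1 : (Quotient.mk (nSetoid f V) (m • v)) = Quotient.mk (nSetoid f V) v :=
    Quotient.sound ⟨m⁻¹, by simp [hm], by simp⟩
  have h2 := nn_smul_out f (m • v)
  rw [h1] at h2
  have h3 := nn_smul_out f v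
  set r := (Quotient.mk (nSetoid f V) v).out
  obtain ⟨g, hg⟩ := hv
  set x : G := (m * nn f v)⁻¹ * nn f (m • v) with hx
  have hxr : x • r = r := by
    rw [hx, mul_smul, h2, mul_inv_rev, mul_smul, inv_smul_smul, inv_smul_eq_iff, h3]
  have hfx : f x = 1 := by simp [hx, hm, f_nn]
  have h4 : (g * nn f v * x * (g * nn f v)⁻¹) • (g • v) = g • v := by
    have e1 : (g * nn f v)⁻¹ • (g • v) = r := by
      rw [inv_smul_eq_iff, mul_smul, h3]
    rw [mul_smul, e1, mul_smul, hxr, mul_smul, h3]
  have h5 := hK _ hg _ h4 (by simp [hfx])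
  have h6 : x = 1 := by
    have : x = (g * nn f v)⁻¹ * (g * nn f v * x * (g * nn f v)⁻¹) * (g * nn f v) := by group
    rw [this, h5]
    group
  rw [hx, inv_mul_eq_one] at h6
  exact h6.symm

open Classical in
/-- The map back from the free group. -/
noncomputable def dd : FreeGroup (EP f V) →* G := FreeGroup.lift fun p =>
  if h : ∃ e : V × V, X.kadj G K e.1 e.2 ∧ ep f e.1 e.2 = p then
    (nn f h.choose.1)⁻¹ * nn f h.choose.2
  else 1

variable {f K} in
theorem dd_of (hK : ∀ v ∈ K, ∀ g : G, g • v = v → f g = 1 → g = 1) {u v : V}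
    (h : X.kadj G K u v) :
    dd f X K (FreeGroup.of (ep f u v)) = (nn f u)⁻¹ * nn f v := by
  have hex : ∃ e : V × V, X.kadj G K e.1 e.2 ∧ ep f e.1 e.2 = ep f u v := ⟨(u, v), h, rfl⟩
  rw [dd, FreeGroup.lift_apply_of, dif_pos hex]
  obtain ⟨m, hm, hu, hv⟩ := ep_eq f hex.choose_spec.2.symm
  have hu' : ∃ g : G, g • u ∈ K := ⟨h.2.choose, h.2.choose_spec.1⟩
  have hv' : ∃ g : G, g • v ∈ K := ⟨h.2.choose, h.2.choose_spec.2⟩
  rw [hu, hv, nn_smul hK hm hu', nn_smul hK hm hv']
  group

open Classical in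
/-- The cocycle with values in the free group. -/
noncomputable def cc (pos : V → V → Prop) (u v : V) : FreeGroup (EP f V) :=
  if X.kadj G K u v then
    if pos u v then FreeGroup.of (ep f u v) else (FreeGroup.of (ep f v u))⁻¹
  else 1

theorem cc_cocycle {pos : V → V → Prop} (hpos : ∀ u v, X.adj u v → (pos u v ↔ ¬ pos v u)) (u v : V)
    (h : X.adj u v) : cc f X K pos u v * cc f X K pos v u = 1 := by
  by_cases hk : X.kadj G K u v
  · by_cases hp : pos u v
    · have hq := (hpos u v h).1 hp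
      simp [cc, hk, Cpx.kadj_symm hk, hp, hq]
    · have hq : pos v u := by
        by_contra hq
        exact hp ((hpos u v h).2 hq)
      simp [cc, hk, Cpx.kadj_symm hk, hp, hq]
  · have hk' : ¬ X.kadj G K v u := fun h' => hk (Cpx.kadj_symm h')
    simp [cc, hk, hk']

theorem cc_smul (hA : ∀ (g : G) u v, X.adj u v → X.adj (g • u) (g • v)) {pos : V → V → Prop}
    (hpos : ∀ (g : G) u v, pos (g • u) (g • v) ↔ pos u v) (g : G) (u v : V) :
    cc f X K pos (g • u) (g • v) = frAct Q (EP f V) (f g) (cc f X K pos u v) := by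
  have hk : X.kadj G K (g • u) (g • v) ↔ X.kadj G K u v := by
    refine ⟨fun h => ?_, Cpx.kadj_smul hA g⟩
    have := Cpx.kadj_smul hA g⁻¹ h
    rwa [inv_smul_smul, inv_smul_smul] at this
  unfold cc
  by_cases h1 : X.kadj G K u v
  · rw [if_pos h1, if_pos (hk.2 h1)]
    by_cases h2 : pos u v
    · rw [if_pos h2, if_pos ((hpos g u v).2 h2), frAct_of, ep_smul]
    · rw [if_neg h2, if_neg (fun h => h2 ((hpos g u v).1 h)), map_inv, frAct_of, ep_smul]
  · rw [if_neg h1, if_neg (fun h => h1 (hk.1 h)), map_one]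

variable {f K} in
theorem dd_cc (hK : ∀ v ∈ K, ∀ g : G, g • v = v → f g = 1 → g = 1) {pos : V → V → Prop} {u v : V}
    (h : X.kadj G K u v) : dd f X K (cc f X K pos u v) = (nn f u)⁻¹ * nn f v := by
  unfold cc
  rw [if_pos h]
  split_ifs
  · exact dd_of X hK h
  · rw [map_inv, dd_of X hK (Cpx.kadj_symm h)]
    group

end main

/-- A finitely generated group which acts without inversions on a tree and has a homomorphism to a
group of the class which is injective on the vertex stabilizers of a large finite set is in the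
class. -/
theorem tree_fg {C : ∀ (G : Type) [Group G], Prop} (hC : ExtClass C) {V G : Type} [Group G]
    [MulAction G V] (X : Cpx V) (hX : X.SimplyConn) (hT : ∀ u v w, ¬ X.tri u v w)
    (hA : ∀ (g : G) u v, X.adj u v → X.adj (g • u) (g • v))
    (hni : ∀ (g : G) u v, X.adj u v → g • u = v → g • v = u → False)
    (S : Finset G) (hS : Subgroup.closure (S : Set G) = ⊤)
    (hQ : ∀ K : Finset V, ∃ (Q : Type) (_ : Group Q) (f : G →* Q), C Q ∧
      ∀ v ∈ K, ∀ g : G, g • v = v → f g = 1 → g = 1) : C G := by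
  classical
  obtain ⟨⟨v₀⟩, hconn, hsc⟩ := hX
  obtain ⟨K, hv₀, hK⟩ := Cpx.exists_orbit_reach hA hconn S hS v₀
  replace hK := hK K subset_rfl
  obtain ⟨Q, _, f, hCQ, hf⟩ := hQ K
  obtain ⟨pos, hpos1, hpos2⟩ := exists_pos X hni
  obtain ⟨g₀, hg₀⟩ := hsc _ (cc f X K pos) ⟨cc_cocycle f X K hpos2, fun u v w h => (hT u v w h).elim⟩
  obtain ⟨h, hh⟩ : ∃ h : V → FreeGroup (EP f V), ∀ v, h v = (g₀ v₀)⁻¹ * g₀ v :=
    ⟨_, fun _ => rfl⟩
  have h1 : h v₀ = 1 := by simp [hh]
  have h2 : ∀ u v, X.adj u v → h v = h u * cc f X K pos u v := by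
    intro u v huv
    rw [hg₀ u v huv, hh, hh]
    group
  have h3 : ∀ (γ : G) (v : V), Relation.ReflTransGen (X.kadj G K) v₀ v →
      h (γ • v) = h (γ • v₀) * frAct Q (EP f V) (f γ) (h v) := by
    intro γ v hv
    induction hv with
    | refl => rw [h1, map_one, mul_one]
    | @tail b c _ hbc ih =>
      rw [h2 _ _ (hA γ _ _ hbc.1), ih, h2 b c hbc.1, map_mul, cc_smul f X K hA hpos1, mul_assoc]
  have h4 : ∀ v : V, Relation.ReflTransGen (X.kadj G K) v₀ v →
      dd f X K (h v) = (nn f v₀)⁻¹ * nn f v := by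
    intro v hv
    induction hv with
    | refl => rw [h1, map_one, inv_mul_cancel]
    | @tail b c _ hbc ih =>
      rw [h2 b c hbc.1, map_mul, ih, dd_cc X hf hbc]
      group
  let Θ : G →* FreeGroup (EP f V) ⋊[frAct Q (EP f V)] Q :=
    { toFun := fun γ => ⟨h (γ • v₀), f γ⟩
      map_one' := by
        ext
        · simp [h1]
        · simp
      map_mul' := fun a b => by
        ext
        · change h ((a * b) • v₀) = _
          rw [mul_smul, h3 a _ (hK b)]
          rfl
        · simp }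
  refine hC.inj Θ ?_ (hC.freeExt Q (EP f V) hCQ)
  rw [injective_iff_map_eq_one]
  intro γ hγ
  have e1 : h (γ • v₀) = 1 := congrArg SemidirectProduct.left hγ
  have e2 : f γ = 1 := congrArg SemidirectProduct.right hγ
  have e3 := h4 _ (hK γ)
  rw [e1, map_one, nn_smul hf e2 ⟨1, by simpa using hv₀⟩] at e3
  have e4 : γ = nn f v₀ * ((nn f v₀)⁻¹ * (γ * nn f v₀)) * (nn f v₀)⁻¹ := by group
  rw [e4, ← e3]
  group

/-- Groups acting on trees without inversions. -/
theorem tree {C : ∀ (G : Type) [Group G], Prop} (hC : ExtClass C) {V G : Type} [Group G]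
    [MulAction G V] (X : Cpx V) (hX : X.SimplyConn) (hT : ∀ u v w, ¬ X.tri u v w)
    (hA : ∀ (g : G) u v, X.adj u v → X.adj (g • u) (g • v))
    (hni : ∀ (g : G) u v, X.adj u v → g • u = v → g • v = u → False)
    (hQ : ∀ K : Finset V, ∃ (Q : Type) (_ : Group Q) (f : G →* Q), C Q ∧
      ∀ v ∈ K, ∀ g : G, g • v = v → f g = 1 → g = 1) : C G := by
  classical
  refine hC.ofClosure fun s => ?_
  refine tree_fg hC (G := Subgroup.closure (s : Set G)) X hX hT (fun g u v h => hA g u v h)
    (fun g u v h h1 h2 => hni g u v h h1 h2)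
    (s.attach.image fun x => ⟨x.1, Subgroup.subset_closure x.2⟩) ?_ fun K => ?_
  · rw [eq_top_iff]
    rintro ⟨x, hx⟩ -
    induction hx using Subgroup.closure_induction with
    | mem y hy =>
      refine Subgroup.subset_closure ?_
      rw [Finset.coe_image]
      exact ⟨⟨y, hy⟩, by simp, rfl⟩
    | one => exact one_mem _
    | mul y z hy hz ihy ihz => exact mul_mem ihy ihz
    | inv y hy ih => exact inv_mem ih
  · obtain ⟨Q, _, f, hCQ, hf⟩ := hQ K
    refine ⟨Q, _, f.comp (Subgroup.closure (s : Set G)).subtype, hCQ, fun v hv g h1 h2 => ?_⟩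
    exact Subtype.ext (hf v hv g h1 h2)

end Pool.Agent.Helper3.FJ
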