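import Pool.Agent.Helper3.FJ.Lam
import Pool.Agent.Helper3.FJ.Tree

/-!
# Groups acting on lattices
-/

set_option autoImplicit false

namespace Pool.Agent.Helper3.FJ

open Relation Pool.Agent.Helper29.BA Pool.Agent.Helper29.PA

/-- `G` acts on the lattices. -/
class LatAct (G : Type) [Group G] {Λ : Type} [SemilatticeSup Λ] [MulAction G Λ]
    (σ : Λ ≃o Λ) : Prop where
  mono : ∀ (g : G) (L M : Λ), L ≤ M → g • L ≤ g • M
  comm : ∀ (g : G) (L : Λ), g • σ L = σ (g • L)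

namespace LatSys

variable {Λ : Type} [SemilatticeSup Λ] {σ : Λ ≃o Λ} {G : Type} [Group G] [MulAction G Λ]
  [ha : LatAct G σ]

include ha in
theorem smul_pow (g : G) (k : ℕ) (L : Λ) : g • (σ ^ k) L = (σ ^ k) (g • L) := by
  induction k with
  | zero => rfl
  | succ k ih => rw [pow_succ', RelIso.mul_apply, ha.comm, ih, RelIso.mul_apply]

include ha in
theorem smul_zpow (g : G) (k : ℤ) (L : Λ) : g • (σ ^ k) L = (σ ^ k) (g • L) := by
  obtain ⟨n, rfl | rfl⟩ := k.eq_nat_or_neg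
  · simp only [zpow_natCast]
    exact smul_pow g n L
  · have h1 := smul_pow (σ := σ) g n ((σ ^ (-(n : ℤ))) L)
    rw [← zpow_natCast, ← RelIso.mul_apply, ← zpow_add, add_neg_cancel, zpow_zero] at h1
    change g • L = _ at h1
    rw [h1, ← RelIso.mul_apply, ← zpow_add, neg_add_cancel, zpow_zero]
    rfl

include ha in
theorem smul_lt (g : G) {L M : Λ} (hL : L < M) : g • L < g • M := by
  refine lt_of_le_of_ne (ha.mono g _ _ hL.le) fun he => ?_
  exact hL.ne (MulAction.injective g he)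

/-- The action on the homothety classes. -/
instance : MulAction G (Vx σ) where
  smul g := Quotient.map (sa := setoid σ) (sb := setoid σ) (fun L => g • L) (by
    rintro L M ⟨k, rfl⟩
    exact ⟨k, (smul_zpow g k L).symm⟩)
  one_smul v := by
    obtain ⟨L, rfl⟩ := cls_surj v
    change cls σ ((1 : G) • L) = _
    rw [one_smul]
  mul_smul a b v := by
    obtain ⟨L, rfl⟩ := cls_surj v
    change cls σ ((a * b) • L) = cls σ (a • b • L)
    rw [mul_smul]

theorem smul_cls (g : G) (L : Λ) : g • cls σ L = cls σ (g • L) := rfl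

theorem smul_A (g : G) {u v : Vx σ} (h : A σ u v) : A σ (g • u) (g • v) := by
  obtain ⟨L, M, rfl, rfl, h1, h2⟩ := h
  refine ⟨g • L, g • M, rfl, rfl, smul_lt (σ := σ) g h1, ?_⟩
  rw [← ha.comm]
  exact smul_lt (σ := σ) g h2

theorem smul_T (g : G) {u v w : Vx σ} (h : T σ u v w) : T σ (g • u) (g • v) (g • w) := by
  obtain ⟨L, M, N, rfl, rfl, rfl, h1, h2, h3⟩ := h
  refine ⟨g • L, g • M, g • N, rfl, rfl, rfl, smul_lt (σ := σ) g h1, smul_lt (σ := σ) g h2, ?_⟩
  rw [← ha.comm]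
  exact smul_lt (σ := σ) g h3

theorem acts (h : LatSys σ) : (h.cpx).Acts G := by
  refine ⟨fun g u v => smul_A g, fun g u v w huv => ?_⟩
  rcases huv with h1 | h1
  · exact Or.inl (smul_T g h1)
  · exact Or.inr (smul_T g h1)

/-- If no element multiplies a lattice by a proper power, the stabilizers of the classes are the
stabilizers of the lattices. -/
theorem smul_eq_of_cls (hF : ∀ (g : G) (L : Λ) (k : ℤ), g • L = (σ ^ k) L → k = 0) {g : G} {L : Λ}
    (hg : g • cls σ L = cls σ L) : g • L = L := by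
  rw [smul_cls, eq_comm, cls_eq] at hg
  obtain ⟨k, hk⟩ := hg
  have := hF g L k hk.symm
  rw [this, zpow_zero] at hk
  exact hk.symm

theorem no_inv (h : LatSys σ) (hF : ∀ (g : G) (L : Λ) (k : ℤ), g • L = (σ ^ k) L → k = 0)
    (g : G) (u v : Vx σ) (huv : (h.cpx).adj u v) (h1 : g • u = v) (h2 : g • v = u) : False := by
  obtain ⟨L, M, rfl, rfl, hML, hLM⟩ := huv
  have h4 : (g * g) • L = L := by
    refine smul_eq_of_cls (σ := σ) hF ?_
    rw [mul_smul, h1, h2]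
  rw [smul_cls, eq_comm, cls_eq] at h1
  obtain ⟨a, ha'⟩ := h1
  -- `σ ^ a M = g L`
  have h5 : g • L = (σ ^ a) M := ha'.symm
  have h6 : g • M = (σ ^ (-a)) L := by
    have e1 : g • ((σ ^ a) M) = L := by rw [← h5, ← mul_smul, h4]
    rw [smul_zpow] at e1
    rw [← e1, ← RelIso.mul_apply, ← zpow_add, neg_add_cancel, zpow_zero]
    rfl
  have h7 : (σ ^ (-a)) L < (σ ^ a) M := by
    rw [← h5, ← h6]
    exact smul_lt (σ := σ) g hML
  have h8 : (σ ^ (a + 1)) M < (σ ^ (-a)) L := by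
    have := smul_lt (σ := σ) g hLM
    rw [ha.comm, h5, h6, ← RelIso.mul_apply, ← zpow_one_add, add_comm] at this
    exact this
  rcases le_or_gt 0 a with hc | hc
  · obtain ⟨n, rfl⟩ : ∃ n : ℕ, a = n := ⟨a.toNat, by omega⟩
    have e1 : (σ ^ (n : ℤ)) ((σ ^ (-(n : ℤ))) L) < (σ ^ (n : ℤ)) ((σ ^ (n : ℤ)) M) :=
      (σ ^ (n : ℤ)).lt_iff_lt.2 h7
    rw [← RelIso.mul_apply, ← zpow_add, add_neg_cancel, zpow_zero, zpow_natCast] at e1
    have e2 : L < M := e1.trans_le ((h.pow_le n _).trans (h.pow_le n _))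
    exact lt_asymm e2 hML
  · obtain ⟨n, rfl⟩ : ∃ n : ℕ, a = -(n + 1 : ℕ) := ⟨(-a - 1).toNat, by omega⟩
    have e1 : (σ ^ (-(n + 1 : ℕ) + 1 : ℤ)) M < (σ ^ (-(-(n + 1 : ℕ)) : ℤ)) L := h8
    have e3 := (σ ^ (n : ℤ)).lt_iff_lt.2 e1
    rw [← RelIso.mul_apply, ← zpow_add, ← RelIso.mul_apply, ← zpow_add] at e3
    have e4 : (n : ℤ) + (-(n + 1 : ℕ) + 1 : ℤ) = 0 := by push_cast; ring
    have e5 : (n : ℤ) + (-(-(n + 1 : ℕ)) : ℤ) = ((n + n + 1 : ℕ) : ℤ) := by push_cast; ring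
    rw [e4, e5, zpow_zero, zpow_natCast] at e3
    have e6 : M < σ L := lt_of_lt_of_le e3 (h.pow_succ_le (n + n) L)
    exact lt_asymm e6 hLM

/-- Groups acting on systems of lattices of rank two. -/
theorem tree {C : ∀ (G : Type) [Group G], Prop} (hC : ExtClass C) (h : LatSys σ)
    (h2 : ∀ L M N : Λ, M < L → N < M → σ L < N → False)
    (hF : ∀ (g : G) (L : Λ) (k : ℤ), g • L = (σ ^ k) L → k = 0)
    (hQ : ∀ K : Finset Λ, ∃ (Q : Type) (_ : Group Q) (f : G →* Q), C Q ∧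
      ∀ L ∈ K, ∀ g : G, g • L = L → f g = 1 → g = 1) : C G := by
  classical
  refine FJ.tree hC h.cpx h.simplyConn (h.no_tri h2) (h.acts (G := G)).1 (h.no_inv hF)
    fun K => ?_
  obtain ⟨Q, _, f, hCQ, hf⟩ := hQ (K.image rep)
  refine ⟨Q, _, f, hCQ, fun v hv g hg => ?_⟩
  refine hf (rep v) (Finset.mem_image_of_mem _ hv) g (smul_eq_of_cls hF ?_)
  rw [cls_rep, hg]

end LatSys

end Pool.Agent.Helper3.FJ
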