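import Pool.Agent.Helper3.FJ.LamAct
import Pool.Agent.Helper3.FJ.Colim

/-!
# Lattices over discretely valued fields
-/

set_option autoImplicit false

namespace Pool.Agent.Helper3.FJ

open WithZero

open scoped Matrix MatrixGroups

variable {K : Type} [Field K] (v : Valuation K ℤᵐ⁰) (n : ℕ)

/-- Lattices: bounded open submodules over the valuation ring. -/
structure IsLatt (L : AddSubgroup (Fin n → K)) : Prop where
  smul : ∀ c : K, v c ≤ 1 → ∀ x ∈ L, c • x ∈ L
  bdd : ∃ m : ℤ, ∀ x ∈ L, ∀ i, v (x i) ≤ exp m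
  big : ∃ m : ℤ, ∀ x : Fin n → K, (∀ i, v (x i) ≤ exp m) → x ∈ L

variable {v n}

theorem IsLatt.sup {L M : AddSubgroup (Fin n → K)} (hL : IsLatt v n L) (hM : IsLatt v n M) :
    IsLatt v n (L ⊔ M) := by
  refine ⟨fun c hc x hx => ?_, ?_, ?_⟩
  · obtain ⟨y, hy, z, hz, rfl⟩ := AddSubgroup.mem_sup.1 hx
    rw [smul_add]
    exact add_mem (AddSubgroup.mem_sup_left (hL.smul c hc y hy))
      (AddSubgroup.mem_sup_right (hM.smul c hc z hz))
  · obtain ⟨a, ha⟩ := hL.bdd
    obtain ⟨b, hb⟩ := hM.bdd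
    refine ⟨max a b, fun x hx i => ?_⟩
    obtain ⟨y, hy, z, hz, rfl⟩ := AddSubgroup.mem_sup.1 hx
    refine (v.map_add _ _).trans (max_le ?_ ?_)
    · exact (ha y hy i).trans (exp_le_exp.2 (le_max_left _ _))
    · exact (hb z hz i).trans (exp_le_exp.2 (le_max_right _ _))
  · obtain ⟨a, ha⟩ := hL.big
    exact ⟨a, fun x hx => AddSubgroup.mem_sup_left (ha x hx)⟩

theorem exists_bd (A : Matrix (Fin n) (Fin n) K) : ∃ b : ℤ, ∀ i j, v (A i j) ≤ exp b := by
  refine ⟨∑ i, ∑ j, |log (v (A i j))|, fun i j => ?_⟩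
  refine le_exp_log.trans (exp_le_exp.2 ((le_abs_self _).trans ?_))
  refine (Finset.single_le_sum (f := fun j => |log (v (A i j))|) (fun _ _ => abs_nonneg _)
    (Finset.mem_univ j)).trans ?_
  exact Finset.single_le_sum (f := fun i => ∑ j, |log (v (A i j))|)
    (fun _ _ => Finset.sum_nonneg fun _ _ => abs_nonneg _) (Finset.mem_univ i)

theorem mulVec_bd {A : Matrix (Fin n) (Fin n) K} {b m : ℤ} (hA : ∀ i j, v (A i j) ≤ exp b)
    {x : Fin n → K} (hx : ∀ i, v (x i) ≤ exp m) (i : Fin n) : v ((A *ᵥ x) i) ≤ exp (b + m) := by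
  rw [Matrix.mulVec, dotProduct]
  refine v.map_sum_le fun j _ => ?_
  rw [map_mul, exp_add]
  exact mul_le_mul' (hA i j) (hx j)

theorem IsLatt.map {L : AddSubgroup (Fin n → K)} (hL : IsLatt v n L) (g : GL (Fin n) K) :
    IsLatt v n (L.map (g.1.mulVecLin.toAddMonoidHom)) := by
  refine ⟨fun c hc x hx => ?_, ?_, ?_⟩
  · obtain ⟨y, hy, rfl⟩ := hx
    refine ⟨c • y, hL.smul c hc y hy, ?_⟩
    exact map_smul g.1.mulVecLin c y
  · obtain ⟨a, ha⟩ := hL.bdd
    obtain ⟨b, hb⟩ := exists_bd (v := v) g.1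
    refine ⟨b + a, fun x hx i => ?_⟩
    obtain ⟨y, hy, rfl⟩ := hx
    exact mulVec_bd hb (ha y hy) i
  · obtain ⟨a, ha⟩ := hL.big
    obtain ⟨b, hb⟩ := exists_bd (v := v) (g⁻¹).1
    refine ⟨a - b, fun x hx => ?_⟩
    refine ⟨(g⁻¹).1 *ᵥ x, ha _ fun i => ?_, ?_⟩
    · have := mulVec_bd hb hx i
      rwa [add_sub_cancel] at this
    · change g.1 *ᵥ ((g⁻¹).1 *ᵥ x) = x
      rw [Matrix.mulVec_mulVec, ← Units.val_mul, mul_inv_cancel, Units.val_one, Matrix.one_mulVec]

variable (v n)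

/-- The lattices. -/
def Latt : Type := {L : AddSubgroup (Fin n → K) // IsLatt v n L}

noncomputable instance : SemilatticeSup (Latt v n) :=
  Subtype.semilatticeSup (P := IsLatt v n) fun _ _ => IsLatt.sup

variable {v n}

theorem Latt.le_def {L M : Latt v n} : L ≤ M ↔ ∀ x, x ∈ L.1 → x ∈ M.1 := Iff.rfl

instance : MulAction (GL (Fin n) K) (Latt v n) where
  smul g L := ⟨L.1.map (g.1.mulVecLin.toAddMonoidHom), L.2.map g⟩
  one_smul L := by
    refine Subtype.ext ?_
    change L.1.map _ = L.1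
    ext x
    constructor
    · rintro ⟨y, hy, rfl⟩
      change (1 : GL (Fin n) K).1 *ᵥ y ∈ L.1
      rwa [Units.val_one, Matrix.one_mulVec]
    · intro hx
      refine ⟨x, hx, ?_⟩
      change (1 : GL (Fin n) K).1 *ᵥ x = x
      rw [Units.val_one, Matrix.one_mulVec]
  mul_smul g h L := by
    refine Subtype.ext ?_
    change L.1.map _ = (L.1.map _).map _
    rw [AddSubgroup.map_map]
    congr 1
    refine AddMonoidHom.ext fun x => ?_
    change (g * h).1 *ᵥ x = g.1 *ᵥ (h.1 *ᵥ x)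
    rw [Matrix.mulVec_mulVec, Units.val_mul]

theorem Latt.mem_smul {g : GL (Fin n) K} {L : Latt v n} {x : Fin n → K} :
    x ∈ (g • L).1 ↔ (g⁻¹).1 *ᵥ x ∈ L.1 := by
  constructor
  · rintro ⟨y, hy, rfl⟩
    change (g⁻¹).1 *ᵥ (g.1 *ᵥ y) ∈ L.1
    rwa [Matrix.mulVec_mulVec, ← Units.val_mul, inv_mul_cancel, Units.val_one, Matrix.one_mulVec]
  · intro hx
    refine ⟨_, hx, ?_⟩
    change g.1 *ᵥ ((g⁻¹).1 *ᵥ x) = x
    rw [Matrix.mulVec_mulVec, ← Units.val_mul, mul_inv_cancel, Units.val_one, Matrix.one_mulVec]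

theorem Latt.mulVec_mem {g : GL (Fin n) K} {L : Latt v n} {x : Fin n → K} (hx : x ∈ L.1) :
    g.1 *ᵥ x ∈ (g • L).1 := ⟨x, hx, rfl⟩

theorem Latt.smul_mono (g : GL (Fin n) K) {L M : Latt v n} (h : L ≤ M) : g • L ≤ g • M := by
  rw [Latt.le_def] at h ⊢
  intro x hx
  rw [Latt.mem_smul] at hx ⊢
  exact h _ hx

/-- The action by order isomorphisms. -/
def oi : GL (Fin n) K →* (Latt v n ≃o Latt v n) where
  toFun g :=
    { toFun := fun L => g • L
      invFun := fun L => g⁻¹ • L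
      left_inv := fun L => inv_smul_smul g L
      right_inv := fun L => smul_inv_smul g L
      map_rel_iff' := by
        intro L M
        constructor
        · intro h
          have := Latt.smul_mono g⁻¹ h
          change g⁻¹ • g • L ≤ g⁻¹ • g • M at this
          rwa [inv_smul_smul, inv_smul_smul] at this
        · exact Latt.smul_mono g }
  map_one' := by
    refine RelIso.ext fun L => ?_
    change (1 : GL (Fin n) K) • L = L
    exact one_smul _ L
  map_mul' g h := by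
    exact RelIso.ext fun L => mul_smul g h L

theorem oi_apply (g : GL (Fin n) K) (L : Latt v n) : oi g L = g • L := rfl

variable (n) in
/-- The homotheties. -/
def sc : Kˣ →* GL (Fin n) K := Units.map (Matrix.scalar (Fin n)).toMonoidHom

theorem sc_mulVec (c : Kˣ) (x : Fin n → K) : (sc n c).1 *ᵥ x = c.1 • x := by
  change (Matrix.scalar (Fin n) c.1) *ᵥ x = _
  rw [Matrix.scalar_apply, ← Matrix.smul_one_eq_diagonal, Matrix.smul_mulVec, Matrix.one_mulVec]

theorem sc_comm (c : Kˣ) (g : GL (Fin n) K) : g * sc n c = sc n c * g := by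
  refine Units.ext ?_
  exact ((Matrix.scalar_commute c.1 (fun r => Commute.all _ _) g.1).eq).symm

theorem mem_sc {c : Kˣ} {L : Latt v n} {x : Fin n → K} :
    x ∈ (sc n c • L).1 ↔ c⁻¹.1 • x ∈ L.1 := by
  rw [Latt.mem_smul, ← map_inv, sc_mulVec]

variable (v n) in
/-- Multiplication by the uniformizer. -/
def sg (c : Kˣ) : Latt v n ≃o Latt v n := oi (sc n c)

theorem sg_zpow (c : Kˣ) (k : ℤ) (L : Latt v n) : (sg v n c ^ k) L = sc n (c ^ k) • L := by
  rw [sg, ← map_zpow, ← map_zpow]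
  rfl

theorem sg_pow (c : Kˣ) (k : ℕ) (L : Latt v n) : (sg v n c ^ k) L = sc n (c ^ k) • L := by
  rw [sg, ← map_pow, ← map_pow]
  rfl

instance (c : Kˣ) (Γ : Subgroup (GL (Fin n) K)) : LatAct Γ (sg v n c) where
  mono g L M h := Latt.smul_mono g.1 h
  comm g L := by
    change g.1 • (sc n c • L) = sc n c • (g.1 • L)
    rw [← mul_smul, ← mul_smul, sc_comm]

variable {π : Kˣ} (hπ : v π = exp (-1))

include hπ

theorem v_zpow (k : ℤ) : v ((π ^ k : Kˣ) : K) = exp (-k) := by
  rw [Units.val_zpow_eq_zpow_val, map_zpow₀, hπ, ← exp_zsmul]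
  congr 1
  simp

theorem sg_le (L : Latt v n) : sg v n π L ≤ L := by
  rw [Latt.le_def]
  intro x hx
  have h1 : π⁻¹.1 • x ∈ L.1 := mem_sc.1 hx
  have h2 := L.2.smul π.1 (by rw [hπ, ← exp_zero, exp_le_exp]; norm_num) _ h1
  rwa [smul_smul, Units.mul_inv, one_smul] at h2

theorem latSys [NeZero n] : LatSys (sg v n π) := by
  refine ⟨⟨⟨⟨⟨⟨{x | ∀ i, v (x i) ≤ 1}, ?_⟩, ?_⟩, ?_⟩, ?_, ?_, ?_⟩⟩, ?_, ?_⟩
  · intro x y hx hy i
    exact (v.map_add _ _).trans (max_le (hx i) (hy i))
  · intro i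
    simp
  · intro x hx i
    rw [Pi.neg_apply, Valuation.map_neg]
    exact hx i
  · intro c hc x hx i
    rw [Pi.smul_apply, smul_eq_mul, map_mul]
    exact mul_le_one' hc (hx i)
  · exact ⟨0, fun x hx i => by simpa using hx i⟩
  · exact ⟨0, fun x hx i => by simpa using hx i⟩
  · intro L
    refine lt_of_le_of_ne (sg_le hπ L) fun he => ?_
    obtain ⟨a, ha⟩ := L.2.bdd
    obtain ⟨b, hb⟩ := L.2.big
    have h1 : (fun _ => ((π ^ (-b) : Kˣ) : K)) ∈ L.1 := hb _ fun i => by
      rw [v_zpow hπ, neg_neg]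
    have h2 : ∀ k : ℕ, (fun _ => ((π ^ (-b - k) : Kˣ) : K)) ∈ L.1 := by
      intro k
      induction k with
      | zero => simpa using h1
      | succ k ih =>
        have h3 : (fun _ => ((π ^ (-b - k) : Kˣ) : K)) ∈ (sg v n π L).1 := by
          rw [he]
          exact ih
        have h4 := mem_sc.1 h3
        convert h4 using 1
        funext i
        rw [Pi.smul_apply, smul_eq_mul, ← Units.val_mul, ← zpow_neg_one, ← zpow_add]
        congr 2
        push_cast
        ring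
    have h5 := ha _ (h2 (a - b + 1).toNat) 0
    rw [v_zpow hπ, exp_le_exp] at h5
    omega
  · intro L M
    obtain ⟨a, ha⟩ := L.2.bdd
    obtain ⟨b, hb⟩ := M.2.big
    refine ⟨(a - b).toNat, ?_⟩
    rw [sg_pow, Latt.le_def]
    intro x hx
    rw [mem_sc] at hx
    refine hb x fun i => ?_
    have h1 := ha _ hx i
    rw [Pi.smul_apply, smul_eq_mul, map_mul, ← zpow_natCast, ← zpow_neg, v_zpow hπ] at h1
    have h2 : v (x i) = exp (-(((a - b).toNat : ℤ))) * (exp (- -(((a - b).toNat : ℤ))) * v (x i)) := by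
      rw [← mul_assoc, ← exp_add, neg_neg, neg_add_cancel, exp_zero, one_mul]
    rw [h2]
    refine (mul_le_mul_right h1 _).trans ?_
    rw [← exp_add, exp_le_exp]
    omega

/-- The elements which map a lattice into itself are bounded. -/
theorem stab_bound (L : Latt v n) :
    ∃ M : ℤ, ∀ g : GL (Fin n) K, g • L ≤ L → ∀ i j, v (g.1 i j) ≤ exp M := by
  classical
  obtain ⟨a, ha⟩ := L.2.bdd
  obtain ⟨b, hb⟩ := L.2.big
  refine ⟨a - b, fun g hg i j => ?_⟩
  have h1 : (Pi.single j ((π ^ (-b) : Kˣ) : K) : Fin n → K) ∈ L.1 := hb _ fun i => by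
    by_cases hij : i = j
    · subst hij
      rw [Pi.single_eq_same, v_zpow hπ, neg_neg]
    · rw [Pi.single_eq_of_ne hij, map_zero]
      exact zero_le
  have h2 := ha _ (hg (Latt.mulVec_mem (g := g) h1)) i
  rw [Matrix.mulVec_single, Pi.smul_apply, Matrix.col_apply, op_smul_eq_mul, map_mul,
    v_zpow hπ, neg_neg] at h2
  rw [exp_sub, le_div_iff₀ exp_pos]
  exact h2

omit hπ in
theorem det_bd {A : Matrix (Fin n) (Fin n) K} {b : ℤ} (hA : ∀ i j, v (A i j) ≤ exp b) :
    v A.det ≤ exp (n * b) := by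
  rw [Matrix.det_apply]
  refine v.map_sum_le fun σ _ => ?_
  have h1 : v (∏ i, A (σ i) i) ≤ exp (n * b) := by
    rw [map_prod]
    refine (Finset.prod_le_prod' fun i _ => hA (σ i) i).trans ?_
    rw [Finset.prod_const, Finset.card_univ, Fintype.card_fin, ← exp_nsmul, nsmul_eq_mul]
  rcases Int.units_eq_one_or (Equiv.Perm.sign σ) with h | h
  · rwa [h, one_smul]
  · rwa [h, Units.neg_smul, one_smul, Valuation.map_neg]

theorem smul_eq_zpow [NeZero n] {g : GL (Fin n) K} (hg : v g.1.det = 1) {L : Latt v n} {k : ℤ}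
    (h : g • L = (sg v n π ^ k) L) : k = 0 := by
  obtain ⟨M, hM⟩ := stab_bound hπ L
  set x : GL (Fin n) K := sc n (π ^ (-k)) * g with hx
  have h1 : x • L = L := by
    rw [hx, mul_smul, h, sg_zpow, ← mul_smul, ← map_mul, ← zpow_add, neg_add_cancel, zpow_zero,
      map_one, one_smul]
  have h2 : ∀ j : ℤ, x ^ j • L = L := fun j => by
    have : x ∈ MulAction.stabilizer (GL (Fin n) K) L := h1
    exact zpow_mem this j
  have h3 : v x.1.det = exp (n * k) := by
    rw [hx, Units.val_mul, Matrix.det_mul, map_mul, hg, mul_one]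
    change v (Matrix.det (Matrix.scalar (Fin n) ((π ^ (-k) : Kˣ) : K))) = _
    rw [Matrix.scalar_apply, Matrix.det_diagonal, Finset.prod_const, Finset.card_univ,
      Fintype.card_fin, map_pow, v_zpow hπ, ← exp_nsmul, neg_neg, nsmul_eq_mul]
  have h4 : ∀ j : ℤ, v (x ^ j).1.det = exp (n * k * j) := by
    intro j
    have : (x ^ j).1.det = x.1.det ^ j := by
      have e1 : ∀ y : GL (Fin n) K, y.1.det = (Matrix.GeneralLinearGroup.det y).1 := fun _ => rfl
      rw [e1, e1, map_zpow, Units.val_zpow_eq_zpow_val]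
    rw [this, map_zpow₀, h3, ← exp_zsmul]
    congr 1
    rw [smul_eq_mul, mul_comm]
  by_contra hk
  have h5 := det_bd (hM (x ^ (k * (|n * M| + 1))) (h2 _).le)
  rw [h4, exp_le_exp] at h5
  have hn : (1 : ℤ) ≤ n := by
    have := NeZero.ne n
    omega
  have h6 : (1 : ℤ) ≤ k * k := by
    have := mul_self_pos.2 hk
    omega
  have h7 : n * M ≤ |n * M| := le_abs_self _
  have h8 : (0 : ℤ) ≤ |n * M| := abs_nonneg _
  have h9 : (1 : ℤ) ≤ n * (k * k) := by nlinarith
  nlinarith

/-- Chains between `π L` and `L` have at most `n` steps. -/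
theorem no_chain (L : Fin (n + 2) → Latt v n) (hL : ∀ i : Fin (n + 1), L i.succ < L i.castSucc)
    (hσ : sg v n π (L 0) ≤ L (Fin.last _)) : False := by
  classical
  have hanti : Antitone L := Fin.antitone_iff_succ_le.2 fun i => (hL i).le
  have hex : ∀ i : Fin (n + 1), ∃ x, x ∈ (L i.castSucc).1 ∧ x ∉ (L i.succ).1 := by
    intro i
    by_contra hcon
    push Not at hcon
    exact (hL i).not_ge (Latt.le_def.2 hcon)
  choose x hx1 hx2 using hex
  have hdep : ¬ LinearIndependent K x := by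
    intro hli
    have := hli.fintype_card_le_finrank
    rw [Fintype.card_fin, Module.finrank_fin_fun] at this
    omega
  rw [Fintype.not_linearIndependent_iff] at hdep
  obtain ⟨c, hc, i0, hi0⟩ := hdep
  obtain ⟨j0, hj0⟩ := Finite.exists_max fun i => v (c i)
  have hcj0 : v (c j0) ≠ 0 := by
    intro h0
    have := hj0 i0
    rw [h0, le_zero_iff, map_eq_zero] at this
    exact hi0 this
  have hcj0' : c j0 ≠ 0 := fun h => hcj0 (by rw [h, map_zero])
  -- the normalized relation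
  set d : Fin (n + 1) → K := fun i => (c j0)⁻¹ * c i with hd
  have hd1 : ∀ i, v (d i) ≤ 1 := fun i => by
    rw [hd]
    change v ((c j0)⁻¹ * c i) ≤ 1
    rw [map_mul, map_inv₀]
    calc (v (c j0))⁻¹ * v (c i) ≤ (v (c j0))⁻¹ * v (c j0) := mul_le_mul_right (hj0 i) _
      _ = 1 := inv_mul_cancel₀ hcj0
  have hd2 : v (d j0) = 1 := by
    change v ((c j0)⁻¹ * c j0) = 1
    rw [inv_mul_cancel₀ hcj0', map_one]
  have hd3 : ∑ i, d i • x i = 0 := by
    have : ∑ i, d i • x i = (c j0)⁻¹ • ∑ i, c i • x i := by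
      rw [Finset.smul_sum]
      exact Finset.sum_congr rfl fun i _ => by rw [hd, smul_smul]
    rw [this, hc, smul_zero]
  -- the first unit
  let S : Finset (Fin (n + 1)) := Finset.univ.filter fun i => v (d i) = 1
  have hS : S.Nonempty := ⟨j0, by simp [S, hd2]⟩
  set j := S.min' hS with hj
  have hjS : v (d j) = 1 := by
    have := S.min'_mem hS
    simpa [S] using this
  have hjmin : ∀ i < j, v (d i) < 1 := by
    intro i hi
    refine lt_of_le_of_ne (hd1 i) fun h => ?_
    have : j ≤ i := S.min'_le i (by simp [S, h])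
    exact absurd hi (not_lt.2 this)
  have key : ∀ i, i ≠ j → d i • x i ∈ (L j.succ).1 := by
    intro i hij
    rcases lt_or_gt_of_ne hij with h | h
    · have h1 : v (((π ^ (-1 : ℤ) : Kˣ) : K) * d i) ≤ 1 := by
        rw [map_mul, v_zpow hπ, neg_neg]
        rcases eq_or_ne (v (d i)) 0 with h0 | h0
        · rw [h0, mul_zero]
          exact zero_le
        · have h2 := hjmin i h
          rw [← exp_log h0, ← exp_zero, exp_lt_exp] at h2
          rw [← exp_log h0, ← exp_add, ← exp_zero, exp_le_exp]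
          omega
      have h2 := (L 0).2.smul _ h1 _ (hanti (Fin.zero_le _) (hx1 i))
      refine hanti (Fin.le_last _) (hσ ?_)
      refine mem_sc.2 ?_
      rw [smul_smul]
      rwa [zpow_neg_one] at h2
    · refine (L j.succ).2.smul _ (hd1 i) _ ?_
      exact hanti (Fin.succ_le_castSucc_iff.2 h) (hx1 i)
  have hsum : d j • x j = - ∑ i ∈ Finset.univ.erase j, d i • x i := by
    rw [← Finset.add_sum_erase _ _ (Finset.mem_univ j)] at hd3
    exact eq_neg_of_add_eq_zero_left hd3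
  have hmem : d j • x j ∈ (L j.succ).1 := by
    rw [hsum]
    exact neg_mem (sum_mem fun i hi => key i (Finset.ne_of_mem_erase hi))
  have hne : d j ≠ 0 := fun h => by
    rw [h, map_zero] at hjS
    exact zero_ne_one hjS
  have := (L j.succ).2.smul (d j)⁻¹ (by rw [map_inv₀, hjS, inv_one]) _ hmem
  rw [smul_smul, inv_mul_cancel₀ hne, one_smul] at this
  exact hx2 j this

end Pool.Agent.Helper3.FJ
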