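import Pool.Agent.Helper3.FJ.Latt

/-!
# Linear groups of degree at most three over discretely valued fields
-/

set_option autoImplicit false

namespace Pool.Agent.Helper3.FJ

open WithZero Pool.Agent.Helper29.BA Pool.Agent.Helper29.PA

open scoped Matrix MatrixGroups

variable {K : Type} [Field K] {v : Valuation K ℤᵐ⁰}

theorem exists_pi (hv : Function.Surjective v) : ∃ π : Kˣ, v π = exp (-1) := by
  obtain ⟨x, hx⟩ := hv (exp (-1))
  have h0 : x ≠ 0 := by
    rintro rfl
    rw [map_zero] at hx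
    exact exp_ne_zero hx.symm
  exact ⟨Units.mk0 x h0, hx⟩

/-- Groups of matrices of degree two. -/
theorem rank_two {C : ∀ (G : Type) [Group G], Prop} (hC : ExtClass C)
    (hv : Function.Surjective v) (Γ : Subgroup (GL (Fin 2) K)) (hdet : ∀ g ∈ Γ, v g.1.det = 1)
    (hQ : ∀ m : ℤ, ∃ (Q : Type) (_ : Group Q) (f : Γ →* Q), C Q ∧
      ∀ g : Γ, f g = 1 → (∀ i j, v (g.1.1 i j) ≤ exp m) → g = 1) : C Γ := by
  classical
  obtain ⟨π, hπ⟩ := exists_pi hv
  refine LatSys.tree hC (latSys (n := 2) hπ) (G := Γ) ?_ ?_ ?_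
  · intro L M N h1 h2 h3
    refine no_chain hπ (n := 2) ![L, M, N, sg v 2 π L] ?_ le_rfl
    intro i
    fin_cases i
    · exact h1
    · exact h2
    · exact h3
  · intro g L k hg
    exact smul_eq_zpow hπ (hdet g.1 g.2) hg
  · intro S
    choose M hM using fun L : Latt v 2 => stab_bound hπ L
    obtain ⟨Q, _, f, hCQ, hf⟩ := hQ (∑ L ∈ S, |M L|)
    refine ⟨Q, _, f, hCQ, fun L hL g hg hfg => hf g hfg fun i j => ?_⟩
    refine (hM L g.1 (le_of_eq hg) i j).trans (exp_le_exp.2 ((le_abs_self _).trans ?_))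
    exact Finset.single_le_sum (f := fun L => |M L|) (fun _ _ => abs_nonneg _) hL

/-- Discrete groups of matrices of degree at most three. -/
theorem rank_three {C : ∀ (G : Type) [Group G], Prop} (hC : TriClass C)
    (hv : Function.Surjective v) {n : ℕ} (hn : n ≤ 3) (Γ : Subgroup (GL (Fin n) K))
    (hdet : ∀ g ∈ Γ, v g.1.det = 1)
    (hfin : ∀ m : ℤ, {g : GL (Fin n) K | g ∈ Γ ∧ ∀ i j, v (g.1 i j) ≤ exp m}.Finite) : C Γ := by
  classical
  rcases Nat.eq_zero_or_pos n with rfl | hn0
  · refine hC.finite Γ ?_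
    have : Subsingleton Γ := ⟨fun a b => Subtype.ext (Units.ext (Subsingleton.elim _ _))⟩
    infer_instance
  have : NeZero n := ⟨hn0.ne'⟩
  obtain ⟨π, hπ⟩ := exists_pi hv
  have h := latSys (n := n) hπ
  have hF : ∀ (g : Γ) (L : Latt v n) (k : ℤ), g • L = (sg v n π ^ k) L → k = 0 :=
    fun g L k hg => smul_eq_zpow hπ (hdet g.1 g.2) hg
  refine Cpx.colim (X := h.cpx) (G := Γ) hC (LatSys.acts h) h.simplyConn (h.linkGirth ?_) ?_
  · intro L M N P h1 h2 h3 h4
    interval_cases n
    · exact no_chain hπ (n := 1) ![L, M, N] (fun i => by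
        fin_cases i
        · exact h1
        · exact h2) (h4.trans h3).le
    · exact no_chain hπ (n := 2) ![L, M, N, P] (fun i => by
        fin_cases i
        · exact h1
        · exact h2
        · exact h3) h4.le
    · exact no_chain hπ (n := 3) ![L, M, N, P, sg v 3 π L] (fun i => by
        fin_cases i
        · exact h1
        · exact h2
        · exact h3
        · exact h4) le_rfl
  · intro u
    obtain ⟨L, rfl⟩ := LatSys.cls_surj u
    obtain ⟨M, hM⟩ := stab_bound hπ L
    have hS := (hfin M).to_subtype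
    refine Finite.of_injective
      (β := {g : GL (Fin n) K | g ∈ Γ ∧ ∀ i j, v (g.1 i j) ≤ exp M})
      (fun g => ⟨g.1.1, g.1.2, hM g.1.1 (le_of_eq (LatSys.smul_eq_of_cls hF g.2))⟩) ?_
    intro a b hab
    exact Subtype.ext (Subtype.ext (congrArg (fun z => z.1) hab))

end Pool.Agent.Helper3.FJ
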