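import Pool.Agent.Helper3.FJ.Deg

/-!
# Linear groups over polynomial rings
-/

set_option autoImplicit false

namespace Pool.Agent.Helper3.FJ

open WithZero Pool.Agent.Helper29.BA Pool.Agent.Helper29.PA

open scoped Matrix MatrixGroups Polynomial

variable {C : ∀ (G : Type) [Group G], Prop}

section one

variable {A : Type} [CommRing A] [IsDomain A]

theorem poly_two (hC : ExtClass C) {G : Type} [Group G] (ρ : G →* GL (Fin 2) A[X])
    (hρ : Function.Injective ρ) {G₀ : Type} [Group G₀] (hG₀ : C G₀) (ρ₀ : G₀ →* GL (Fin 2) A)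
    (ev : A → G →* G₀)
    (hev : ∀ a g, ρ₀ (ev a g) = Matrix.GeneralLinearGroup.map (Polynomial.evalRingHom a) (ρ g)) :
    C G := by
  classical
  have hunit : ∀ g, degVal A (ρ g).1.det = 1 := fun g =>
    degVal_unit ((Matrix.isUnit_iff_isUnit_det _).1 (ρ g).isUnit)
  have hone : ∀ g, (∀ i j, ((ρ g).1 - 1) i j = 0) → g = 1 := by
    intro g hg
    refine hρ ?_
    rw [map_one]
    refine Units.ext ?_
    rw [Units.val_one]
    exact sub_eq_zero.1 (Matrix.ext hg)
  refine ring_two (degVal A) hC degVal_zero Polynomial.X degVal_X ρ hρ hunit fun m => ?_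
  rcases finite_or_infinite A with hA | hA
  · obtain ⟨B, _, φ, hB, hφ⟩ := finite_quot (A := A) m
    refine ⟨GL (Fin 2) B, inferInstance, (Matrix.GeneralLinearGroup.map φ).comp ρ,
      hC.finite _ inferInstance, fun g hg hb => hone g fun i j => hφ _ (sub_one_bd hb i j) ?_⟩
    have h1 : ((Matrix.GeneralLinearGroup.map φ (ρ g)).1 - 1) i j = 0 := by
      have : Matrix.GeneralLinearGroup.map φ (ρ g) = 1 := hg
      rw [this, Units.val_one, sub_self, Matrix.zero_apply]
    rw [Matrix.sub_apply, map_sub]
    rw [Matrix.sub_apply] at h1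
    rw [Matrix.one_apply, apply_ite φ, map_one, map_zero]
    rw [Matrix.one_apply] at h1
    exact h1
  · obtain ⟨S, hS⟩ := Infinite.exists_subset_card_eq A (m.toNat + 1)
    refine ⟨S → G₀, inferInstance, MonoidHom.pi fun a => ev a.1, hC.pi hG₀, fun g hg hb =>
      hone g fun i j => ?_⟩
    refine Polynomial.eq_zero_of_natDegree_lt_card_of_eval_eq_zero' _ S ?_
      (by rw [hS]; exact sub_one_bd hb i j)
    intro a ha
    have h0 : ev a g = 1 := congrFun hg ⟨a, ha⟩
    have h1 : Matrix.GeneralLinearGroup.map (Polynomial.evalRingHom a) (ρ g) = 1 := by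
      rw [← hev, h0, map_one]
    have h2 : ((Matrix.GeneralLinearGroup.map (Polynomial.evalRingHom a) (ρ g)).1 - 1) i j = 0 := by
      rw [h1, Units.val_one, sub_self, Matrix.zero_apply]
    rw [Matrix.sub_apply, Matrix.one_apply] at h2
    rw [Matrix.sub_apply, Matrix.one_apply, Polynomial.eval_sub, apply_ite (Polynomial.eval a),
      Polynomial.eval_one, Polynomial.eval_zero]
    exact h2

theorem poly_SL (hC : ExtClass C) (h : C SL(2, A)) : C SL(2, A[X]) := by
  refine poly_two hC Matrix.SpecialLinearGroup.toGL Matrix.SpecialLinearGroup.toGL_injective h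
    Matrix.SpecialLinearGroup.toGL
    (fun a => Matrix.SpecialLinearGroup.map (Polynomial.evalRingHom a)) fun a g => ?_
  refine Units.ext (Matrix.ext fun i j => ?_)
  rfl

theorem poly_GL (hC : ExtClass C) (h : C (GL (Fin 2) A)) : C (GL (Fin 2) A[X]) :=
  poly_two hC (MonoidHom.id _) Function.injective_id h (MonoidHom.id _)
    (fun a => Matrix.GeneralLinearGroup.map (Polynomial.evalRingHom a)) fun _ _ => rfl

end one

section maps

variable {R S : Type} [CommRing R] [CommRing S] {n : ℕ}

theorem mapGL_inj (φ : R →+* S) (hφ : Function.Injective φ) :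
    Function.Injective (Matrix.GeneralLinearGroup.map (n := Fin n) φ) := by
  intro a b hab
  refine Units.ext (Matrix.ext fun i j => hφ ?_)
  have h : (Matrix.GeneralLinearGroup.map (n := Fin n) φ a).1 i j =
    (Matrix.GeneralLinearGroup.map (n := Fin n) φ b).1 i j := by rw [hab]
  exact h

theorem mapSL_inj (φ : R →+* S) (hφ : Function.Injective φ) :
    Function.Injective (Matrix.SpecialLinearGroup.map (n := Fin n) φ) := by
  intro a b hab
  refine Subtype.ext (Matrix.ext fun i j => hφ ?_)
  have h : (Matrix.SpecialLinearGroup.map (n := Fin n) φ a).1 i j =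
    (Matrix.SpecialLinearGroup.map (n := Fin n) φ b).1 i j := by rw [hab]
  exact h

theorem mem_range_GL (φ : R →+* S) (hφ : Function.Injective φ) (g : GL (Fin n) S)
    (h1 : ∀ i j, g.1 i j ∈ φ.range) (h2 : ∀ i j, (g⁻¹).1 i j ∈ φ.range) :
    g ∈ (Matrix.GeneralLinearGroup.map (n := Fin n) φ).range := by
  choose a ha using h1
  choose b hb using h2
  have ea : φ.mapMatrix (Matrix.of a) = g.1 := Matrix.ext fun i j => ha i j
  have eb : φ.mapMatrix (Matrix.of b) = (g⁻¹).1 := Matrix.ext fun i j => hb i j
  have hinj : Function.Injective (φ.mapMatrix (m := Fin n)) := by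
    intro x y hxy
    refine Matrix.ext fun i j => hφ ?_
    exact congrFun (congrFun hxy i) j
  refine ⟨⟨Matrix.of a, Matrix.of b, hinj ?_, hinj ?_⟩, Units.ext ea⟩
  · rw [map_mul, ea, eb, ← Units.val_mul, mul_inv_cancel, Units.val_one, map_one]
  · rw [map_mul, ea, eb, ← Units.val_mul, inv_mul_cancel, Units.val_one, map_one]

theorem mem_range_SL (φ : R →+* S) (hφ : Function.Injective φ) (g : Matrix.SpecialLinearGroup (Fin n) S)
    (h1 : ∀ i j, g.1 i j ∈ φ.range) :
    g ∈ (Matrix.SpecialLinearGroup.map (n := Fin n) φ).range := by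
  choose a ha using h1
  have ea : φ.mapMatrix (Matrix.of a) = g.1 := Matrix.ext fun i j => ha i j
  refine ⟨⟨Matrix.of a, hφ ?_⟩, Subtype.ext ea⟩
  rw [RingHom.map_det, ea, map_one]
  exact g.2

end maps

section many

variable {A : Type} [CommRing A]

open Classical in
theorem colim_GL (hC : ExtClass C) {n : ℕ}
    (h : ∀ r : ℕ, C (GL (Fin n) (MvPolynomial (Fin r) A))) (σ : Type) :
    C (GL (Fin n) (MvPolynomial σ A)) := by
  refine hC.ofClosure fun s => ?_
  let t : Finset σ := s.biUnion fun g => Finset.univ.biUnion fun i => Finset.univ.biUnion fun j =>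
    (g.1 i j).vars ∪ ((g⁻¹).1 i j).vars
  let e : Fin (Fintype.card t) → σ := fun k => ((Fintype.equivFin t).symm k).1
  have he : Function.Injective e := Subtype.val_injective.comp (Equiv.injective _)
  have hr : (t : Set σ) ⊆ Set.range e := by
    intro x hx
    exact ⟨Fintype.equivFin t ⟨x, hx⟩, by simp [e]⟩
  let φ : MvPolynomial (Fin (Fintype.card t)) A →+* MvPolynomial σ A :=
    (MvPolynomial.rename e).toRingHom
  have hφ : Function.Injective φ := MvPolynomial.rename_injective e he
  have hvars : ∀ p : MvPolynomial σ A, p.vars ⊆ t → p ∈ φ.range := by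
    intro p hp
    obtain ⟨q, hq⟩ := MvPolynomial.exists_rename_eq_of_vars_subset_range p e he
      (fun x hx => hr (hp hx))
    exact ⟨q, hq⟩
  refine hC.sub (T := (Matrix.GeneralLinearGroup.map (n := Fin n) φ).range) ?_
    (hC.iso _ _ (MonoidHom.ofInjective (mapGL_inj φ hφ)) (h _))
  rw [Subgroup.closure_le]
  intro g hg
  have key : ∀ i j, (g.1 i j).vars ∪ ((g⁻¹).1 i j).vars ⊆ t := by
    intro i j x hx
    simp only [t, Finset.mem_biUnion]
    exact ⟨g, hg, i, Finset.mem_univ _, j, Finset.mem_univ _, hx⟩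
  exact mem_range_GL φ hφ g (fun i j => hvars _ (Finset.subset_union_left.trans (key i j)))
    (fun i j => hvars _ (Finset.subset_union_right.trans (key i j)))

open Classical in
theorem colim_SL (hC : ExtClass C) {n : ℕ}
    (h : ∀ r : ℕ, C (Matrix.SpecialLinearGroup (Fin n) (MvPolynomial (Fin r) A))) (σ : Type) :
    C (Matrix.SpecialLinearGroup (Fin n) (MvPolynomial σ A)) := by
  refine hC.ofClosure fun s => ?_
  let t : Finset σ := s.biUnion fun g => Finset.univ.biUnion fun i => Finset.univ.biUnion fun j =>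
    (g.1 i j).vars
  let e : Fin (Fintype.card t) → σ := fun k => ((Fintype.equivFin t).symm k).1
  have he : Function.Injective e := Subtype.val_injective.comp (Equiv.injective _)
  have hr : (t : Set σ) ⊆ Set.range e := by
    intro x hx
    exact ⟨Fintype.equivFin t ⟨x, hx⟩, by simp [e]⟩
  let φ : MvPolynomial (Fin (Fintype.card t)) A →+* MvPolynomial σ A :=
    (MvPolynomial.rename e).toRingHom
  have hφ : Function.Injective φ := MvPolynomial.rename_injective e he
  have hvars : ∀ p : MvPolynomial σ A, p.vars ⊆ t → p ∈ φ.range := by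
    intro p hp
    obtain ⟨q, hq⟩ := MvPolynomial.exists_rename_eq_of_vars_subset_range p e he
      (fun x hx => hr (hp hx))
    exact ⟨q, hq⟩
  refine hC.sub (T := (Matrix.SpecialLinearGroup.map (n := Fin n) φ).range) ?_
    (hC.iso _ _ (MonoidHom.ofInjective (mapSL_inj φ hφ)) (h _))
  rw [Subgroup.closure_le]
  intro g hg
  refine mem_range_SL φ hφ g fun i j => hvars _ ?_
  intro x hx
  simp only [t, Finset.mem_biUnion]
  exact ⟨g, hg, i, Finset.mem_univ _, j, Finset.mem_univ _, hx⟩

end many

section two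

variable {A : Type} [CommRing A] [IsDomain A]

theorem fin_SL (hC : ExtClass C) (h : C SL(2, A)) (r : ℕ) :
    C SL(2, MvPolynomial (Fin r) A) := by
  induction r with
  | zero =>
    exact hC.inj (Matrix.SpecialLinearGroup.map
      (MvPolynomial.isEmptyRingEquiv A (Fin 0)).toRingHom)
      (mapSL_inj _ (RingEquiv.injective _)) h
  | succ r ih =>
    exact hC.inj (Matrix.SpecialLinearGroup.map
      (MvPolynomial.finSuccEquiv A r).toRingEquiv.toRingHom)
      (mapSL_inj _ (RingEquiv.injective _)) (poly_SL hC ih)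

theorem fin_GL (hC : ExtClass C) (h : C (GL (Fin 2) A)) (r : ℕ) :
    C (GL (Fin 2) (MvPolynomial (Fin r) A)) := by
  induction r with
  | zero =>
    exact hC.inj (Matrix.GeneralLinearGroup.map
      (MvPolynomial.isEmptyRingEquiv A (Fin 0)).toRingHom)
      (mapGL_inj _ (RingEquiv.injective _)) h
  | succ r ih =>
    exact hC.inj (Matrix.GeneralLinearGroup.map
      (MvPolynomial.finSuccEquiv A r).toRingEquiv.toRingHom)
      (mapGL_inj _ (RingEquiv.injective _)) (poly_GL hC ih)

/-- `SL_2` over polynomial rings. -/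
theorem SL_two (hC : ExtClass C) (h : C SL(2, A)) (σ : Type) : C SL(2, MvPolynomial σ A) :=
  colim_SL hC (fin_SL hC h) σ

/-- `GL_2` over polynomial rings. -/
theorem GL_two (hC : ExtClass C) (h : C (GL (Fin 2) A)) (σ : Type) :
    C (GL (Fin 2) (MvPolynomial σ A)) :=
  colim_GL hC (fin_GL hC h) σ

end two

section three

variable (F : Type) [Field F] (r : ℕ)

open Classical in
/-- The total degree valuation. -/
noncomputable def totVal : Valuation (MvPolynomial (Fin r) F) ℤᵐ⁰ where
  toFun p := if p = 0 then 0 else exp (p.totalDegree : ℤ)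
  map_zero' := if_pos rfl
  map_one' := by simp
  map_mul' p q := by
    rcases eq_or_ne p 0 with rfl | hp
    · simp
    rcases eq_or_ne q 0 with rfl | hq
    · simp
    rw [if_neg hp, if_neg hq, if_neg (mul_ne_zero hp hq),
      MvPolynomial.totalDegree_mul_of_isDomain hp hq, ← exp_add]
    push_cast
    rfl
  map_add_le_max' p q := by
    rcases eq_or_ne p 0 with rfl | hp
    · simp
    rcases eq_or_ne q 0 with rfl | hq
    · simp
    rw [if_neg hp, if_neg hq]
    rcases eq_or_ne (p + q) 0 with h | h
    · rw [if_pos h]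
      exact zero_le
    rw [if_neg h]
    have := MvPolynomial.totalDegree_add p q
    rcases le_max_iff.1 this with h1 | h1
    · exact le_max_of_le_left (exp_le_exp.2 (by exact_mod_cast h1))
    · exact le_max_of_le_right (exp_le_exp.2 (by exact_mod_cast h1))

variable {F r}

theorem totVal_of_ne {p : MvPolynomial (Fin r) F} (hp : p ≠ 0) :
    totVal F r p = exp (p.totalDegree : ℤ) := if_neg hp

theorem totVal_zero (p : MvPolynomial (Fin r) F) (hp : totVal F r p = 0) : p = 0 := by
  by_contra h
  rw [totVal_of_ne h] at hp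
  exact exp_ne_zero hp

theorem totVal_unit {p : MvPolynomial (Fin r) F} (hp : IsUnit p) : totVal F r p = 1 := by
  obtain ⟨q, hq⟩ := isUnit_iff_exists_inv.1 hp
  have hp0 : p ≠ 0 := hp.ne_zero
  have hq0 : q ≠ 0 := by
    rintro rfl
    rw [mul_zero] at hq
    exact zero_ne_one hq
  have h1 := MvPolynomial.totalDegree_mul_of_isDomain hp0 hq0
  rw [hq, MvPolynomial.totalDegree_one] at h1
  rw [totVal_of_ne hp0]
  have : p.totalDegree = 0 := by omega
  rw [this]
  rfl

theorem totVal_finite [Finite F] (m : ℤ) :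
    {p : MvPolynomial (Fin r) F | totVal F r p ≤ exp m}.Finite := by
  have hfin : Finite (MvPolynomial.restrictTotalDegree (Fin r) F m.toNat) :=
    Module.finite_of_finite F
  refine (Set.toFinite (MvPolynomial.restrictTotalDegree (Fin r) F m.toNat :
    Set (MvPolynomial (Fin r) F))).subset ?_
  intro p hp
  change p ∈ MvPolynomial.restrictTotalDegree (Fin r) F m.toNat
  rw [MvPolynomial.mem_restrictTotalDegree]
  rcases eq_or_ne p 0 with rfl | h
  · simp
  · change totVal F r p ≤ exp m at hp
    rw [totVal_of_ne h, exp_le_exp] at hp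
    omega

theorem fin_three [Finite F] (hC : TriClass C) {n : ℕ} (hn : n ≤ 3) (r : ℕ) :
    C (GL (Fin n) (MvPolynomial (Fin (r + 1)) F)) := by
  refine ring_three (totVal F (r + 1)) hC totVal_zero (MvPolynomial.X 0) ?_ hn (MonoidHom.id _)
    Function.injective_id (fun g => totVal_unit ((Matrix.isUnit_iff_isUnit_det _).1 g.isUnit))
    fun m => ?_
  · rw [totVal_of_ne (MvPolynomial.X_ne_zero _), MvPolynomial.totalDegree_X]
    rfl
  · have h1 : {f : Fin n → Fin n → MvPolynomial (Fin (r + 1)) F | ∀ i,
        f i ∈ {f | ∀ j, f j ∈ {p | totVal F (r + 1) p ≤ exp m}}}.Finite :=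
      Set.Finite.pi' fun _ => Set.Finite.pi' fun _ => totVal_finite m
    refine Set.Finite.of_finite_image (f := fun g : GL (Fin n) (MvPolynomial (Fin (r + 1)) F) =>
      (fun i j => g.1 i j)) (h1.subset ?_) ?_
    · rintro _ ⟨g, hg, rfl⟩
      exact fun i j => hg i j
    · intro a _ b _ hab
      exact Units.ext (Matrix.ext fun i j => congrFun (congrFun hab i) j)

/-- `GL_3` over polynomial rings over finite fields. -/
theorem GL_three [Finite F] (hC : TriClass C) {n : ℕ} (hn : n ≤ 3) (σ : Type) :
    C (GL (Fin n) (MvPolynomial σ F)) := by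
  refine colim_GL hC.toExtClass (fun r => ?_) σ
  exact hC.inj (Matrix.GeneralLinearGroup.map
    (MvPolynomial.rename (Fin.castSucc (n := r)) : _ →ₐ[F] _).toRingHom)
    (mapGL_inj _ (MvPolynomial.rename_injective _ (Fin.castSucc_injective r))) (fin_three hC hn r)

end three

end Pool.Agent.Helper3.FJ
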