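import Pool.Agent.Helper3.FJ.Main2
import Pool.Agent.Helper3.FJ.Poly

/-!
# Linear groups of degree three over rings with a discrete valuation
-/

set_option autoImplicit false

namespace Pool.Agent.Helper3.FJ

open WithZero Pool.Agent.Helper29.BA Pool.Agent.Helper29.PA

open scoped Matrix MatrixGroups Polynomial

section field

variable {K : Type} [Field K] {v : Valuation K ℤᵐ⁰}

/-- The determinant modulo the units of the valuation ring. -/
noncomputable def dtv (v : Valuation K ℤᵐ⁰) (n : ℕ) : GL (Fin n) K →* (ℤᵐ⁰)ˣ :=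
  (Units.map v.toMonoidWithZeroHom.toMonoidHom).comp (Units.map (Matrix.detMonoidHom))

theorem dtv_apply {n : ℕ} (g : GL (Fin n) K) : (dtv v n g : ℤᵐ⁰) = v g.1.det := rfl

theorem dtv_class {C : ∀ (G : Type) [Group G], Prop} (hC : ClosedClass C) : C (ℤᵐ⁰)ˣ :=
  hC.iso _ _ WithZero.unitsWithZeroEquiv.symm hC.int

/-- Groups of matrices of degree at most three. -/
theorem rank_map {C : ∀ (G : Type) [Group G], Prop} (hC : TriClass C)
    (hv : Function.Surjective v) {n : ℕ} (hn : n ≤ 3) (Γ : Subgroup (GL (Fin n) K))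
    (hQ : ∀ m : ℤ, ∃ (Q : Type) (_ : Group Q) (f : Γ →* Q), C Q ∧
      ∀ g : Γ, f g = 1 → v g.1.1.det = 1 → (∀ i j, v (g.1.1 i j) ≤ exp m) → g = 1) : C Γ := by
  classical
  rcases Nat.eq_zero_or_pos n with rfl | hn0
  · refine hC.finite Γ ?_
    have : Subsingleton Γ := ⟨fun a b => Subtype.ext (Units.ext (Subsingleton.elim _ _))⟩
    infer_instance
  have : NeZero n := ⟨hn0.ne'⟩
  obtain ⟨π, hπ⟩ := exists_pi hv
  have h := latSys (n := n) hπ
  refine Cpx.main (X := h.cpx) (G := Γ) hC (LatSys.acts h) h.simplyConn (h.linkGirth ?_) ?_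
  · intro L M N P h1 h2 h3 h4
    interval_cases n
    · exact no_chain hπ (n := 1) ![L, M, N] (fun i => by
        fin_cases i
        · exact h1
        · exact h2) (h4.trans h3).le
    · exact no_chain hπ (n := 2) ![L, M, N, P] (fun i => by
        fin_cases i
        · exact h1
        · exact h2
        · exact h3) h4.le
    · exact no_chain hπ (n := 3) ![L, M, N, P, sg v 3 π L] (fun i => by
        fin_cases i
        · exact h1
        · exact h2
        · exact h3
        · exact h4) le_rfl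
  · intro S
    choose M hM using fun L : Latt v n => stab_bound hπ L
    obtain ⟨Q, _, f, hCQ, hf⟩ := hQ (∑ u ∈ S, |M (LatSys.rep u)|)
    refine ⟨Q × (ℤᵐ⁰)ˣ, inferInstance, f.prod ((dtv v n).comp Γ.subtype),
      hC.prod _ _ hCQ (dtv_class hC.toClosedClass), fun u hu g hg hfg => ?_⟩
    have h1 : f g = 1 := congrArg Prod.fst hfg
    have h2 : dtv v n g.1 = 1 := congrArg Prod.snd hfg
    have h3 : v g.1.1.det = 1 := by
      have := congrArg Units.val h2
      exact this
    have h4 : g • LatSys.rep u = LatSys.rep u := by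
      have h5 : LatSys.cls (sg v n π) (g • LatSys.rep u) = LatSys.cls (sg v n π) (LatSys.rep u) := by
        rw [← LatSys.smul_cls, LatSys.cls_rep]
        exact hg
      obtain ⟨k, hk⟩ := LatSys.cls_eq.1 h5.symm
      have h6 := smul_eq_zpow hπ h3 hk.symm
      rw [h6, zpow_zero] at hk
      exact hk.symm
    refine hf g h1 h3 fun i j => ?_
    refine (hM _ g.1 (le_of_eq h4) i j).trans (exp_le_exp.2 ((le_abs_self _).trans ?_))
    exact Finset.single_le_sum (f := fun u => |M (LatSys.rep u)|) (fun _ _ => abs_nonneg _) hu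

end field

section ring

variable {R : Type} [CommRing R] [IsDomain R] (w : Valuation R ℤᵐ⁰)

theorem ring_map {C : ∀ (G : Type) [Group G], Prop} (hC : TriClass C)
    (hw : ∀ x, w x = 0 → x = 0) (t : R) (ht : w t = exp 1) {n : ℕ} (hn : n ≤ 3)
    {G : Type} [Group G] (ρ : G →* GL (Fin n) R) (hρ : Function.Injective ρ)
    (hQ : ∀ m : ℤ, ∃ (Q : Type) (_ : Group Q) (f : G →* Q), C Q ∧
      ∀ g, f g = 1 → (∀ i j, w ((ρ g).1 i j) ≤ exp m) → g = 1) : C G := by
  have hinj : Function.Injective ((toK n).comp ρ) := toK_inj.comp hρ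
  let e : G ≃* ((toK n).comp ρ).range := MonoidHom.ofInjective hinj
  have he : ∀ g, (e g).1 = toK n (ρ g) := fun g => rfl
  refine hC.iso _ _ e.symm ?_
  refine rank_map hC (frv_surj w hw t ht) hn _ fun m => ?_
  obtain ⟨Q, _, f, hCQ, hf⟩ := hQ m
  refine ⟨Q, _, f.comp e.symm.toMonoidHom, hCQ, fun g hg _ hb => ?_⟩
  obtain ⟨g, rfl⟩ := e.surjective g
  have h1 : f g = 1 := by simpa using hg
  rw [hf g h1 fun i j => ?_, map_one]
  have := hb i j
  rwa [he, toK_apply, frv_apply] at this

end ring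

section poly

variable {C : ∀ (G : Type) [Group G], Prop} {A : Type} [CommRing A] [IsDomain A] {n : ℕ}

theorem poly_map (hC : TriClass C) (hn : n ≤ 3) {G : Type} [Group G] (ρ : G →* GL (Fin n) A[X])
    (hρ : Function.Injective ρ) {G₀ : Type} [Group G₀] (hG₀ : C G₀) (ρ₀ : G₀ →* GL (Fin n) A)
    (ev : A → G →* G₀)
    (hev : ∀ a g, ρ₀ (ev a g) = Matrix.GeneralLinearGroup.map (Polynomial.evalRingHom a) (ρ g)) :
    C G := by
  classical
  have hone : ∀ g, (∀ i j, ((ρ g).1 - 1) i j = 0) → g = 1 := by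
    intro g hg
    refine hρ ?_
    rw [map_one]
    refine Units.ext ?_
    rw [Units.val_one]
    exact sub_eq_zero.1 (Matrix.ext hg)
  refine ring_map (degVal A) hC degVal_zero Polynomial.X degVal_X hn ρ hρ fun m => ?_
  rcases finite_or_infinite A with hA | hA
  · obtain ⟨B, _, φ, hB, hφ⟩ := finite_quot (A := A) m
    refine ⟨GL (Fin n) B, inferInstance, (Matrix.GeneralLinearGroup.map φ).comp ρ,
      hC.finite _ inferInstance, fun g hg hb => hone g fun i j => hφ _ (sub_one_bd hb i j) ?_⟩
    have h1 : ((Matrix.GeneralLinearGroup.map φ (ρ g)).1 - 1) i j = 0 := by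
      have : Matrix.GeneralLinearGroup.map φ (ρ g) = 1 := hg
      rw [this, Units.val_one, sub_self, Matrix.zero_apply]
    rw [Matrix.sub_apply, map_sub]
    rw [Matrix.sub_apply] at h1
    rw [Matrix.one_apply, apply_ite φ, map_one, map_zero]
    rw [Matrix.one_apply] at h1
    exact h1
  · obtain ⟨S, hS⟩ := Infinite.exists_subset_card_eq A (m.toNat + 1)
    refine ⟨S → G₀, inferInstance, MonoidHom.pi fun a => ev a.1, hC.pi hG₀, fun g hg hb =>
      hone g fun i j => ?_⟩
    refine Polynomial.eq_zero_of_natDegree_lt_card_of_eval_eq_zero' _ S ?_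
      (by rw [hS]; exact sub_one_bd hb i j)
    intro a ha
    have h0 : ev a g = 1 := congrFun hg ⟨a, ha⟩
    have h1 : Matrix.GeneralLinearGroup.map (Polynomial.evalRingHom a) (ρ g) = 1 := by
      rw [← hev, h0, map_one]
    have h2 : ((Matrix.GeneralLinearGroup.map (Polynomial.evalRingHom a) (ρ g)).1 - 1) i j = 0 := by
      rw [h1, Units.val_one, sub_self, Matrix.zero_apply]
    rw [Matrix.sub_apply, Matrix.one_apply] at h2
    rw [Matrix.sub_apply, Matrix.one_apply, Polynomial.eval_sub, apply_ite (Polynomial.eval a),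
      Polynomial.eval_one, Polynomial.eval_zero]
    exact h2

theorem poly_SL3 (hC : TriClass C) (hn : n ≤ 3) (h : C (Matrix.SpecialLinearGroup (Fin n) A)) :
    C (Matrix.SpecialLinearGroup (Fin n) A[X]) := by
  refine poly_map hC hn Matrix.SpecialLinearGroup.toGL Matrix.SpecialLinearGroup.toGL_injective h
    Matrix.SpecialLinearGroup.toGL
    (fun a => Matrix.SpecialLinearGroup.map (Polynomial.evalRingHom a)) fun a g => ?_
  refine Units.ext (Matrix.ext fun i j => ?_)
  rfl

theorem poly_GL3 (hC : TriClass C) (hn : n ≤ 3) (h : C (GL (Fin n) A)) : C (GL (Fin n) A[X]) :=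
  poly_map hC hn (MonoidHom.id _) Function.injective_id h (MonoidHom.id _)
    (fun a => Matrix.GeneralLinearGroup.map (Polynomial.evalRingHom a)) fun _ _ => rfl

theorem fin_SL3 (hC : TriClass C) (hn : n ≤ 3) (h : C (Matrix.SpecialLinearGroup (Fin n) A))
    (r : ℕ) : C (Matrix.SpecialLinearGroup (Fin n) (MvPolynomial (Fin r) A)) := by
  induction r with
  | zero =>
    exact hC.inj (Matrix.SpecialLinearGroup.map
      (MvPolynomial.isEmptyRingEquiv A (Fin 0)).toRingHom)
      (mapSL_inj _ (RingEquiv.injective _)) h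
  | succ r ih =>
    exact hC.inj (Matrix.SpecialLinearGroup.map
      (MvPolynomial.finSuccEquiv A r).toRingEquiv.toRingHom)
      (mapSL_inj _ (RingEquiv.injective _)) (poly_SL3 hC hn ih)

theorem fin_GL3 (hC : TriClass C) (hn : n ≤ 3) (h : C (GL (Fin n) A)) (r : ℕ) :
    C (GL (Fin n) (MvPolynomial (Fin r) A)) := by
  induction r with
  | zero =>
    exact hC.inj (Matrix.GeneralLinearGroup.map
      (MvPolynomial.isEmptyRingEquiv A (Fin 0)).toRingHom)
      (mapGL_inj _ (RingEquiv.injective _)) h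
  | succ r ih =>
    exact hC.inj (Matrix.GeneralLinearGroup.map
      (MvPolynomial.finSuccEquiv A r).toRingEquiv.toRingHom)
      (mapGL_inj _ (RingEquiv.injective _)) (poly_GL3 hC hn ih)

/-- `SL_3` over polynomial rings. -/
theorem SL_poly (hC : TriClass C) (hn : n ≤ 3) (h : C (Matrix.SpecialLinearGroup (Fin n) A))
    (σ : Type) : C (Matrix.SpecialLinearGroup (Fin n) (MvPolynomial σ A)) :=
  colim_SL hC.toExtClass (fin_SL3 hC hn h) σ

/-- `GL_3` over polynomial rings. -/
theorem GL_poly (hC : TriClass C) (hn : n ≤ 3) (h : C (GL (Fin n) A)) (σ : Type) :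
    C (GL (Fin n) (MvPolynomial σ A)) :=
  colim_GL hC.toExtClass (fin_GL3 hC hn h) σ

end poly

end Pool.Agent.Helper3.FJ
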