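import Pool.Agent.Helper3.FJ.Colim

/-!
# Normal forms in nonpositively curved triangle complexes
-/

set_option autoImplicit false

namespace Pool.Agent.Helper3.FJ

open Relation

/-- Triangle complexes with darts (oriented edges) `D`: `tri a b c` means that the closed path
`a b c` bounds a triangle. -/
structure TC (V D : Type) where
  src : D → V
  inv : D → D
  tri : D → D → D → Prop
  inv_inv : ∀ d, inv (inv d) = d
  tri_src : ∀ a b c, tri a b c → src (inv a) = src b
  tri_rot : ∀ a b c, tri a b c → tri b c a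
  tri_inv : ∀ a b c, tri a b c → tri (inv c) (inv b) (inv a)

namespace TC

variable {V D : Type} (X : TC V D)

/-- The target. -/
abbrev tgt (d : D) : V := X.src (X.inv d)

/-- `a x = b`: the darts `a`, `x` and `b` are the sides of a triangle. -/
def cp (a x b : D) : Prop := X.tri a x (X.inv b)

/-- Adjacency in the links. -/
def L (a b : D) : Prop := ∃ x, X.cp a x b

variable {X}

theorem tgt_inv (d : D) : X.tgt (X.inv d) = X.src d := by rw [tgt, X.inv_inv]

theorem inv_inj {a b : D} (h : X.inv a = X.inv b) : a = b := by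
  rw [← X.inv_inv a, h, X.inv_inv]

/-- `b x⁻¹ = a`. -/
theorem cp1 {a x b : D} (h : X.cp a x b) : X.cp b (X.inv x) a := by
  have := X.tri_inv _ _ _ h
  rwa [X.inv_inv] at this

/-- `a⁻¹ b = x`. -/
theorem cp2 {a x b : D} (h : X.cp a x b) : X.cp (X.inv a) b x := by
  have := X.tri_inv _ _ _ (X.tri_rot _ _ _ h)
  rwa [X.inv_inv] at this

/-- `x b⁻¹ = a⁻¹`. -/
theorem cp3 {a x b : D} (h : X.cp a x b) : X.cp x (X.inv b) (X.inv a) := by
  have := X.tri_rot _ _ _ h
  rw [cp, X.inv_inv]
  exact this

/-- `b⁻¹ a = x⁻¹`. -/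
theorem cp4 {a x b : D} (h : X.cp a x b) : X.cp (X.inv b) a (X.inv x) := by
  have := X.tri_rot _ _ _ (X.tri_rot _ _ _ h)
  rw [cp, X.inv_inv]
  exact this

/-- `x⁻¹ a⁻¹ = b⁻¹`. -/
theorem cp5 {a x b : D} (h : X.cp a x b) : X.cp (X.inv x) (X.inv a) (X.inv b) :=
  cp3 (cp1 h)

theorem cp_src {a x b : D} (h : X.cp a x b) : X.src a = X.src b := by
  have := X.tri_src _ _ _ (X.tri_rot _ _ _ (X.tri_rot _ _ _ h))
  rw [X.inv_inv] at this
  exact this.symm

theorem cp_mid {a x b : D} (h : X.cp a x b) : X.tgt a = X.src x := X.tri_src _ _ _ h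

theorem cp_tgt {a x b : D} (h : X.cp a x b) : X.tgt x = X.tgt b :=
  X.tri_src _ _ _ (X.tri_rot _ _ _ h)

theorem L_symm {a b : D} (h : X.L a b) : X.L b a := by
  obtain ⟨x, hx⟩ := h
  exact ⟨_, cp1 hx⟩

/-- Adjacency at the target of `a`. -/
theorem L2 {a x b : D} (h : X.cp a x b) : X.L (X.inv a) x := ⟨_, cp2 h⟩

/-- Adjacency at the target of `x`. -/
theorem L3 {a x b : D} (h : X.cp a x b) : X.L (X.inv b) (X.inv x) := ⟨_, cp4 h⟩

variable (X)

/-- The links are graphs without circuits of length at most 5. -/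
structure NPC : Prop where
  n0 : ∀ a x, ¬ X.cp a x a
  n1 : ∀ a x y b, X.cp a x b → X.cp a y b → x = y
  n3 : ∀ a b c, X.L a b → X.L b c → X.L c a → False
  n4 : ∀ a b c d, X.L a b → X.L b c → X.L c d → X.L d a → a = c ∨ b = d
  n5 : ∀ a b c d e, X.L a b → X.L b c → X.L c d → X.L d e → X.L e a → False

variable {X}

section npc

variable (hX : X.NPC)
include hX

theorem n1b {a x b b' : D} (h : X.cp a x b) (h' : X.cp a x b') : b = b' :=
  hX.n1 _ _ _ _ (cp2 h) (cp2 h')

theorem n1c {a a' x b : D} (h : X.cp a x b) (h' : X.cp a' x b) : a = a' :=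
  inv_inj (hX.n1 _ _ _ _ (cp5 h) (cp5 h'))

theorem n0b {a x : D} (h : X.cp a x x) : False := hX.n0 _ _ (cp5 h)

theorem n0c {a b : D} (h : X.cp a (X.inv a) b) : False := by
  have := cp2 h
  exact hX.n0 _ _ this

end npc

variable (X)

/-- Rhombus moves of words of darts (the head of the list is the last dart). -/
inductive Sw : List D → List D → Prop
  | here {a b c d e : D} {w : List D} : X.cp a e c → X.cp e d b → Sw (b :: a :: w) (d :: c :: w)
  | cons {x : D} {w w' : List D} : Sw w w' → Sw (x :: w) (x :: w')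

/-- Words which differ by rhombus moves. -/
abbrev E : List D → List D → Prop := ReflTransGen X.Sw

variable {X}

theorem Sw.symm {w w' : List D} (h : X.Sw w w') : X.Sw w' w := by
  induction h with
  | here h1 h2 => exact Sw.here (cp1 h1) (cp2 h2)
  | cons _ ih => exact Sw.cons ih

theorem Sw.length {w w' : List D} (h : X.Sw w w') : w.length = w'.length := by
  induction h with
  | here _ _ => rfl
  | cons _ ih => simp [ih]

theorem E.symm {w w' : List D} (h : X.E w w') : X.E w' w := by
  induction h with
  | refl => exact ReflTransGen.refl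
  | tail _ h2 ih => exact ih.head h2.symm

theorem E.length {w w' : List D} (h : X.E w w') : w.length = w'.length := by
  induction h with
  | refl => rfl
  | tail _ h2 ih => rw [ih, h2.length]

theorem E.cons (x : D) {w w' : List D} (h : X.E w w') : X.E (x :: w) (x :: w') := by
  induction h with
  | refl => exact ReflTransGen.refl
  | tail _ h2 ih => exact ih.tail (Sw.cons h2)

/-- The rhombus move. -/
theorem E.here {a b c d e : D} (w : List D) (h1 : X.cp a e c) (h2 : X.cp e d b) :
    X.E (b :: a :: w) (d :: c :: w) := ReflTransGen.single (Sw.here h1 h2)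

variable (X) (v₀ : V)

/-- The endpoint of a word. -/
def End : List D → V
  | [] => v₀
  | x :: _ => X.tgt x

variable {X v₀}

theorem Sw.end_eq {w w' : List D} (h : X.Sw w w') : X.End v₀ w = X.End v₀ w' := by
  cases h with
  | here h1 h2 => exact (cp_tgt h2).symm
  | cons h => rfl

theorem E.end_eq {w w' : List D} (h : X.E w w') : X.End v₀ w = X.End v₀ w' := by
  induction h with
  | refl => rfl
  | tail _ h2 ih => rw [ih, h2.end_eq]

variable (X) (v₀)

/-- `y` leads down from the endpoint of `w`. -/
def Dn (w : List D) (y : D) : Prop := ∃ w', X.E w (X.inv y :: w')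

/-- `x` leads up from the endpoint of `w`. -/
def Up (w : List D) (x : D) : Prop := ¬ X.Dn w x ∧ ∀ y, X.Dn w y → ¬ X.L y x

/-- Geodesic words. -/
inductive Good : List D → Prop
  | nil : Good []
  | cons {x : D} {w : List D} : Good w → X.src x = X.End v₀ w → X.Up w x → Good (x :: w)

variable {X v₀}

theorem Dn.congr {w w' : List D} (h : X.E w w') {y : D} (hy : X.Dn w y) : X.Dn w' y := by
  obtain ⟨u, hu⟩ := hy
  exact ⟨u, h.symm.trans hu⟩

theorem Up.congr {w w' : List D} (h : X.E w w') {x : D} (hx : X.Up w x) : X.Up w' x :=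
  ⟨fun h1 => hx.1 (h1.congr h.symm), fun y h1 => hx.2 y (h1.congr h.symm)⟩

theorem dn_self (x : D) (w : List D) : X.Dn (x :: w) (X.inv x) :=
  ⟨w, by rw [X.inv_inv]⟩

theorem Good.tail {x : D} {w : List D} (h : X.Good v₀ (x :: w)) : X.Good v₀ w := by
  cases h with
  | cons h1 h2 h3 => exact h1

theorem Good.src_eq {x : D} {w : List D} (h : X.Good v₀ (x :: w)) : X.src x = X.End v₀ w := by
  cases h with
  | cons h1 h2 h3 => exact h2

theorem Good.up {x : D} {w : List D} (h : X.Good v₀ (x :: w)) : X.Up w x := by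
  cases h with
  | cons h1 h2 h3 => exact h3

/-- The alternative of Levi's lemma. -/
def Lev (X : TC V D) (x : D) (w : List D) (x' : D) (w' : List D) : Prop :=
  (x = x' ∧ X.E w w') ∨
    ∃ (e : D) (u : List D) (p q : D), X.cp p e q ∧ X.cp e x' x ∧ X.E w (p :: u) ∧ X.E w' (q :: u)

/-- The induction hypothesis. -/
def PP (X : TC V D) (v₀ : V) (n : ℕ) : Prop :=
  ∀ z : List D, z.length ≤ n → X.Good v₀ z → (∀ z', X.E z z' → X.Good v₀ z') ∧
    ∀ x w x' w', z = x :: w → X.E z (x' :: w') → Lev X x w x' w'

theorem sw_good (hX : X.NPC) {n : ℕ} (ih : PP X v₀ n) {z z' : List D} (hn : z.length ≤ n + 1)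
    (hz : X.Good v₀ z) (h : X.Sw z z') : X.Good v₀ z' := by
  cases h with
  | @cons x w w' h =>
    have h1 : w.length ≤ n := by simpa using hn
    have hE : X.E w w' := ReflTransGen.single h
    refine Good.cons ((ih w h1 hz.tail).1 _ hE) ?_ (hz.up.congr hE)
    rw [hz.src_eq, h.end_eq]
  | @here a b c d e u h1 h2 =>
    have hau := hz.tail
    have hu := hau.tail
    have upa := hau.up
    have upb := hz.up
    -- `c` leads up
    have hac : X.L a c := ⟨e, h1⟩
    have hupc : X.Up u c := by
      refine ⟨fun hc => upa.2 c hc (L_symm hac), fun y hy hyc => ?_⟩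
      obtain ⟨u', hu'⟩ := hy
      obtain ⟨k, hk⟩ := hyc
      -- `e` leads down from the endpoint of `a :: u`
      have he : X.Dn (a :: u) e := by
        refine ⟨k :: u', ?_⟩
        refine (E.cons a hu').trans ?_
        exact E.here u' (cp2 hk) (cp1 h1)
      exact upb.2 e he ⟨d, h2⟩
    have hgc : X.Good v₀ (c :: u) := by
      refine Good.cons hu ?_ hupc
      rw [← cp_src h1]
      exact hau.src_eq
    refine Good.cons hgc ?_ ?_
    · change X.src d = X.tgt c
      rw [← cp_tgt h1, cp_mid h2]
    · have hlen : (c :: u).length ≤ n := by simpa using hn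
      have hlev := (ih _ hlen hgc).2 c u
      have hcd : X.inv c ≠ d := by
        intro hcd
        have e1 : X.cp e (X.inv c) (X.inv a) := cp3 h1
        rw [hcd] at e1
        have e2 := n1b hX e1 h2
        exact upb.1 (e2 ▸ dn_self a u)
      have l1 : X.L (X.inv c) (X.inv e) := L3 h1
      have l2 : X.L (X.inv e) d := L2 h2
      refine ⟨fun hd => ?_, fun y hy hyd => ?_⟩
      · obtain ⟨w', hw'⟩ := hd
        rcases hlev _ _ rfl hw' with ⟨h3, -⟩ | ⟨e2, u2, p, q, h3, h4, h5, h6⟩
        · exact hcd (by rw [h3, X.inv_inv])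
        · have l3 : X.L (X.inv c) d := by
            have := L3 h4
            rwa [X.inv_inv] at this
          exact hX.n3 _ _ _ l1 l2 (L_symm l3)
      · obtain ⟨w', hw'⟩ := hy
        rcases hlev _ _ rfl hw' with ⟨h3, -⟩ | ⟨e2, u2, p, q, h3, h4, h5, h6⟩
        · have h4 : y = X.inv c := by rw [h3, X.inv_inv]
          rw [h4] at hyd
          exact hX.n3 _ _ _ l1 l2 (L_symm hyd)
        · have l3 : X.L (X.inv c) y := by
            have := L3 h4
            rwa [X.inv_inv] at this
          rcases hX.n4 _ _ _ _ l1 l2 (L_symm hyd) (L_symm l3) with h7 | h7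
          · exact hcd h7
          · rw [← h7, X.inv_inv] at h4
            have h8 := n1c hX h1 h4
            rw [← h8] at h3
            refine upa.2 (X.inv p) ⟨u2, ?_⟩ (L2 h3)
            rw [X.inv_inv]
            exact h5

theorem pp (hX : X.NPC) (n : ℕ) : PP X v₀ n := by
  induction n with
  | zero =>
    intro z hz hg
    have : z = [] := List.eq_nil_of_length_eq_zero (Nat.le_zero.1 hz)
    subst this
    refine ⟨fun z' hz' => ?_, fun x w x' w' h => by simp at h⟩
    have := hz'.length
    have h2 : z' = [] := List.eq_nil_of_length_eq_zero this.symm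
    subst h2
    exact hg
  | succ n ih =>
    intro z hz hg
    have hgood : ∀ z', X.E z z' → X.Good v₀ z' := by
      intro z' hz'
      induction hz' with
      | refl => exact hg
      | tail h1 h2 ih' => exact sw_good hX ih (by rw [← E.length h1]; exact hz) ih' h2
    refine ⟨hgood, ?_⟩
    rintro x w x' w' rfl hE
    have key : ∀ z', X.E (x :: w) z' → ∀ x' w', z' = x' :: w' → Lev X x w x' w' := by
      intro z' hz'
      induction hz' with
      | refl =>
        rintro x' w' h
        simp only [List.cons.injEq] at h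
        exact Or.inl ⟨h.1, h.2 ▸ ReflTransGen.refl⟩
      | @tail z1 z2 h1 h2 ih' =>
        rintro x' w' rfl
        have hg1 := hgood z1 h1
        have hlen1 : z1.length ≤ n + 1 := by rw [← E.length h1]; exact hz
        cases h2 with
        | @cons _ w1 _ h3 =>
          rcases ih' _ _ rfl with ⟨h4, h5⟩ | ⟨e, u, p, q, h4, h5, h6, h7⟩
          · exact Or.inl ⟨h4, h5.tail h3⟩
          · exact Or.inr ⟨e, u, p, q, h4, h5, h6,
              (ReflTransGen.single h3.symm).trans h7⟩
        | @here c d h g e' u1 h3 h4 =>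
          -- `z1 = d :: c :: u1`, `z2 = g :: h :: u1`, `c e' = h`, `e' g = d`
          rcases ih' _ _ rfl with ⟨h5, h6⟩ | ⟨e, u, p, q, h5, h6, h7, h8⟩
          · subst h5
            exact Or.inr ⟨e', u1, c, h, h3, h4, h6, ReflTransGen.refl⟩
          · have hlev := (ih (c :: u1) (by simpa using hlen1) hg1.tail).2 c u1 q u rfl h8
            have l1 : X.L (X.inv c) e' := L2 h3
            have l2 : X.L e' d := ⟨_, h4⟩
            have l3 : X.L (X.inv e) d := L2 h6
            have l4 : X.L (X.inv q) (X.inv e) := L3 h5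
            rcases hlev with ⟨h9, h10⟩ | ⟨e2, u2, p2, q2, h9, h10, h11, h12⟩
            · subst h9
              rcases hX.n4 _ _ _ _ l4 l3 (L_symm l2) (L_symm l1) with h11 | h11
              · exfalso
                exact hg1.up.1 (h11 ▸ dn_self c u1)
              · subst h11
                have e1 := n1b hX (cp1 h5) h3
                refine Or.inl ⟨?_, ?_⟩
                · have e3 : X.cp (X.inv e) x d := cp2 h6
                  exact hX.n1 _ _ _ _ e3 h4
                · rw [← e1]
                  exact h7.trans (E.cons p h10.symm)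
            · exfalso
              have l5 : X.L (X.inv c) (X.inv q) := L3 h10
              exact hX.n5 _ _ _ _ _ l5 l4 l3 (L_symm l2) (L_symm l1)
    exact key _ hE _ _ rfl

end TC

end Pool.Agent.Helper3.FJ
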