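import Pool.Agent.Helper3.FJ.NF

/-!
# The action of darts on geodesic words
-/

set_option autoImplicit false

namespace Pool.Agent.Helper3.FJ

open Relation

namespace TC

variable {V D : Type} {X : TC V D} {v₀ : V} (hX : X.NPC)

include hX

theorem good_of_E {z z' : List D} (hg : X.Good v₀ z) (h : X.E z z') : X.Good v₀ z' :=
  (pp hX z.length z le_rfl hg).1 z' h

theorem levi {x x' : D} {w w' : List D} (hg : X.Good v₀ (x :: w)) (h : X.E (x :: w) (x' :: w')) :
    Lev X x w x' w' :=
  (pp hX _ _ le_rfl hg).2 _ _ _ _ rfl h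

omit hX in
variable (X) in
/-- `w'` is the result of the action of the dart `x` on the word `w`. -/
inductive Act (w : List D) (x : D) (w' : List D) : Prop
  | down : X.E w (X.inv x :: w') → Act w x w'
  | side (y z : D) (u : List D) : ¬ X.Dn w x → X.E w (X.inv y :: u) → X.cp y z x →
      X.E w' (z :: u) → Act w x w'
  | up : X.Up w x → X.E w' (x :: w) → Act w x w'

omit hX in
theorem Act.congr_right {w w' w'' : List D} {x : D} (h : X.Act w x w') (h' : X.E w'' w') :
    X.Act w x w'' := by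
  cases h with
  | down h1 => exact Act.down (h1.trans (E.cons _ (E.symm h')))
  | side y z u h1 h2 h3 h4 => exact Act.side y z u h1 h2 h3 (h'.trans h4)
  | up h1 h2 => exact Act.up h1 (h'.trans h2)

omit hX in
theorem Act.congr_left {w w' w'' : List D} {x : D} (h : X.Act w x w') (h' : X.E w w'') :
    X.Act w'' x w' := by
  cases h with
  | down h1 => exact Act.down ((E.symm h').trans h1)
  | side y z u h1 h2 h3 h4 =>
    exact Act.side y z u (fun h5 => h1 (h5.congr (E.symm h'))) ((E.symm h').trans h2) h3 h4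
  | up h1 h2 => exact Act.up (h1.congr h') (h2.trans (E.cons x h'))

theorem side_good {w u : List D} {x y z : D} (hg : X.Good v₀ w) (h1 : ¬ X.Dn w x)
    (h2 : X.E w (X.inv y :: u)) (h3 : X.cp y z x) : X.Good v₀ (z :: u) := by
  have hg2 := good_of_E hX hg h2
  refine Good.cons hg2.tail ?_ ⟨fun hz => ?_, fun y2 hy2 hyz => ?_⟩
  · rw [← hg2.src_eq, ← cp_mid h3]
  · exact hg2.up.2 z hz (L_symm (L2 h3))
  · obtain ⟨u2, hu2⟩ := hy2
    obtain ⟨k, hk⟩ := hyz
    refine h1 ⟨k :: u2, h2.trans ((E.cons _ hu2).trans ?_)⟩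
    exact E.here u2 (cp2 hk) (cp3 h3)

theorem Act.good {w w' : List D} {x : D} (hg : X.Good v₀ w) (hx : X.src x = X.End v₀ w)
    (h : X.Act w x w') : X.Good v₀ w' := by
  cases h with
  | down h1 => exact (good_of_E hX hg h1).tail
  | side y z u h1 h2 h3 h4 => exact good_of_E hX (side_good hX hg h1 h2 h3) (E.symm h4)
  | up h1 h2 => exact good_of_E hX (Good.cons hg hx h1) (E.symm h2)

theorem Act.end_eq {w w' : List D} {x : D} (hg : X.Good v₀ w) (h : X.Act w x w') :
    X.End v₀ w' = X.tgt x := by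
  cases h with
  | down h1 => exact (good_of_E hX hg h1).src_eq.symm
  | side y z u h1 h2 h3 h4 =>
    rw [E.end_eq h4]
    exact cp_tgt h3
  | up h1 h2 => rw [E.end_eq h2]; rfl

omit hX in
theorem exists_act (w : List D) (x : D) : ∃ w', X.Act w x w' := by
  by_cases h1 : X.Dn w x
  · obtain ⟨w', hw'⟩ := h1
    exact ⟨w', Act.down hw'⟩
  · by_cases h2 : ∃ y, X.Dn w y ∧ X.L y x
    · obtain ⟨y, ⟨u, hu⟩, z, hz⟩ := h2
      exact ⟨z :: u, Act.side y z u h1 hu hz ReflTransGen.refl⟩
    · push Not at h2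
      exact ⟨x :: w, Act.up ⟨h1, h2⟩ ReflTransGen.refl⟩

theorem Act.unique {w w₁ w₂ : List D} {x : D} (hg : X.Good v₀ w) (h₁ : X.Act w x w₁)
    (h₂ : X.Act w x w₂) : X.E w₁ w₂ := by
  cases h₁ with
  | down h1 =>
    cases h₂ with
    | down h2 =>
      rcases levi hX (good_of_E hX hg h1) ((E.symm h1).trans h2) with
        ⟨-, h3⟩ | ⟨e, u, p, q, h3, h4, -⟩
      · exact h3
      · exact (n0b hX h4).elim
    | side y z u h2 h3 h4 h5 => exact (h2 ⟨_, h1⟩).elim
    | up h2 h3 => exact (h2.1 ⟨_, h1⟩).elim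
  | side y z u h1 h2 h3 h4 =>
    cases h₂ with
    | down h5 => exact (h1 ⟨_, h5⟩).elim
    | side y' z' u' h5 h6 h7 h8 =>
      rcases levi hX (good_of_E hX hg h2) ((E.symm h2).trans h6) with
        ⟨h9, h10⟩ | ⟨e, u2, p, q, h9, h10, -⟩
      · have h11 := inv_inj h9
        subst h11
        have h12 := hX.n1 _ _ _ _ h3 h7
        subst h12
        exact h4.trans ((E.cons z h10).trans (E.symm h8))
      · exfalso
        have l1 : X.L y y' := by
          have := L3 h10
          rwa [X.inv_inv, X.inv_inv] at this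
        exact hX.n3 _ _ _ l1 ⟨_, h7⟩ (L_symm ⟨_, h3⟩)
    | up h5 h6 => exact (h5.2 y ⟨u, h2⟩ ⟨z, h3⟩).elim
  | up h1 h2 =>
    cases h₂ with
    | down h3 => exact (h1.1 ⟨_, h3⟩).elim
    | side y z u h3 h4 h5 h6 => exact (h1.2 y ⟨u, h4⟩ ⟨z, h5⟩).elim
    | up h3 h4 => exact h2.trans (E.symm h4)

theorem Act.symm {w w' : List D} {x : D} (hg : X.Good v₀ w) (hx : X.src x = X.End v₀ w)
    (h : X.Act w x w') : X.Act w' (X.inv x) w := by
  have hg' := h.good hX hg hx
  cases h with
  | down h1 => exact Act.up (good_of_E hX hg h1).up h1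
  | side y z u h1 h2 h3 h4 =>
    refine Act.side (X.inv z) (X.inv y) u (fun h5 => ?_) (by rw [X.inv_inv]; exact h4)
      (cp5 h3) h2
    obtain ⟨w'', hw''⟩ := h5
    rw [X.inv_inv] at hw''
    have hgz := good_of_E hX hg' h4
    rcases levi hX hgz ((E.symm h4).trans hw'') with ⟨h6, -⟩ | ⟨e, u2, p, q, h6, h7, h8, -⟩
    · rw [h6] at h3
      exact n0b hX h3
    · have h12 := n1c hX (cp2 h3) h7
      rw [← h12] at h6
      refine (good_of_E hX hg h2).up.2 (X.inv p) ⟨u2, ?_⟩ (L2 h6)
      rw [X.inv_inv]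
      exact h8
  | up h1 h2 => exact Act.down (by rw [X.inv_inv]; exact h2)

/-- The relations of the triangles. -/
theorem Act.tri {w w₁ w₃ : List D} {a b c : D} (hg : X.Good v₀ w) (ha : X.src a = X.End v₀ w)
    (h : X.cp a b c) (h₁ : X.Act w a w₁) (h₃ : X.Act w c w₃) : X.Act w₁ b w₃ := by
  have hc : X.src c = X.End v₀ w := by rw [← cp_src h, ha]
  have lac : X.L a c := ⟨b, h⟩
  -- the case distinction is symmetric in `a` and `c`
  have key : ∀ {a b c : D} {w₁ w₃ : List D}, X.src a = X.End v₀ w → X.src c = X.End v₀ w →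
      X.cp a b c → X.Act w a w₁ → X.Act w c w₃ → (X.Dn w a ∨ (¬ X.Dn w c ∧ ¬ X.Up w a) ∨
        (X.Up w a ∧ X.Up w c)) → X.Act w₁ b w₃ := by
    intro a b c w₁ w₃ ha hc h h₁ h₃ hcase
    have lac : X.L a c := ⟨b, h⟩
    have hg₁ := h₁.good hX hg ha
    have hg₃ := h₃.good hX hg hc
    cases h₁ with
    | down h1 =>
      have hga := good_of_E hX hg h1
      have lb : X.L (X.inv a) b := L2 h
      cases h₃ with
      | down h2 =>
        rcases levi hX hga ((E.symm h1).trans h2) with ⟨h3, -⟩ | ⟨e, u, p, q, h3, h4, h5, h6⟩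
        · rw [inv_inj h3] at h
          exact (hX.n0 _ _ h).elim
        · have h7 : e = b := by
            have h9 := cp4 h4
            rw [X.inv_inv, X.inv_inv] at h9
            exact hX.n1 _ _ _ _ h9 h
          subst h7
          refine Act.side (X.inv p) q u (fun h8 => hga.up.2 _ h8 (L_symm lb)) ?_ (cp2 h3) h6
          rw [X.inv_inv]
          exact h5
      | side y z u h2 h3 h4 h5 =>
        rcases levi hX (good_of_E hX hg h1) ((E.symm h1).trans h3) with
          ⟨h6, h7⟩ | ⟨e, u2, p, q, h6, h7, -⟩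
        · have h8 := inv_inj h6
          subst h8
          have h9 := hX.n1 _ _ _ _ h h4
          subst h9
          have h10 : X.E w₃ (b :: w₁) := h5.trans (E.cons b (E.symm h7))
          exact Act.up (good_of_E hX hg₃ h10).up h10
        · exfalso
          have l1 : X.L a y := by
            have := L3 h7
            rwa [X.inv_inv, X.inv_inv] at this
          exact hX.n3 _ _ _ l1 ⟨_, h4⟩ (L_symm lac)
      | up h2 h3 => exact (h2.2 a ⟨_, h1⟩ lac).elim
    | side y z u h1 h2 h3 h4 =>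
      cases h₃ with
      | down h5 =>
        rcases hcase with h6 | ⟨h6, -⟩ | ⟨h6, -⟩
        · exact (h1 h6).elim
        · exact (h6 ⟨_, h5⟩).elim
        · exact (h6.2 y ⟨u, h2⟩ ⟨z, h3⟩).elim
      | side y' z' u' h5 h6 h7 h8 =>
        exfalso
        rcases levi hX (good_of_E hX hg h2) ((E.symm h2).trans h6) with
          ⟨h9, -⟩ | ⟨e, u2, p, q, h9, h10, -⟩
        · rw [← inv_inj h9] at h7
          exact hX.n3 _ _ _ ⟨_, h3⟩ lac (L_symm ⟨_, h7⟩)
        · have l1 : X.L y y' := by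
            have := L3 h10
            rwa [X.inv_inv, X.inv_inv] at this
          rcases hX.n4 _ _ _ _ ⟨_, h3⟩ lac (L_symm ⟨_, h7⟩) (L_symm l1) with h11 | h11
          · exact h5 (h11 ▸ ⟨u, h2⟩)
          · exact h1 (h11 ▸ ⟨u', h6⟩)
      | up h5 h6 =>
        have h7 : X.E w₃ (b :: w₁) := by
          refine h6.trans ((E.cons c h2).trans ?_)
          refine (E.here u (cp2 h3) h).trans (E.cons b (E.symm h4))
        exact Act.up (good_of_E hX hg₃ h7).up h7
    | up h1 h2 =>
      cases h₃ with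
      | down h3 => exact (h1.2 c ⟨_, h3⟩ (L_symm lac)).elim
      | side y z u h3 h4 h5 h6 =>
        exfalso
        rcases hcase with h7 | ⟨-, h7⟩ | ⟨-, h7⟩
        · exact h1.1 h7
        · exact h7 h1
        · exact h7.2 y ⟨u, h4⟩ ⟨z, h5⟩
      | up h3 h4 =>
        refine Act.side (X.inv a) c w (fun h5 => ?_) (by rw [X.inv_inv]; exact h2) (cp2 h) h4
        obtain ⟨w'', hw''⟩ := h5
        have hga := good_of_E hX hg₁ h2
        rcases levi hX hga ((E.symm h2).trans hw'') with ⟨h6, -⟩ | ⟨e, u, p, q, h6, h7, h8, -⟩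
        · have h7 : b = X.inv a := by rw [h6, X.inv_inv]
          rw [h7] at h
          exact n0c hX h
        · have h9 : X.cp c (X.inv b) a := cp1 h
          have h10 := n1c hX h9 h7
          rw [← h10] at h6
          refine h3.2 (X.inv p) ⟨u, ?_⟩ (L2 h6)
          rw [X.inv_inv]
          exact h8
  by_cases h1 : X.Dn w a
  · exact key ha hc h h₁ h₃ (Or.inl h1)
  by_cases h2 : X.Dn w c
  · have h4 := key hc ha (cp1 h) h₃ h₁ (Or.inl h2)
    have h5 := h4.symm hX (h₃.good hX hg hc) ?_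
    · rwa [X.inv_inv] at h5
    · rw [h₃.end_eq hX hg]
      change X.tgt b = X.tgt c
      exact cp_tgt h
  by_cases h3 : X.Up w a
  · by_cases h4 : X.Up w c
    · exact key ha hc h h₁ h₃ (Or.inr (Or.inr ⟨h3, h4⟩))
    · have h5 := key hc ha (cp1 h) h₃ h₁ (Or.inr (Or.inl ⟨h1, h4⟩))
      have h6 := h5.symm hX (h₃.good hX hg hc) ?_
      · rwa [X.inv_inv] at h6
      · rw [h₃.end_eq hX hg]
        change X.tgt b = X.tgt c
        exact cp_tgt h
  · exact key ha hc h h₁ h₃ (Or.inr (Or.inl ⟨h2, h3⟩))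

end TC

end Pool.Agent.Helper3.FJ
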