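import Pool.Agent.Helper3.FJ.NF2

/-!
# Uniqueness of geodesic words in simply connected triangle complexes
-/

set_option autoImplicit false

namespace Pool.Agent.Helper3.FJ

open Relation

namespace TC

variable {V D : Type} (X : TC V D)

/-- There is a dart from `u` to `v`. -/
def Adj (u v : V) : Prop := ∃ d, X.src d = u ∧ X.tgt d = v

/-- `X` is connected and simply connected. -/
def SimplyConn : Prop :=
  Nonempty V ∧ (∀ u v, ReflTransGen X.Adj u v) ∧
    ∀ (H : Type) [Group H] (c : D → H), (∀ d, c d * c (X.inv d) = 1) →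
      (∀ a b e, X.tri a b e → c a * c b * c e = 1) →
        ∃ g : V → H, ∀ d, c d = (g (X.src d))⁻¹ * g (X.tgt d)

variable (v₀ : V)

/-- The geodesic words ending at `v`. -/
def Wd (v : V) : Type := {w : List D // X.Good v₀ w ∧ X.End v₀ w = v}

/-- Words up to rhombus moves. -/
def fs (v : V) : Setoid (X.Wd v₀ v) where
  r a b := X.E a.1 b.1
  iseqv := ⟨fun _ => ReflTransGen.refl, fun h => E.symm h, fun h h' => ReflTransGen.trans h h'⟩

/-- The fibre over `v`. -/
def Fb (v : V) : Type := Quotient (fs X v₀ v)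

variable {X} {v₀}

/-- The class of a word. -/
def cl {v : V} (a : X.Wd v₀ v) : Fb X v₀ v := Quotient.mk (fs X v₀ v) a

theorem cl_eq {v : V} {a b : X.Wd v₀ v} : cl a = cl b ↔ X.E a.1 b.1 :=
  ⟨fun h => Quotient.exact h, fun h => Quotient.sound h⟩

theorem cl_surj {v : V} (x : Fb X v₀ v) : ∃ a, cl a = x := Quotient.exists_rep x

variable (hX : X.NPC)

/-- The result of the action. -/
noncomputable def rs (hX : X.NPC) (d : D) {u v : V} (hu : X.src d = u) (hv : X.tgt d = v)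
    (a : X.Wd v₀ u) : X.Wd v₀ v :=
  ⟨(exists_act a.1 d).choose,
    ((exists_act a.1 d).choose_spec).good hX a.2.1 (by rw [hu, a.2.2]),
    by rw [((exists_act a.1 d).choose_spec).end_eq hX a.2.1, hv]⟩

theorem rs_act (d : D) {u v : V} (hu : X.src d = u) (hv : X.tgt d = v) (a : X.Wd v₀ u) :
    X.Act a.1 d (rs hX d hu hv a).1 := (exists_act a.1 d).choose_spec

/-- The transport. -/
noncomputable def trf (d : D) {u v : V} (hu : X.src d = u) (hv : X.tgt d = v) :
    Fb X v₀ u → Fb X v₀ v :=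
  Quotient.lift (s := fs X v₀ u) (fun a => cl (rs hX d hu hv a)) (fun a b hab => by
    rw [cl_eq]
    exact ((rs_act hX d hu hv a).congr_left hab).unique hX b.2.1 (rs_act hX d hu hv b))

theorem trf_cl (d : D) {u v : V} (hu : X.src d = u) (hv : X.tgt d = v) {a : X.Wd v₀ u}
    {b : X.Wd v₀ v} (h : X.Act a.1 d b.1) : trf hX d hu hv (cl a) = cl b := by
  change cl (rs hX d hu hv a) = cl b
  rw [cl_eq]
  exact (rs_act hX d hu hv a).unique hX a.2.1 h

theorem exists_trf (d : D) {u v : V} (hu : X.src d = u) (hv : X.tgt d = v) (x : Fb X v₀ u) :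
    ∃ (a : X.Wd v₀ u) (b : X.Wd v₀ v), cl a = x ∧ cl b = trf hX d hu hv x ∧ X.Act a.1 d b.1 := by
  obtain ⟨a, rfl⟩ := cl_surj x
  exact ⟨a, rs hX d hu hv a, rfl, rfl, rs_act hX d hu hv a⟩

theorem trf_inv (d : D) {u v : V} (hu : X.src d = u) (hv : X.tgt d = v)
    (hu' : X.tgt (X.inv d) = u) (x : Fb X v₀ u) :
    trf hX (X.inv d) hv hu' (trf hX d hu hv x) = x := by
  obtain ⟨a, b, rfl, hb, hab⟩ := exists_trf hX d hu hv x
  rw [← hb]
  refine trf_cl hX _ _ _ (hab.symm hX a.2.1 ?_)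
  rw [hu, a.2.2]

theorem trf_inv' (d : D) {u v : V} (hu : X.src d = u) (hv : X.tgt d = v)
    (hu' : X.tgt (X.inv d) = u) (x : Fb X v₀ v) :
    trf hX d hu hv (trf hX (X.inv d) hv hu' x) = x := by
  obtain ⟨a, b, rfl, hb, hab⟩ := exists_trf hX (X.inv d) hv hu' x
  rw [← hb]
  refine trf_cl hX _ _ _ ?_
  have := hab.symm hX a.2.1 (by rw [a.2.2]; exact hv)
  rwa [X.inv_inv] at this

/-- The transport as an equivalence. -/
noncomputable def trE (d : D) {u v : V} (hu : X.src d = u) (hv : X.tgt d = v) :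
    Fb X v₀ u ≃ Fb X v₀ v where
  toFun := trf hX d hu hv
  invFun := trf hX (X.inv d) hv (by rw [tgt_inv, hu])
  left_inv := trf_inv hX d hu hv _
  right_inv := trf_inv' hX d hu hv _

theorem trf_tri {a b c : D} (h : X.cp a b c) {u v w : V} (hu : X.src a = u) (hv : X.tgt a = v)
    (hv' : X.src b = v) (hw : X.tgt b = w) (hu' : X.src c = u) (hw' : X.tgt c = w)
    (x : Fb X v₀ u) : trf hX b hv' hw (trf hX a hu hv x) = trf hX c hu' hw' x := by
  obtain ⟨p, q, rfl, hq, hpq⟩ := exists_trf hX a hu hv x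
  obtain ⟨p', r, hp', hr, hpr⟩ := exists_trf hX c hu' hw' (cl p)
  have h1 := hpr.congr_left (cl_eq.1 hp')
  rw [← hq, ← hr]
  exact trf_cl hX _ _ _ (Act.tri hX p.2.1 (by rw [hu, p.2.2]) h hpq h1)

include hX

theorem nonempty_equiv (hconn : ∀ u v, ReflTransGen X.Adj u v) (v : V) :
    Nonempty (Fb X v₀ v ≃ Fb X v₀ v₀) := by
  have h := hconn v₀ v
  induction h with
  | refl => exact ⟨Equiv.refl _⟩
  | tail _ h2 ih =>
    obtain ⟨d, hd1, hd2⟩ := h2
    exact ⟨(trE hX d hd1 hd2).symm.trans ih.some⟩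

theorem exists_good (hconn : ∀ u v, ReflTransGen X.Adj u v) (v : V) :
    ∃ w, X.Good v₀ w ∧ X.End v₀ w = v := by
  have h := hconn v₀ v
  induction h with
  | refl => exact ⟨[], Good.nil, rfl⟩
  | tail _ h2 ih =>
    obtain ⟨d, hd1, hd2⟩ := h2
    obtain ⟨w, hw, hwe⟩ := ih
    obtain ⟨w', hw'⟩ := exists_act (X := X) w d
    exact ⟨w', hw'.good hX hw (by rw [hd1, hwe]), by rw [hw'.end_eq hX hw, hd2]⟩

/-- Geodesic words with the same endpoints differ by rhombus moves. -/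
theorem unique_good (hS : X.SimplyConn) {w w' : List D} (hw : X.Good v₀ w) (hw' : X.Good v₀ w')
    (he : X.End v₀ w = X.End v₀ w') : X.E w w' := by
  classical
  obtain ⟨-, hconn, hsc⟩ := hS
  let τ : ∀ v, Fb X v₀ v ≃ Fb X v₀ v₀ := fun v => (nonempty_equiv (v₀ := v₀) hX hconn v).some
  let c : D → Equiv.Perm (Fb X v₀ v₀) := fun d =>
    (τ (X.tgt d)).symm.trans ((trE hX d rfl rfl).symm.trans (τ (X.src d)))
  have hc : ∀ (d : D) {u v : V} (hu : X.src d = u) (hv : X.tgt d = v) (hu' : X.tgt (X.inv d) = u)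
      (x : Fb X v₀ v₀), c d x = τ u (trf hX (X.inv d) hv hu' ((τ v).symm x)) := by
    intro d u v hu hv hu' x
    subst hu
    subst hv
    rfl
  obtain ⟨g, hg⟩ := hsc (Equiv.Perm (Fb X v₀ v₀)) c (fun d => by
    ext x
    rw [Equiv.Perm.mul_apply, hc (X.inv d) (u := X.tgt d) (v := X.src d) rfl (tgt_inv d)
      (by rw [X.inv_inv]), hc d rfl rfl (tgt_inv d), Equiv.symm_apply_apply]
    have h1 : ∀ (y : Fb X v₀ (X.src d)) (h1 : X.src (X.inv (X.inv d)) = X.src d)
        (h2 : X.tgt (X.inv (X.inv d)) = X.tgt d),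
        trf hX (X.inv d) rfl (tgt_inv d) (trf hX (X.inv (X.inv d)) h1 h2 y) = y := by
      rw [X.inv_inv]
      intro y h1 h2
      exact trf_inv hX d h1 h2 _ y
    rw [h1, Equiv.apply_symm_apply]
    rfl) (fun a b e h => by
    -- `a b = e⁻¹`
    have h1 : X.cp a b (X.inv e) := by rw [cp, X.inv_inv]; exact h
    have ha := cp_mid h1
    have hb : X.tgt b = X.src e := by rw [cp_tgt h1, tgt_inv]
    have he' : X.tgt e = X.src a := (cp_src h1).symm
    ext x
    rw [Equiv.Perm.mul_apply, Equiv.Perm.mul_apply,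
      hc e (u := X.src e) (v := X.src a) rfl he' (tgt_inv e),
      hc b (u := X.src b) (v := X.src e) rfl hb (tgt_inv b), Equiv.symm_apply_apply,
      hc a (u := X.src a) (v := X.src b) rfl ha (tgt_inv a), Equiv.symm_apply_apply]
    have h2 : X.cp (X.inv b) (X.inv a) e := by
      have := cp5 h1
      rwa [X.inv_inv] at this
    rw [trf_tri hX h2 hb (tgt_inv b) ha (tgt_inv a) rfl he']
    rw [trf_inv' hX e rfl he' (tgt_inv e), Equiv.apply_symm_apply]
    rfl)
  let ξ : Fb X v₀ v₀ := g v₀ (τ v₀ (cl ⟨[], Good.nil, rfl⟩))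
  let σ : ∀ v, Fb X v₀ v := fun v => (τ v).symm ((g v)⁻¹ ξ)
  have hσ0 : σ v₀ = cl ⟨[], Good.nil, rfl⟩ := by
    have e1 : ∀ y, (g v₀)⁻¹ (g v₀ y) = y := fun y => by
      rw [← Equiv.Perm.mul_apply, inv_mul_cancel, Equiv.Perm.one_apply]
    change (τ v₀).symm ((g v₀)⁻¹ (g v₀ (τ v₀ (cl ⟨[], Good.nil, rfl⟩)))) = _
    exact (congrArg (τ v₀).symm (e1 _)).trans (Equiv.symm_apply_apply _ _)
  have hσ : ∀ d, trf hX d rfl rfl (σ (X.src d)) = σ (X.tgt d) := by
    intro d
    have h1 := congrArg (fun f : Equiv.Perm (Fb X v₀ v₀) => f ((g (X.tgt d))⁻¹ ξ)) (hg d)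
    have e1 : g (X.tgt d) ((g (X.tgt d))⁻¹ ξ) = ξ := by
      rw [← Equiv.Perm.mul_apply, mul_inv_cancel, Equiv.Perm.one_apply]
    simp only [Equiv.Perm.mul_apply] at h1
    rw [hc d rfl rfl (tgt_inv d), e1] at h1
    have h2 : trf hX (X.inv d) rfl (tgt_inv d) (σ (X.tgt d)) = σ (X.src d) := by
      apply (τ (X.src d)).injective
      change _ = τ (X.src d) ((τ (X.src d)).symm ((g (X.src d))⁻¹ ξ))
      rw [Equiv.apply_symm_apply, ← h1]
    rw [← h2]
    exact trf_inv' hX d rfl rfl _ _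
  have key : ∀ w, ∀ hw : X.Good v₀ w, cl ⟨w, hw, rfl⟩ = σ (X.End v₀ w) := by
    intro w
    induction w with
    | nil =>
      intro hw
      exact hσ0.symm
    | cons x w ih =>
      intro hw
      have h1 := ih hw.tail
      have h2 : trf hX x hw.src_eq rfl (cl ⟨w, hw.tail, rfl⟩) = cl ⟨x :: w, hw, rfl⟩ :=
        trf_cl hX x _ _ (Act.up hw.up ReflTransGen.refl)
      rw [← h2, h1]
      have h3 : ∀ (u : V) (hu : X.src x = u), trf hX x hu rfl (σ u) = σ (X.tgt x) := by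
        rintro u rfl
        exact hσ x
      exact h3 _ hw.src_eq
  have h1 := key w hw
  have h2 := key w' hw'
  have h3 : ∀ (v : V) (hv : X.End v₀ w = v) (hv' : X.End v₀ w' = v),
      (cl ⟨w, hw, hv⟩ : Fb X v₀ v) = cl ⟨w', hw', hv'⟩ := by
    rintro v rfl hv'
    rw [h1]
    have h4 : ∀ (v : V) (hv' : X.End v₀ w' = v), σ v = cl ⟨w', hw', hv'⟩ := by
      rintro v rfl
      exact h2.symm
    exact h4 _ hv'
  exact cl_eq.1 (h3 _ rfl he.symm)

end TC

end Pool.Agent.Helper3.FJ
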