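import Pool.Agent.Helper3.FJ.NF3

/-!
# Levels in simply connected nonpositively curved triangle complexes
-/

set_option autoImplicit false

namespace Pool.Agent.Helper3.FJ

open Relation

namespace TC

variable {V D : Type} (X : TC V D) (v₀ : V)

/-- The data: `X` is nonpositively curved and simply connected. -/
structure Had : Prop where
  npc : X.NPC
  sc : X.SimplyConn

variable {X} (h : X.Had)

/-- A geodesic word ending at `v`. -/
noncomputable def wd (v : V) : List D := (exists_good (v₀ := v₀) h.npc h.sc.2.1 v).choose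

theorem wd_good (v : V) : X.Good v₀ (wd v₀ h v) :=
  (exists_good (v₀ := v₀) h.npc h.sc.2.1 v).choose_spec.1

theorem wd_end (v : V) : X.End v₀ (wd v₀ h v) = v :=
  (exists_good (v₀ := v₀) h.npc h.sc.2.1 v).choose_spec.2

/-- The level. -/
noncomputable def lv (v : V) : ℕ := (wd v₀ h v).length

/-- `y` leads down from `v`. -/
def DD (v : V) (y : D) : Prop := X.Dn (wd v₀ h v) y

variable {v₀}

theorem good_E {w : List D} (hw : X.Good v₀ w) : X.E (wd v₀ h (X.End v₀ w)) w :=
  unique_good h.npc h.sc (wd_good v₀ h _) hw (wd_end v₀ h _)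

theorem lv_good {w : List D} (hw : X.Good v₀ w) : lv v₀ h (X.End v₀ w) = w.length :=
  E.length (good_E h hw)

theorem DD_iff {w : List D} (hw : X.Good v₀ w) {y : D} :
    DD v₀ h (X.End v₀ w) y ↔ X.Dn w y :=
  ⟨fun h1 => h1.congr (good_E h hw), fun h1 => h1.congr (E.symm (good_E h hw))⟩

/-- A dart leading down. -/
theorem DD_spec {v : V} {y : D} (hy : DD v₀ h v y) : ∃ u, X.Good v₀ (X.inv y :: u) ∧
    X.E (wd v₀ h v) (X.inv y :: u) ∧ X.Good v₀ u ∧ X.End v₀ u = X.tgt y ∧ X.src y = v ∧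
      lv v₀ h v = lv v₀ h (X.tgt y) + 1 := by
  obtain ⟨u, hu⟩ := hy
  have h1 := good_of_E h.npc (wd_good v₀ h v) hu
  have h2 : X.End v₀ u = X.tgt y := h1.src_eq.symm
  refine ⟨u, h1, hu, h1.tail, h2, ?_, ?_⟩
  · have := E.end_eq (v₀ := v₀) hu
    rw [wd_end] at this
    rw [this]
    exact (tgt_inv y).symm
  · have h3 := lv_good h h1.tail
    rw [h2] at h3
    rw [h3]
    exact E.length hu

theorem DD_of_good {y : D} {u : List D} (hg : X.Good v₀ (X.inv y :: u)) :
    DD v₀ h (X.src y) y := by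
  have : X.src y = X.End v₀ (X.inv y :: u) := (tgt_inv y).symm
  rw [this, DD_iff h hg]
  exact ⟨u, ReflTransGen.refl⟩

theorem DD_of_good' {x : D} {u : List D} (hg : X.Good v₀ (x :: u)) :
    DD v₀ h (X.tgt x) (X.inv x) := by
  have := DD_of_good h (y := X.inv x) (u := u) (by rwa [X.inv_inv])
  exact this

/-- Two darts leading down. -/
theorem DD_two {v : V} {y y' : D} (hy : DD v₀ h v y) (hy' : DD v₀ h v y') :
    y = y' ∨ ∃ e p q, X.cp y e y' ∧ X.cp p e q ∧ DD v₀ h (X.tgt y) (X.inv p) ∧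
      DD v₀ h (X.tgt y') (X.inv q) ∧ X.tgt p = X.tgt y ∧ X.tgt q = X.tgt y' := by
  obtain ⟨u, h1, h2, h3, h4, h5, h6⟩ := DD_spec h hy
  obtain ⟨u', h1', h2', h3', h4', h5', h6'⟩ := DD_spec h hy'
  rcases levi h.npc h1 ((E.symm h2).trans h2') with ⟨h7, -⟩ | ⟨e, u2, p, q, h7, h8, h9, h10⟩
  · exact Or.inl (inv_inj h7)
  · right
    have hp : X.tgt p = X.tgt y := by rw [← h4, E.end_eq h9]; rfl
    have hq : X.tgt q = X.tgt y' := by rw [← h4', E.end_eq h10]; rfl
    refine ⟨e, p, q, ?_, h7, ?_, ?_, hp, hq⟩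
    · have := cp4 h8
      rwa [X.inv_inv, X.inv_inv] at this
    · rw [← hp]
      exact DD_of_good' h (good_of_E h.npc h3 h9)
    · rw [← hq]
      exact DD_of_good' h (good_of_E h.npc h3' h10)

/-- The three kinds of darts. -/
theorem cases (d : D) :
    (DD v₀ h (X.src d) d ∧ lv v₀ h (X.src d) = lv v₀ h (X.tgt d) + 1) ∨
    (lv v₀ h (X.src d) = lv v₀ h (X.tgt d) ∧ ∃ y z, DD v₀ h (X.src d) y ∧
      DD v₀ h (X.tgt d) (X.inv z) ∧ X.cp y z d) ∨
    (DD v₀ h (X.tgt d) (X.inv d) ∧ lv v₀ h (X.tgt d) = lv v₀ h (X.src d) + 1) := by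
  obtain ⟨w', hw'⟩ := exists_act (X := X) (wd v₀ h (X.src d)) d
  have hg := wd_good v₀ h (X.src d)
  have hg' := hw'.good h.npc hg (wd_end v₀ h _).symm
  have he' := hw'.end_eq h.npc hg
  have hlen : lv v₀ h (X.tgt d) = w'.length := by rw [← he', lv_good h hg']
  cases hw' with
  | down h1 =>
    left
    refine ⟨⟨w', h1⟩, ?_⟩
    rw [hlen]
    exact E.length h1
  | side y z u h1 h2 h3 h4 =>
    right
    left
    refine ⟨?_, y, z, ⟨u, h2⟩, ?_, h3⟩
    · have e1 : lv v₀ h (X.src d) = (X.inv y :: u).length := E.length h2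
      rw [e1, hlen, E.length h4]
      rfl
    · have h5 := good_of_E h.npc hg' h4
      have h6 := DD_of_good' h h5
      rwa [cp_tgt h3] at h6
  | up h1 h2 =>
    right
    right
    refine ⟨?_, ?_⟩
    · exact DD_of_good' h (good_of_E h.npc hg' h2)
    · rw [hlen, E.length h2]
      rfl

theorem DD_src {v : V} {y : D} (hy : DD v₀ h v y) : X.src y = v :=
  (DD_spec h hy).choose_spec.2.2.2.2.1

theorem DD_lv {v : V} {y : D} (hy : DD v₀ h v y) : lv v₀ h v = lv v₀ h (X.tgt y) + 1 :=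
  (DD_spec h hy).choose_spec.2.2.2.2.2

theorem DD_self {v : V} {y : D} (hy : DD v₀ h v y) : DD v₀ h (X.src y) y := by
  rw [DD_src h hy]
  exact hy

/-- Neighbours of a dart leading down. -/
theorem DD_adj {v : V} {y z d : D} (hy : DD v₀ h v y) (hc : X.cp y z d) :
    DD v₀ h v d ∨ (lv v₀ h (X.tgt d) = lv v₀ h v ∧ DD v₀ h (X.tgt d) (X.inv z)) := by
  by_cases hd : DD v₀ h v d
  · exact Or.inl hd
  right
  obtain ⟨u, h1, h2, h3, h4, h5, h6⟩ := DD_spec h hy
  have h7 := side_good h.npc (wd_good v₀ h v) hd h2 hc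
  have h8 : X.End v₀ (z :: u) = X.tgt d := cp_tgt hc
  constructor
  · rw [← h8, lv_good h h7]
    exact (E.length h2).symm
  · rw [← h8]
    exact DD_of_good' h h7

include h in
theorem no_loop (d : D) : X.src d ≠ X.tgt d := by
  obtain ⟨v₀⟩ := h.sc.1
  have key : ∀ n, ∀ d : D, lv v₀ h (X.src d) = n → X.src d ≠ X.tgt d := by
    intro n
    induction n using Nat.strong_induction_on with
    | _ n ih =>
      intro d hn hd
      rcases cases (v₀ := v₀) h d with ⟨-, h1⟩ | ⟨-, y, z, h1, h2, h3⟩ | ⟨-, h1⟩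
      · rw [hd] at h1
        omega
      · rw [← hd] at h2
        rcases DD_two h h1 h2 with h4 | ⟨e, p, q, h4, -⟩
        · have : z = X.inv y := by rw [h4, X.inv_inv]
          rw [this] at h3
          exact n0c h.npc h3
        · have h5 : X.src e = X.tgt y := (cp_mid h4).symm
          refine ih (lv v₀ h (X.src e)) ?_ e rfl ?_
          · have := DD_lv h h1
            rw [h5]
            omega
          · rw [h5, cp_tgt h4, tgt_inv, cp_mid h3]
      · rw [hd] at h1
        omega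
  exact key _ d rfl

include h in
theorem no_multi (d₁ d₂ : D) (hs : X.src d₁ = X.src d₂) (ht : X.tgt d₁ = X.tgt d₂) :
    d₁ = d₂ := by
  obtain ⟨v₀⟩ := h.sc.1
  have key : ∀ n, ∀ d₁ d₂ : D, lv v₀ h (X.src d₁) = n → X.src d₁ = X.src d₂ →
      X.tgt d₁ = X.tgt d₂ → d₁ = d₂ := by
    intro n
    induction n using Nat.strong_induction_on with
    | _ n ih =>
      intro d₁ d₂ hn hs ht
      have hdown : ∀ (v : V) (d₁ d₂ : D), DD v₀ h v d₁ → DD v₀ h v d₂ → X.tgt d₁ = X.tgt d₂ →
          d₁ = d₂ := by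
        intro v d₁ d₂ h1 h2 ht
        rcases DD_two h h1 h2 with h3 | ⟨e, p, q, h3, -⟩
        · exact h3
        · exfalso
          refine no_loop h e ?_
          rw [← cp_mid h3, cp_tgt h3, ht]
      rcases cases (v₀ := v₀) h d₁ with ⟨h1, h1'⟩ | ⟨h1', y₁, z₁, h1, h2, h3⟩ | ⟨h1, h1'⟩
      · rcases cases (v₀ := v₀) h d₂ with ⟨h4, -⟩ | ⟨h4, -⟩ | ⟨-, h4⟩
        · rw [← hs] at h4
          exact hdown _ _ _ h1 h4 ht
        · rw [← hs, ← ht] at h4
          omega
        · rw [← hs, ← ht] at h4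
          omega
      · rcases cases (v₀ := v₀) h d₂ with ⟨-, h4⟩ | ⟨h4', y₂, z₂, h4, h5, h6⟩ | ⟨-, h4⟩
        · rw [← hs, ← ht] at h4
          omega
        · rw [← hs] at h4
          rw [← ht] at h5
          have s1 : X.src z₁ = X.tgt y₁ := (cp_mid h3).symm
          have s2 : X.src z₂ = X.tgt y₂ := (cp_mid h6).symm
          rcases DD_two h h1 h4 with h7 | ⟨e, p, q, h7, -⟩
          · subst h7
            have h8 : X.inv z₁ = X.inv z₂ := hdown _ _ _ h2 h5 (by
              rw [tgt_inv, tgt_inv, s1, s2])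
            have h9 := inv_inj h8
            subst h9
            exact n1b h.npc h3 h6
          · exfalso
            rcases DD_two h h2 h5 with h8 | ⟨e', p', q', h8, -⟩
            · refine no_loop h e ?_
              rw [← cp_mid h7, cp_tgt h7, ← s1, ← s2, inv_inj h8]
            · have h9 : e = e' := by
                refine ih (lv v₀ h (X.src e)) ?_ e e' rfl ?_ ?_
                · have := DD_lv h h1
                  rw [← cp_mid h7]
                  omega
                · rw [← cp_mid h7, ← cp_mid h8, tgt_inv, s1]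
                · rw [cp_tgt h7, cp_tgt h8, tgt_inv, s2]
              subst h9
              have l1 : X.L (X.inv y₁) e := L2 h7
              have l2 : X.L z₁ e := by
                have := L2 h8
                rwa [X.inv_inv] at this
              have l3 : X.L (X.inv y₁) z₁ := L2 h3
              exact h.npc.n3 _ _ _ l3 l2 (L_symm l1)
        · rw [← hs, ← ht] at h4
          omega
      · rcases cases (v₀ := v₀) h d₂ with ⟨-, h4⟩ | ⟨h4, -⟩ | ⟨h4, -⟩
        · rw [← hs, ← ht] at h4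
          omega
        · rw [← hs, ← ht] at h4
          omega
        · rw [← ht] at h4
          exact inv_inj (hdown _ _ _ h1 h4 (by rw [tgt_inv, tgt_inv, hs]))
  exact key _ d₁ d₂ rfl hs ht

/-- The apex of a horizontal dart is unique. -/
theorem apex_unique {v : V} {y y' z z' d : D} (hy : DD v₀ h v y) (hy' : DD v₀ h v y')
    (h1 : X.cp y z d) (h2 : X.cp y' z' d) : y = y' ∧ z = z' := by
  rcases DD_two h hy hy' with h3 | ⟨e, p, q, h3, -⟩
  · subst h3
    exact ⟨rfl, h.npc.n1 _ _ _ _ h1 h2⟩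
  · exact (h.npc.n3 _ _ _ ⟨e, h3⟩ ⟨_, h2⟩ (L_symm ⟨_, h1⟩)).elim

/-- The base point has level zero. -/
theorem lv_eq_zero {v : V} (hv : lv v₀ h v = 0) : v = v₀ := by
  have h1 : wd v₀ h v = [] := List.eq_nil_of_length_eq_zero hv
  have h2 := wd_end v₀ h v
  rw [h1] at h2
  exact h2.symm

theorem exists_DD {v : V} (hv : v ≠ v₀) : ∃ y, DD v₀ h v y := by
  rcases hw : wd v₀ h v with _ | ⟨x, u⟩
  · exact (hv (lv_eq_zero h (by rw [lv, hw]; rfl))).elim
  · refine ⟨X.inv x, u, ?_⟩
    rw [hw, X.inv_inv]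

end TC

end Pool.Agent.Helper3.FJ
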