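import Pool.Agent.Helper3.FJ.NF4

/-!
# Simply connected nonpositively curved triangle complexes are simplicial
-/

set_option autoImplicit false

namespace Pool.Agent.Helper3.FJ

open Relation

namespace TC

variable {V D : Type} {X : TC V D} (h : X.Had)

/-- The simplicial complex. -/
def toCpx (h : X.Had) : Cpx V where
  adj := X.Adj
  tri u v w := ∃ a b c, X.tri a b c ∧ X.src a = u ∧ X.src b = v ∧ X.src c = w
  adj_symm := by
    rintro u v ⟨d, rfl, rfl⟩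
    exact ⟨X.inv d, rfl, tgt_inv d⟩
  adj_irrefl := by
    rintro u ⟨d, hd, hd'⟩
    exact no_loop h d (hd.trans hd'.symm)
  tri_rot := by
    rintro u v w ⟨a, b, c, habc, rfl, rfl, rfl⟩
    exact ⟨b, c, a, X.tri_rot _ _ _ habc, rfl, rfl, rfl⟩
  tri_flip := by
    rintro u v w ⟨a, b, c, habc, rfl, rfl, rfl⟩
    refine ⟨X.inv a, X.inv c, X.inv b, X.tri_rot _ _ _ (X.tri_rot _ _ _ (X.tri_inv _ _ _ habc)),
      X.tri_src _ _ _ habc, X.tri_src _ _ _ (X.tri_rot _ _ _ (X.tri_rot _ _ _ habc)),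
      X.tri_src _ _ _ (X.tri_rot _ _ _ habc)⟩
  tri_adj := by
    rintro u v w ⟨a, b, c, habc, rfl, rfl, rfl⟩
    exact ⟨a, rfl, X.tri_src _ _ _ habc⟩

theorem toCpx_simplyConn : (toCpx h).SimplyConn := by
  refine ⟨h.sc.1, h.sc.2.1, fun H _ c hc => ?_⟩
  obtain ⟨g, hg⟩ := h.sc.2.2 H (fun d => c (X.src d) (X.tgt d)) (fun d => by
    have := hc.1 (X.src d) (X.tgt d) ⟨d, rfl, rfl⟩
    have e1 : X.src (X.inv (X.inv d)) = X.src d := by rw [X.inv_inv]
    change c (X.src d) (X.tgt d) * c (X.tgt d) (X.src (X.inv (X.inv d))) = 1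
    rw [e1]
    exact this) (fun a b e habe => by
    have := hc.2 (X.src a) (X.src b) (X.src e) ⟨a, b, e, habe, rfl, rfl, rfl⟩
    have e1 : X.tgt a = X.src b := X.tri_src _ _ _ habe
    have e2 : X.tgt b = X.src e := X.tri_src _ _ _ (X.tri_rot _ _ _ habe)
    have e3 : X.tgt e = X.src a := X.tri_src _ _ _ (X.tri_rot _ _ _ (X.tri_rot _ _ _ habe))
    change c (X.src a) (X.tgt a) * c (X.src b) (X.tgt b) * c (X.src e) (X.tgt e) = 1
    rw [e1, e2, e3]
    exact this)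
  refine ⟨g, ?_⟩
  rintro u v ⟨d, rfl, rfl⟩
  exact hg d

theorem toCpx_linkGirth : (toCpx h).LinkGirth := by
  intro v k hk3 hk5 u hu ht
  have hex : ∀ i, ∃ a a', X.src a = v ∧ X.tgt a = u i ∧ X.src a' = v ∧ X.tgt a' = u (i + 1) ∧
      X.L a a' := by
    intro i
    obtain ⟨a, b, c, habc, h1, h2, h3⟩ := ht i
    refine ⟨a, X.inv c, h1, (X.tri_src _ _ _ habc).trans h2, ?_, (tgt_inv c).trans h3, b, ?_⟩
    · exact (X.tri_src _ _ _ (X.tri_rot _ _ _ (X.tri_rot _ _ _ habc))).trans h1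
    · rw [cp, X.inv_inv]
      exact habc
  choose a a' h1 h2 h3 h4 h5 using hex
  have h6 : ∀ i, a' i = a (i + 1) := fun i =>
    no_multi h _ _ ((h3 i).trans (h1 (i + 1)).symm) ((h4 i).trans (h2 (i + 1)).symm)
  have h7 : ∀ i, X.L (a i) (a (i + 1)) := fun i => h6 i ▸ h5 i
  have h8 : ∀ i j, a i = a j → i = j := fun i j hij => hu (by rw [← h2 i, hij, h2 j])
  interval_cases k
  · exact h.npc.n3 _ _ _ (h7 0) (h7 1) (h7 2)
  · rcases h.npc.n4 _ _ _ _ (h7 0) (h7 1) (h7 2) (h7 3) with h9 | h9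
    · exact absurd (h8 _ _ h9) (by decide)
    · exact absurd (h8 _ _ h9) (by decide)
  · exact h.npc.n5 _ _ _ _ _ (h7 0) (h7 1) (h7 2) (h7 3) (h7 4)

end TC

end Pool.Agent.Helper3.FJ
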