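import Pool.Agent.Helper3.FJ.Span3
import Pool.Agent.Helper3.FJ.Col

/-!
# Quotients of simply connected complexes
-/

set_option autoImplicit false

namespace Pool.Agent.Helper3.FJ

open Relation

namespace Cpx

variable {V : Type} (X : Cpx V) (R : Type) [Group R] [MulAction R V]

/-- The oriented edges. -/
def Dt : Type := {p : V × V // X.adj p.1 p.2}

/-- Orbits of vertices. -/
def vS (V : Type) [MulAction R V] : Setoid V where
  r u v := ∃ g : R, g • u = v
  iseqv := by
    refine ⟨fun u => ⟨1, one_smul _ _⟩, ?_, ?_⟩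
    · rintro u v ⟨g, rfl⟩
      exact ⟨g⁻¹, inv_smul_smul _ _⟩
    · rintro u v w ⟨g, rfl⟩ ⟨g', rfl⟩
      exact ⟨g' * g, mul_smul _ _ _⟩

/-- Orbits of oriented edges. -/
def eS : Setoid X.Dt where
  r p q := ∃ g : R, g • p.1.1 = q.1.1 ∧ g • p.1.2 = q.1.2
  iseqv := by
    refine ⟨fun u => ⟨1, one_smul _ _, one_smul _ _⟩, ?_, ?_⟩
    · rintro p q ⟨g, h1, h2⟩
      exact ⟨g⁻¹, by rw [← h1, inv_smul_smul], by rw [← h2, inv_smul_smul]⟩
    · rintro p q s ⟨g, h1, h2⟩ ⟨g', h3, h4⟩
      exact ⟨g' * g, by rw [mul_smul, h1, h3], by rw [mul_smul, h2, h4]⟩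

/-- The vertices of the quotient. -/
def QV (V : Type) [MulAction R V] : Type := Quotient (vS R V)

/-- The darts of the quotient. -/
def QD : Type := Quotient (eS X R)

variable {R} in
/-- The image of a vertex. -/
def qv (v : V) : QV R V := Quotient.mk (vS R V) v

theorem qv_eq {u v : V} : (qv u : QV R V) = qv v ↔ ∃ g : R, g • u = v :=
  ⟨fun h => Quotient.exact h, fun h => Quotient.sound (s := vS R V) h⟩

variable {X R} in
/-- The image of an oriented edge. -/
def dt {x y : V} (h : X.adj x y) : QD X R := Quotient.mk (eS X R) ⟨(x, y), h⟩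

theorem dt_eq {x y x' y' : V} {h : X.adj x y} {h' : X.adj x' y'} :
    (dt h : QD X R) = dt h' ↔ ∃ g : R, g • x = x' ∧ g • y = y' :=
  ⟨fun h => Quotient.exact h, fun h => Quotient.sound (s := eS X R) h⟩

variable {X R} in
/-- `a` is the image of the edge from `x` to `y`. -/
def Is (a : QD X R) (x y : V) : Prop := ∃ h : X.adj x y, dt h = a

variable {X R}

theorem Is.adj {a : QD X R} {x y : V} (h : Is a x y) : X.adj x y := h.choose

theorem exists_is (a : QD X R) : ∃ x y, Is a x y := by
  obtain ⟨⟨⟨x, y⟩, h⟩, rfl⟩ := Quotient.exists_rep a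
  exact ⟨x, y, h, rfl⟩

theorem Is.smul (hA : X.Acts R) {a : QD X R} {x y : V} (h : Is a x y) (g : R) :
    Is a (g • x) (g • y) := by
  obtain ⟨h1, rfl⟩ := h
  refine ⟨hA.1 g _ _ h1, ?_⟩
  rw [dt_eq]
  exact ⟨g⁻¹, inv_smul_smul _ _, inv_smul_smul _ _⟩

theorem Is.trans {a : QD X R} {x y x' y' : V} (h : Is a x y) (h' : Is a x' y') :
    ∃ g : R, g • x = x' ∧ g • y = y' := by
  obtain ⟨h1, rfl⟩ := h
  obtain ⟨h2, h3⟩ := h'
  exact (dt_eq X R).1 h3.symm

theorem Is.unique {a b : QD X R} {x y : V} (h : Is a x y) (h' : Is b x y) : a = b := by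
  obtain ⟨h1, rfl⟩ := h
  obtain ⟨h2, rfl⟩ := h'
  rfl

theorem adj2 {x y z : V} (h : X.tri x y z) : X.adj y z := X.tri_adj _ _ _ (X.tri_rot _ _ _ h)

theorem adj3 {x y z : V} (h : X.tri x y z) : X.adj z x :=
  X.tri_adj _ _ _ (X.tri_rot _ _ _ (X.tri_rot _ _ _ h))

variable (X R) in
/-- The quotient. -/
def quo : TC (QV R V) (QD X R) where
  src := Quotient.lift (s := eS X R) (fun p => qv p.1.1) (by
    rintro p q ⟨g, h1, h2⟩
    exact (qv_eq R).2 ⟨g, h1⟩)
  inv := Quotient.lift (s := eS X R) (fun p => dt (X.adj_symm _ _ p.2)) (by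
    rintro p q ⟨g, h1, h2⟩
    exact (dt_eq X R).2 ⟨g, h2, h1⟩)
  tri a b c := ∃ x y z, X.tri x y z ∧ Is a x y ∧ Is b y z ∧ Is c z x
  inv_inv := by
    intro d
    obtain ⟨p, rfl⟩ := Quotient.exists_rep d
    rfl
  tri_src := by
    rintro a b c ⟨x, y, z, h, ⟨h1, rfl⟩, ⟨h2, rfl⟩, ⟨h3, rfl⟩⟩
    rfl
  tri_rot := by
    rintro a b c ⟨x, y, z, h, h1, h2, h3⟩
    exact ⟨y, z, x, X.tri_rot _ _ _ h, h2, h3, h1⟩
  tri_inv := by
    rintro a b c ⟨x, y, z, h, ⟨h1, rfl⟩, ⟨h2, rfl⟩, ⟨h3, rfl⟩⟩
    exact ⟨x, z, y, X.tri_flip _ _ _ (X.tri_rot _ _ _ (X.tri_rot _ _ _ h)),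
      ⟨X.adj_symm _ _ h3, rfl⟩, ⟨X.adj_symm _ _ h2, rfl⟩, ⟨X.adj_symm _ _ h1, rfl⟩⟩

theorem Is.src {a : QD X R} {x y : V} (h : Is a x y) : (quo X R).src a = qv x := by
  obtain ⟨h1, rfl⟩ := h
  rfl

theorem Is.inv {a : QD X R} {x y : V} (h : Is a x y) : Is ((quo X R).inv a) y x := by
  obtain ⟨h1, rfl⟩ := h
  exact ⟨X.adj_symm _ _ h1, rfl⟩

theorem Is.tgt {a : QD X R} {x y : V} (h : Is a x y) : (quo X R).tgt a = qv y := h.inv.src

/-- The quotient is simply connected. -/
theorem quo_simplyConn (hA : X.Acts R) (hX : X.SimplyConn)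
    (hR : Subgroup.closure {r : R | ∃ x : V, r • x = x} = ⊤) : (quo X R).SimplyConn := by
  obtain ⟨⟨v₀⟩, hconn, hsc⟩ := hX
  refine ⟨⟨qv v₀⟩, ?_, ?_⟩
  · intro u v
    obtain ⟨x, rfl⟩ := Quotient.exists_rep u
    obtain ⟨y, rfl⟩ := Quotient.exists_rep v
    have := hconn x y
    induction this with
    | refl => exact ReflTransGen.refl
    | tail _ h4 ih => exact ih.tail ⟨dt h4, rfl, rfl⟩
  · intro H _ c hc1 hc2
    classical
    let c' : V → V → H := fun x y => if h : X.adj x y then c (dt h) else 1
    have hc' : ∀ {x y : V} {a : QD X R}, Is a x y → c' x y = c a := by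
      rintro x y a ⟨h, rfl⟩
      exact dif_pos h
    have hcoc : X.Cocycle c' := by
      refine ⟨fun u v h => ?_, fun u v w h => ?_⟩
      · have h1 : Is (dt h : QD X R) u v := ⟨h, rfl⟩
        rw [hc' h1, hc' h1.inv]
        exact hc1 _
      · have h1 : Is (dt (X.tri_adj _ _ _ h) : QD X R) u v := ⟨_, rfl⟩
        have h2 : Is (dt (adj2 h) : QD X R) v w := ⟨_, rfl⟩
        have h3 : Is (dt (adj3 h) : QD X R) w u := ⟨_, rfl⟩
        rw [hc' h1, hc' h2, hc' h3]
        exact hc2 _ _ _ ⟨u, v, w, h, h1, h2, h3⟩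
    obtain ⟨g, hg⟩ := hsc H c' hcoc
    have inv : ∀ (r : R) (x y : V), g (r • x) * (g x)⁻¹ = g (r • y) * (g y)⁻¹ := by
      intro r x y
      have := hconn x y
      induction this with
      | refl => rfl
      | @tail b e _ h4 ih =>
        rw [ih]
        have h2 : Is (dt h4 : QD X R) b e := ⟨h4, rfl⟩
        have h3 := h2.smul hA r
        have e1 := hg _ _ h4
        have e2 := hg _ _ h3.adj
        rw [hc' h2] at e1
        rw [hc' h3, e1] at e2
        have e3 : g e = g b * ((g b)⁻¹ * g e) := by group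
        rw [e3, e2]
        group
    let S : Subgroup R :=
      { carrier := {r | ∀ x, g (r • x) = g x}
        one_mem' := fun x => by rw [one_smul]
        mul_mem' := fun {a b} ha hb x => by rw [mul_smul, ha, hb]
        inv_mem' := fun {a} ha x => by
          have := ha (a⁻¹ • x)
          rwa [smul_inv_smul, eq_comm] at this }
    have hS : S = ⊤ := by
      rw [eq_top_iff, ← hR, Subgroup.closure_le]
      rintro r ⟨x, hx⟩ y
      have := inv r x y
      rw [hx, mul_inv_cancel, eq_comm, mul_inv_eq_one] at this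
      exact this
    let g' : QV R V → H := Quotient.lift (s := vS R V) g (by
      rintro x y ⟨r, rfl⟩
      have : r ∈ S := by rw [hS]; trivial
      exact (this x).symm)
    refine ⟨g', fun d => ?_⟩
    obtain ⟨x, y, hd⟩ := exists_is d
    rw [hd.src, hd.tgt, ← hc' hd]
    exact hg _ _ hd.adj

section girth

variable (hL : X.LinkGirth)
include hL

theorem k3 {v x y z : V} (h1 : X.tri v x y) (h2 : X.tri v y z) (h3 : X.tri v z x) : False := by
  have n1 : x ≠ y := fun h => X.adj_irrefl _ (h ▸ adj2 h1)
  have n2 : y ≠ z := fun h => X.adj_irrefl _ (h ▸ adj2 h2)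
  have n3 : z ≠ x := fun h => X.adj_irrefl _ (h ▸ adj2 h3)
  refine hL v 3 le_rfl (by norm_num) (show Fin 3 → V from ![x, y, z]) ?_ ?_
  · change ∀ i j : Fin 3, _
    intro i j hij
    fin_cases i <;> fin_cases j <;>
      first
        | rfl
        | exact absurd hij n1
        | exact absurd hij n2
        | exact absurd hij n3
        | exact absurd hij.symm n1
        | exact absurd hij.symm n2
        | exact absurd hij.symm n3
  · change ∀ i : Fin 3, _
    intro i
    fin_cases i
    · exact h1
    · exact h2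
    · exact h3

theorem k4 {v x y z w : V} (h1 : X.tri v x y) (h2 : X.tri v y z) (h3 : X.tri v z w)
    (h4 : X.tri v w x) : x = z ∨ y = w := by
  by_contra hne
  push Not at hne
  obtain ⟨n5, n6⟩ := hne
  have n1 : x ≠ y := fun h => X.adj_irrefl _ (h ▸ adj2 h1)
  have n2 : y ≠ z := fun h => X.adj_irrefl _ (h ▸ adj2 h2)
  have n3 : z ≠ w := fun h => X.adj_irrefl _ (h ▸ adj2 h3)
  have n4 : w ≠ x := fun h => X.adj_irrefl _ (h ▸ adj2 h4)
  refine hL v 4 (by norm_num) (by norm_num) (show Fin 4 → V from ![x, y, z, w]) ?_ ?_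
  · change ∀ i j : Fin 4, _
    intro i j hij
    fin_cases i <;> fin_cases j <;>
      first
        | rfl
        | exact absurd hij n1
        | exact absurd hij n2
        | exact absurd hij n3
        | exact absurd hij n4
        | exact absurd hij n5
        | exact absurd hij n6
        | exact absurd hij.symm n1
        | exact absurd hij.symm n2
        | exact absurd hij.symm n3
        | exact absurd hij.symm n4
        | exact absurd hij.symm n5
        | exact absurd hij.symm n6
  · change ∀ i : Fin 4, _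
    intro i
    fin_cases i
    · exact h1
    · exact h2
    · exact h3
    · exact h4

theorem k5 {v x y z w u : V} (h1 : X.tri v x y) (h2 : X.tri v y z) (h3 : X.tri v z w)
    (h4 : X.tri v w u) (h5 : X.tri v u x) : False := by
  have n1 : x ≠ y := fun h => X.adj_irrefl _ (h ▸ adj2 h1)
  have n2 : y ≠ z := fun h => X.adj_irrefl _ (h ▸ adj2 h2)
  have n3 : z ≠ w := fun h => X.adj_irrefl _ (h ▸ adj2 h3)
  have n4 : w ≠ u := fun h => X.adj_irrefl _ (h ▸ adj2 h4)
  have n5 : u ≠ x := fun h => X.adj_irrefl _ (h ▸ adj2 h5)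
  -- the diagonals
  have m1 : x ≠ z := by
    rintro rfl
    exact k3 hL h3 h4 h5
  have m2 : y ≠ w := by
    rintro rfl
    exact k3 hL h4 h5 h1
  have m3 : z ≠ u := by
    rintro rfl
    exact k3 hL h5 h1 h2
  have m4 : w ≠ x := by
    rintro rfl
    exact k3 hL h1 h2 h3
  have m5 : u ≠ y := by
    rintro rfl
    exact k3 hL h2 h3 h4
  refine hL v 5 (by norm_num) (by norm_num) (show Fin 5 → V from ![x, y, z, w, u]) ?_ ?_
  · change ∀ i j : Fin 5, _
    intro i j hij
    fin_cases i <;> fin_cases j <;>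
      first
        | rfl
        | exact absurd hij n1
        | exact absurd hij n2
        | exact absurd hij n3
        | exact absurd hij n4
        | exact absurd hij n5
        | exact absurd hij m1
        | exact absurd hij m2
        | exact absurd hij m3
        | exact absurd hij m4
        | exact absurd hij m5
        | exact absurd hij.symm n1
        | exact absurd hij.symm n2
        | exact absurd hij.symm n3
        | exact absurd hij.symm n4
        | exact absurd hij.symm n5
        | exact absurd hij.symm m1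
        | exact absurd hij.symm m2
        | exact absurd hij.symm m3
        | exact absurd hij.symm m4
        | exact absurd hij.symm m5
  · change ∀ i : Fin 5, _
    intro i
    fin_cases i
    · exact h1
    · exact h2
    · exact h3
    · exact h4
    · exact h5

end girth

variable (R) in
/-- The edge between `x` and `y` is fixed by a nontrivial element. -/
def Fx (x y : V) : Prop := ∃ r : R, r ≠ 1 ∧ r • x = x ∧ r • y = y

theorem Fx.symm {x y : V} (h : Fx R x y) : Fx R y x := by
  obtain ⟨r, h1, h2, h3⟩ := h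
  exact ⟨r, h1, h3, h2⟩

theorem Fx.smul {x y : V} (h : Fx R x y) (g : R) : Fx R (g • x) (g • y) := by
  obtain ⟨r, h1, h2, h3⟩ := h
  refine ⟨g * r * g⁻¹, fun h4 => h1 ?_, ?_, ?_⟩
  · have : r = g⁻¹ * (g * r * g⁻¹) * g := by group
    rw [this, h4]
    group
  · rw [mul_smul, inv_smul_smul, mul_smul, h2]
  · rw [mul_smul, inv_smul_smul, mul_smul, h3]

theorem Fx.of_smul {x y : V} {g : R} (h : Fx R (g • x) (g • y)) : Fx R x y := by
  have := h.smul g⁻¹
  rwa [inv_smul_smul, inv_smul_smul] at this

variable (X R) in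
/-- The conditions on the action: edge stabilizers are trivial or equal to the stabilizers of both
ends, and the nontrivial elements of the vertex stabilizers move the vertices of the links which
they do not fix by more than 5. -/
structure Nice : Prop where
  acts : X.Acts R
  girth : X.LinkGirth
  rigid : ∀ x y, X.adj x y → Fx R x y → ∀ r : R, r • x = x → r • y = y
  far : ∀ (v : V) (r : R), r • v = v → ∀ k ≤ 5, ∀ y : ℕ → V,
    (∀ i < k, X.tri v (y i) (y (i + 1))) → (∀ i ≤ k, ¬ Fx R v (y i)) → y k = r • y 0 → r = 1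

section nice

variable (hN : X.Nice R)
include hN

theorem lift_L {a b : QD X R} (h : (quo X R).L a b) {v y : V} (hy : Is a v y) :
    ∃ z, X.tri v y z ∧ Is b v z := by
  obtain ⟨x, v', y', z', ht, h1, h2, h3⟩ := h
  obtain ⟨g, hg1, hg2⟩ := h1.trans hy
  refine ⟨g • z', ?_, ?_⟩
  · rw [← hg1, ← hg2]
    exact hN.acts.2 g _ _ _ ht
  · have h4 := (h3.inv).smul hN.acts g
    rw [TC.inv_inv] at h4
    rw [← hg1]
    exact h4

omit hN in
theorem is_L {a b : QD X R} {v y z : V} (ht : X.tri v y z) (ha : Is a v y) (hb : Is b v z) :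
    (quo X R).L a b :=
  ⟨dt (adj2 ht), v, y, z, ht, ha, ⟨_, rfl⟩, hb.inv⟩

/-- Closed walks in the links of the quotient lift to closed walks. -/
theorem closed (a : ℕ → QD X R) (k : ℕ) (hk : 0 < k) (hk5 : k ≤ 5) (ha : ∀ i, a (i + k) = a i)
    (hL : ∀ i, (quo X R).L (a i) (a (i + 1))) :
    ∃ (j : ℕ) (v : V) (z : ℕ → V), j < k ∧ (∀ i < k, X.tri v (z i) (z (i + 1))) ∧ z k = z 0 ∧
      ∀ i < k, Is (a (j + i)) v (z i) := by
  obtain ⟨v, y₀, hy₀⟩ := exists_is (a 0)
  -- the lift
  have hex : ∀ (i : ℕ) (y : {y : V // Is (a i) v y}), ∃ z : {z : V // Is (a (i + 1)) v z},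
      X.tri v y.1 z.1 := by
    intro i y
    obtain ⟨z, h1, h2⟩ := lift_L hN (hL i) y.2
    exact ⟨⟨z, h2⟩, h1⟩
  choose nx hnx using hex
  let Y : ∀ i : ℕ, {y : V // Is (a i) v y} := fun i => Nat.rec ⟨y₀, hy₀⟩ (fun i y => nx i y) i
  have hY : ∀ i, X.tri v (Y i).1 (Y (i + 1)).1 := fun i => hnx i (Y i)
  set y : ℕ → V := fun i => (Y i).1 with hy
  have hy1 : ∀ i, X.tri v (y i) (y (i + 1)) := hY
  have hy2 : ∀ i, Is (a i) v (y i) := fun i => (Y i).2
  obtain ⟨r, hr, hr2⟩ : ∃ r : R, r • v = v ∧ r • y 0 = y k := by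
    have h1 := hy2 k
    have h2 := ha 0
    rw [zero_add] at h2
    rw [h2] at h1
    exact (hy2 0).trans h1
  by_cases hf : ∀ i ≤ k, ¬ Fx R v (y i)
  · have h1 := hN.far v r hr k hk5 y (fun i _ => hy1 i) hf hr2.symm
    refine ⟨0, v, y, hk, fun i _ => hy1 i, ?_, fun i _ => ?_⟩
    · rw [← hr2, h1, one_smul]
    · rw [zero_add]
      exact hy2 i
  · push Not at hf
    obtain ⟨j, hj, hfj⟩ : ∃ j < k, Fx R v (y j) := by
      obtain ⟨j, hj, hfj⟩ := hf
      rcases hj.lt_or_eq with h1 | h1
      · exact ⟨j, h1, hfj⟩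
      · subst h1
        refine ⟨0, hk, Fx.of_smul (g := r) ?_⟩
        rw [hr, hr2]
        exact hfj
    have hrj : r • y j = y j := hN.rigid _ _ (hy2 j).adj hfj r hr
    refine ⟨j, v, fun i => if j + i < k then y (j + i) else r • y (j + i - k), hj,
      fun i hi => ?_, ?_, fun i hi => ?_⟩
    · by_cases h1 : j + (i + 1) < k
      · simp only [if_pos h1, if_pos (show j + i < k by omega)]
        exact hy1 _
      · by_cases h2 : j + i < k
        · have e1 : j + (i + 1) - k = 0 := by omega
          have e2 : j + i + 1 = k := by omega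
          simp only [if_neg h1, if_pos h2, e1, hr2]
          rw [← e2]
          exact hy1 _
        · simp only [if_neg h1, if_neg h2]
          have e1 : j + (i + 1) - k = (j + i - k) + 1 := by omega
          rw [e1]
          have := hN.acts.2 r _ _ _ (hy1 (j + i - k))
          rwa [hr] at this
    · have e1 : j + k - k = j := by omega
      simp only [add_zero, if_pos hj, if_neg (show ¬ j + k < k by omega), e1]
      exact hrj
    · by_cases h1 : j + i < k
      · simp only [if_pos h1]
        exact hy2 _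
      · simp only [if_neg h1]
        have e1 : j + i = (j + i - k) + k := by omega
        have h2 := (hy2 (j + i - k)).smul hN.acts r
        rw [hr, ← ha, ← e1] at h2
        exact h2

/-- The quotient is nonpositively curved. -/
theorem quo_npc : (quo X R).NPC := by
  refine ⟨?_, ?_, ?_, ?_, ?_⟩
  · rintro a x ⟨v, y, z, ht, h1, h2, h3⟩
    have h4 := h3.inv
    rw [TC.inv_inv] at h4
    obtain ⟨r, hr, hr2⟩ := h1.trans h4
    by_cases hf : Fx R v y
    · have := hN.rigid _ _ h1.adj hf r hr
      rw [hr2] at this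
      exact X.adj_irrefl _ (this ▸ adj2 ht)
    · have h5 := hN.far v r hr 1 (by norm_num) (fun i => if i = 0 then y else z) (fun i hi => by
        interval_cases i
        simpa using ht) (fun i hi => by
        interval_cases i
        · simpa using hf
        · simp only [one_ne_zero, if_false]
          intro h6
          refine hf (Fx.of_smul (g := r) ?_)
          rw [hr, hr2]
          exact h6) (by simp [hr2])
      rw [h5, one_smul] at hr2
      exact X.adj_irrefl _ (hr2 ▸ adj2 ht)
  · rintro a x x' b ⟨v, p, q, ht, h1, h2, h3⟩ ⟨v', p', q', ht', h1', h2', h3'⟩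
    obtain ⟨g, hg1, hg2⟩ := h1'.trans h1
    have ht2 := hN.acts.2 g _ _ _ ht'
    have h2g := h2'.smul hN.acts g
    have h3g := h3'.smul hN.acts g
    rw [hg1, hg2] at ht2
    rw [hg2] at h2g
    rw [hg1] at h3g
    obtain ⟨r, hr2, hr⟩ := h3.trans h3g
    by_cases hp : Fx R v p
    · have hrp := hN.rigid _ _ h1.adj hp r hr
      have h4 := h2.smul hN.acts r
      rw [hrp, hr2] at h4
      exact h4.unique h2g
    by_cases hq : Fx R v q
    · have hrq := hN.rigid _ _ (X.adj_symm _ _ h3.adj) hq r hr
      rw [hr2] at hrq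
      rw [hrq] at h2g
      exact h2.unique h2g
    · have ht3 : X.tri v q p := X.tri_flip _ _ _ (X.tri_rot _ _ _ (X.tri_rot _ _ _ ht))
      have h5 := hN.far v r hr 2 (by norm_num)
        (fun i => if i = 0 then q else if i = 1 then p else g • q') (fun i hi => by
          interval_cases i
          · simpa using ht3
          · simpa using ht2) (fun i hi => by
          interval_cases i
          · simpa using hq
          · simpa using hp
          · simp only [OfNat.ofNat_ne_zero, if_false, OfNat.ofNat_ne_one]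
            intro h6
            refine hq (Fx.of_smul (g := r) ?_)
            rw [hr, hr2]
            exact h6) (by simp [hr2])
      rw [h5, one_smul] at hr2
      rw [← hr2] at h2g
      exact h2.unique h2g
  · intro a b c h1 h2 h3
    obtain ⟨j, v, z, hj, hz1, hz2, hz3⟩ := closed hN
      (fun i => if i % 3 = 0 then a else if i % 3 = 1 then b else c) 3 (by norm_num) (by norm_num)
      (fun i => by simp) (fun i => by
        have : i % 3 = 0 ∨ i % 3 = 1 ∨ i % 3 = 2 := by omega
        rcases this with h | h | h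
        · simpa [h, Nat.add_mod] using h1
        · simpa [h, Nat.add_mod] using h2
        · simpa [h, Nat.add_mod] using h3)
    have e3 := hz1 2 (by norm_num)
    rw [show (2 + 1 : ℕ) = 3 from rfl, hz2] at e3
    exact k3 hN.girth (hz1 0 (by norm_num)) (hz1 1 (by norm_num)) e3
  · intro a b c d h1 h2 h3 h4
    obtain ⟨j, v, z, hj, hz1, hz2, hz3⟩ := closed hN
      (fun i => if i % 4 = 0 then a else if i % 4 = 1 then b else if i % 4 = 2 then c else d) 4
      (by norm_num) (by norm_num) (fun i => by simp) (fun i => by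
        have : i % 4 = 0 ∨ i % 4 = 1 ∨ i % 4 = 2 ∨ i % 4 = 3 := by omega
        rcases this with h | h | h | h
        · simpa [h, Nat.add_mod] using h1
        · simpa [h, Nat.add_mod] using h2
        · simpa [h, Nat.add_mod] using h3
        · simpa [h, Nat.add_mod] using h4)
    have e4 := hz1 3 (by norm_num)
    rw [show (3 + 1 : ℕ) = 4 from rfl, hz2] at e4
    rcases k4 hN.girth (hz1 0 (by norm_num)) (hz1 1 (by norm_num)) (hz1 2 (by norm_num)) e4 with
      h5 | h5
    · have f0 := hz3 0 (by norm_num)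
      have f2 := hz3 2 (by norm_num)
      rw [← h5] at f2
      have := f0.unique f2
      interval_cases j
      · left; simpa using this
      · right; simpa using this
      · left; simpa using this.symm
      · right; simpa using this.symm
    · have f0 := hz3 1 (by norm_num)
      have f2 := hz3 3 (by norm_num)
      rw [← h5] at f2
      have := f0.unique f2
      interval_cases j
      · right; simpa using this
      · left; simpa using this.symm
      · right; simpa using this.symm
      · left; simpa using this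
  · intro a b c d e h1 h2 h3 h4 h5
    obtain ⟨j, v, z, hj, hz1, hz2, hz3⟩ := closed hN
      (fun i => if i % 5 = 0 then a else if i % 5 = 1 then b else if i % 5 = 2 then c
        else if i % 5 = 3 then d else e) 5
      (by norm_num) (by norm_num) (fun i => by simp) (fun i => by
        have : i % 5 = 0 ∨ i % 5 = 1 ∨ i % 5 = 2 ∨ i % 5 = 3 ∨ i % 5 = 4 := by omega
        rcases this with h | h | h | h | h
        · simpa [h, Nat.add_mod] using h1
        · simpa [h, Nat.add_mod] using h2
        · simpa [h, Nat.add_mod] using h3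
        · simpa [h, Nat.add_mod] using h4
        · simpa [h, Nat.add_mod] using h5)
    have e5 := hz1 4 (by norm_num)
    rw [show (4 + 1 : ℕ) = 5 from rfl, hz2] at e5
    exact k5 hN.girth (hz1 0 (by norm_num)) (hz1 1 (by norm_num)) (hz1 2 (by norm_num))
      (hz1 3 (by norm_num)) e5

/-- The quotient, provided that the group is generated by elements with fixed vertices. -/
theorem quo_had (hX : X.SimplyConn) (hR : Subgroup.closure {r : R | ∃ x : V, r • x = x} = ⊤) :
    (quo X R).Had :=
  ⟨quo_npc hN, quo_simplyConn hN.acts hX hR⟩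

end nice

end Cpx

end Pool.Agent.Helper3.FJ
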