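import Pool.Agent.Helper3.FJ.Bound

/-!
# The action of the quotient group on the quotient complex
-/

set_option autoImplicit false

namespace Pool.Agent.Helper3.FJ

open Relation Pool.Agent.Helper29.BA Pool.Agent.Helper29.PA

namespace Cpx

variable {V : Type} {X : Cpx V} {H : Type} [Group H] [MulAction H V] (R : Subgroup H) [R.Normal]

/-- The quotient group acts on the quotient. -/
instance quoAct : MulAction (H ⧸ R) (QV R V) where
  smul := Quotient.lift₂ (s₁ := QuotientGroup.leftRel R) (s₂ := vS R V)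
    (fun h x => (qv (h • x) : QV R V)) (by
    rintro h x h' x' hh ⟨s, rfl⟩
    have h1 : h⁻¹ * h' ∈ R := QuotientGroup.leftRel_apply.1 hh
    rw [qv_eq]
    have h2 : h * (h⁻¹ * h') * h⁻¹ ∈ R := ‹R.Normal›.conj_mem _ h1 h
    have h3 : h' * s.1 * h'⁻¹ ∈ R := ‹R.Normal›.conj_mem _ s.2 h'
    refine ⟨⟨_, mul_mem h3 h2⟩, ?_⟩
    change (h' * s.1 * h'⁻¹ * (h * (h⁻¹ * h') * h⁻¹)) • h • x = h' • s.1 • x
    rw [← mul_smul, ← mul_smul]
    congr 1
    group)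
  one_smul u := by
    obtain ⟨x, rfl⟩ := Quotient.exists_rep u
    change (qv ((1 : H) • x) : QV R V) = qv x
    rw [one_smul]
  mul_smul p q u := by
    obtain ⟨a, rfl⟩ := QuotientGroup.mk_surjective p
    obtain ⟨b, rfl⟩ := QuotientGroup.mk_surjective q
    obtain ⟨x, rfl⟩ := Quotient.exists_rep u
    change (qv ((a * b) • x) : QV R V) = qv (a • b • x)
    rw [mul_smul]

theorem mk_smul (h : H) (x : V) : (QuotientGroup.mk h : H ⧸ R) • (qv x : QV R V) = qv (h • x) :=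
  rfl

variable {R} (hh : (quo X R).Had)

theorem toCpx_adj {u v : QV R V} :
    (TC.toCpx hh).adj u v ↔ ∃ x y, X.adj x y ∧ qv x = u ∧ qv y = v := by
  constructor
  · rintro ⟨d, rfl, rfl⟩
    obtain ⟨x, y, hd⟩ := exists_is d
    exact ⟨x, y, hd.adj, hd.src.symm, hd.tgt.symm⟩
  · rintro ⟨x, y, h, rfl, rfl⟩
    exact ⟨dt h, rfl, rfl⟩

theorem toCpx_tri {u v w : QV R V} :
    (TC.toCpx hh).tri u v w ↔ ∃ x y z, X.tri x y z ∧ qv x = u ∧ qv y = v ∧ qv z = w := by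
  constructor
  · rintro ⟨a, b, c, ⟨x, y, z, h, h1, h2, h3⟩, rfl, rfl, rfl⟩
    exact ⟨x, y, z, h, h1.src.symm, h2.src.symm, h3.src.symm⟩
  · rintro ⟨x, y, z, h, rfl, rfl, rfl⟩
    exact ⟨dt (X.tri_adj _ _ _ h), dt (adj2 h), dt (adj3 h),
      ⟨x, y, z, h, ⟨_, rfl⟩, ⟨_, rfl⟩, ⟨_, rfl⟩⟩, rfl, rfl, rfl⟩

theorem quo_acts (hA : X.Acts H) : (TC.toCpx hh).Acts (H ⧸ R) := by
  refine ⟨fun p u v huv => ?_, fun p u v w huv => ?_⟩
  · obtain ⟨g, rfl⟩ := QuotientGroup.mk_surjective p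
    obtain ⟨x, y, h, rfl, rfl⟩ := (toCpx_adj hh).1 huv
    exact (toCpx_adj hh).2 ⟨g • x, g • y, hA.1 g _ _ h, rfl, rfl⟩
  · obtain ⟨g, rfl⟩ := QuotientGroup.mk_surjective p
    obtain ⟨x, y, z, h, rfl, rfl, rfl⟩ := (toCpx_tri hh).1 huv
    exact (toCpx_tri hh).2 ⟨g • x, g • y, g • z, hA.2 g _ _ _ h, rfl, rfl, rfl⟩

theorem quo_cocompact (hco : X.Cocompact H) : (TC.toCpx hh).Cocompact (H ⧸ R) := by
  obtain ⟨S, hS, h1, h2, h3⟩ := hco
  refine ⟨(fun s : V × V × V => ((qv s.1, qv s.2.1, qv s.2.2) : QV R V × QV R V × QV R V)) '' S,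
    hS.image _, fun u => ?_, fun u v huv => ?_, fun u v w huv => ?_⟩
  · obtain ⟨x, rfl⟩ := Quotient.exists_rep u
    obtain ⟨g, hg⟩ := h1 x
    exact ⟨QuotientGroup.mk g, _, hg, rfl⟩
  · obtain ⟨x, y, h, rfl, rfl⟩ := (toCpx_adj hh).1 huv
    obtain ⟨g, hg⟩ := h2 x y h
    exact ⟨QuotientGroup.mk g, _, hg, rfl⟩
  · obtain ⟨x, y, z, h, rfl, rfl, rfl⟩ := (toCpx_tri hh).1 huv
    obtain ⟨g, hg⟩ := h3 x y z h
    exact ⟨QuotientGroup.mk g, _, hg, rfl⟩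

theorem quo_free (hR : ∀ (h : H) (x : V), h • x = x → h ∈ R) (p : H ⧸ R) (u : QV R V)
    (hp : p • u = u) : p = 1 := by
  obtain ⟨g, rfl⟩ := QuotientGroup.mk_surjective p
  obtain ⟨x, rfl⟩ := Quotient.exists_rep u
  have h1 : (qv (g • x) : QV R V) = qv x := hp
  obtain ⟨s, hs⟩ := (qv_eq R).1 h1
  have h2 : s.1 * g ∈ R := hR _ x (by rw [mul_smul]; exact hs)
  rw [QuotientGroup.eq_one_iff]
  have h3 := mul_mem (inv_mem s.2) h2
  rwa [inv_mul_cancel_left] at h3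

include hh in
theorem quo_mem {C : ∀ (G : Type) [Group G], Prop} (hC : TriClass C) (hA : X.Acts H)
    (hco : X.Cocompact H) (hR : ∀ (h : H) (x : V), h • x = x → h ∈ R) : C (H ⧸ R) := by
  refine hC.triangle _ (TC.toCpx hh) _ (TC.toCpx_simplyConn hh) (TC.toCpx_linkGirth hh)
    (quo_acts hh hA) (fun v => ?_) (quo_cocompact hh hco)
  have : Subsingleton (MulAction.stabilizer (H ⧸ R) v) :=
    ⟨fun a b => Subtype.ext ((quo_free hR a.1 v a.2).trans (quo_free hR b.1 v b.2).symm)⟩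
  infer_instance

omit [R.Normal] in
/-- Subgroups of finite index act cocompactly. -/
theorem cocompact_sub (hco : X.Cocompact H) (K : Subgroup H) (hK : K.FiniteIndex) :
    X.Cocompact K := by
  obtain ⟨S, hS, h1, h2, h3⟩ := hco
  have : Finite (H ⧸ K) := Subgroup.finite_quotient_of_finiteIndex
  let T : Set (V × V × V) := ⋃ q : H ⧸ K, (fun s : V × V × V =>
    (q.out⁻¹ • s.1, q.out⁻¹ • s.2.1, q.out⁻¹ • s.2.2)) '' S
  have key : ∀ (g : H) (x y z : V), (g • x, g • y, g • z) ∈ S →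
      ∃ k : K, (k • x, k • y, k • z) ∈ T := by
    intro g x y z hg
    have h4 : (QuotientGroup.mk g : H ⧸ K).out⁻¹ * g ∈ K := by
      rw [← QuotientGroup.eq]
      exact QuotientGroup.out_eq' _
    refine ⟨⟨_, h4⟩, Set.mem_iUnion.2 ⟨QuotientGroup.mk g, _, hg, ?_⟩⟩
    refine Prod.ext ?_ (Prod.ext ?_ ?_)
    · exact (mul_smul _ _ _).symm
    · exact (mul_smul _ _ _).symm
    · exact (mul_smul _ _ _).symm
  refine ⟨T, Set.finite_iUnion fun q => hS.image _, fun x => ?_, fun x y h => ?_,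
    fun x y z h => ?_⟩
  · obtain ⟨g, hg⟩ := h1 x
    exact key g _ _ _ hg
  · obtain ⟨g, hg⟩ := h2 x y h
    exact key g _ _ _ hg
  · obtain ⟨g, hg⟩ := h3 x y z h
    exact key g _ _ _ hg

end Cpx

end Pool.Agent.Helper3.FJ
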