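import Pool.Agent.Helper3.FJ.NF5

/-!
# A spanning tree adapted to a set of fixed edges
-/

set_option autoImplicit false

namespace Pool.Agent.Helper3.FJ

open Relation

namespace TC

variable {V D : Type} {X : TC V D} {v₀ : V} (h : X.Had)

/-- Chains of horizontal darts with different apices are finite. -/
theorem no_chain : ∀ (n : ℕ) (d y z : ℕ → D), (∀ i, lv v₀ h (X.src (d i)) = n) →
    (∀ i, DD v₀ h (X.src (d i)) (y i)) → (∀ i, DD v₀ h (X.tgt (d i)) (X.inv (z i))) →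
    (∀ i, X.cp (y i) (z i) (d i)) → (∀ i, X.src (d (i + 1)) = X.tgt (d i)) →
    (∀ i, X.inv (z i) ≠ y (i + 1)) → False := by
  intro n
  induction n with
  | zero =>
    intro d y z h1 h2 h3 h4 h5 h6
    have := DD_lv h (h2 0)
    rw [h1] at this
    omega
  | succ n ih =>
    intro d y z h1 h2 h3 h4 h5 h6
    have hex : ∀ i, ∃ e p q, X.cp (X.inv (z i)) e (y (i + 1)) ∧ X.cp p e q ∧
        DD v₀ h (X.tgt (X.inv (z i))) (X.inv p) ∧ DD v₀ h (X.tgt (y (i + 1))) (X.inv q) ∧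
          X.tgt p = X.tgt (X.inv (z i)) ∧ X.tgt q = X.tgt (y (i + 1)) := by
      intro i
      have := h2 (i + 1)
      rw [h5] at this
      rcases DD_two h (h3 i) this with h7 | h7
      · exact (h6 i h7).elim
      · exact h7
    choose e p q e1 e2 e3 e4 e5 e6 using hex
    have s1 : ∀ i, X.src (e i) = X.tgt (X.inv (z i)) := fun i => (cp_mid (e1 i)).symm
    have s2 : ∀ i, X.tgt (e i) = X.tgt (y (i + 1)) := fun i => cp_tgt (e1 i)
    refine ih e (fun i => X.inv (p i)) q (fun i => ?_) (fun i => ?_) (fun i => ?_)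
      (fun i => cp2 (e2 i)) (fun i => ?_) (fun i hi => ?_)
    · have h7 := DD_lv h (h3 i)
      have h8 : lv v₀ h (X.tgt (d i)) = n + 1 := by rw [← h5, h1]
      rw [s1]
      omega
    · rw [s1]
      exact e3 i
    · rw [s2]
      exact e4 i
    · rw [s1, s2, tgt_inv, cp_mid (h4 (i + 1))]
    · -- a circuit of length five
      have l1 : X.L (X.inv (y (i + 1))) (z (i + 1)) := L2 (h4 (i + 1))
      have l2 : X.L (z (i + 1)) (e (i + 1)) := by
        have := L2 (e1 (i + 1))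
        rwa [X.inv_inv] at this
      have l3 : X.L (X.inv (p (i + 1))) (e (i + 1)) := L2 (e2 (i + 1))
      have l4 : X.L (X.inv (y (i + 1))) (X.inv (e i)) := L3 (e1 i)
      have l5 : X.L (X.inv (q i)) (X.inv (e i)) := L3 (e2 i)
      rw [hi] at l5
      exact h.npc.n5 _ _ _ _ _ l1 l2 (L_symm l3) l5 (L_symm l4)

/-- The conditions on the set of fixed darts. -/
structure Fix (X : TC V D) (F : D → Prop) : Prop where
  inv : ∀ d, F d → F (X.inv d)
  two : ∀ a x b, X.cp a x b → F a → F b → F x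
  mid : ∀ a b c, X.L a b → X.L b c → F a → F c → ¬ F b → a = c

variable {F : D → Prop} (hF : Fix X F)

include hF in
theorem Fix.two' {a x b : D} (hc : X.cp a x b) (ha : F a) (hx : F x) : F b := by
  have := hF.two _ _ _ (cp2 hc)
  exact (by
    have h1 := hF.two _ _ _ (cp3 hc) hx (hF.inv _ ha)
    have h2 := hF.inv _ h1
    rwa [X.inv_inv] at h2)

include hF in
theorem Fix.two'' {a x b : D} (hc : X.cp a x b) (hb : F b) (hx : F x) : F a := by
  exact hF.two' (cp1 hc) hb (hF.inv _ hx)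

variable (v₀ F) in
/-- Fixed horizontal darts with an apex triangle which is not fixed. -/
def Hd (d : D) : Prop := F d ∧ ∃ y z, DD v₀ h (X.src d) y ∧ DD v₀ h (X.tgt d) (X.inv z) ∧
  X.cp y z d ∧ ¬ F y

include hF in
theorem Hd.inv {d : D} (hd : Hd v₀ h F d) : Hd v₀ h F (X.inv d) := by
  obtain ⟨h1, y, z, h2, h3, h4, h5⟩ := hd
  refine ⟨hF.inv _ h1, X.inv z, X.inv y, h3, ?_, cp5 h4, fun hz => ?_⟩
  · rw [tgt_inv, X.inv_inv]
    exact h2
  · have := hF.inv _ hz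
    rw [X.inv_inv] at this
    exact h5 (hF.two'' h4 h1 this)

theorem Hd.lv {d : D} (hd : Hd v₀ h F d) : lv v₀ h (X.src d) = lv v₀ h (X.tgt d) := by
  obtain ⟨h1, y, z, h2, h3, h4, h5⟩ := hd
  have e1 := DD_lv h h2
  have e2 := DD_lv h h3
  rw [tgt_inv, ← cp_mid h4] at e2
  omega

include hF in
/-- No dart leading down from a vertex with a dart in `Hd` is fixed. -/
theorem Hd.down {d y : D} (hd : Hd v₀ h F d) (hy : DD v₀ h (X.src d) y) : ¬ F y := by
  intro hFy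
  have hl := hd.lv
  obtain ⟨h1, y', z, h2, h3, h4, h5⟩ := hd
  rcases DD_two h hy h2 with h6 | ⟨e, p, q, h6, -⟩
  · rw [h6] at hFy
    exact h5 hFy
  · have h7 := hF.mid y y' d ⟨e, h6⟩ ⟨z, h4⟩ hFy h1 h5
    rw [h7] at hy
    have := DD_lv h hy
    omega

variable (v₀ F) in
/-- The next dart. -/
def Nx (d d' : D) : Prop :=
  Hd v₀ h F d ∧ Hd v₀ h F d' ∧ X.src d' = X.tgt d ∧ d' ≠ X.inv d

include hF in
theorem wf_Nx : WellFounded (fun d' d => Nx v₀ h F d d') := by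
  rw [wellFounded_iff_isEmpty_descending_chain]
  refine ⟨fun ⟨d, hd⟩ => ?_⟩
  have h0 : ∀ i, Hd v₀ h F (d i) := fun i => (hd i).1
  choose h1 y z h2 h3 h4 h5 using h0
  have hs : ∀ i, X.src (d (i + 1)) = X.tgt (d i) := fun i => (hd i).2.2.1
  have hl : ∀ i, lv v₀ h (X.src (d i)) = lv v₀ h (X.src (d 0)) := by
    intro i
    induction i with
    | zero => rfl
    | succ i ih =>
      rw [hs, ← ih]
      exact (hd i).1.lv.symm
  refine no_chain h _ d y z hl h2 h3 h4 hs fun i hi => ?_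
  have l1 : X.L (X.inv (z i)) (X.inv (d i)) := ⟨_, cp5 (h4 i)⟩
  rw [hi] at l1
  have l2 : X.L (y (i + 1)) (d (i + 1)) := ⟨_, h4 (i + 1)⟩
  have := hF.mid _ _ _ (L_symm l1) l2 (hF.inv _ (h1 i)) (h1 (i + 1)) (h5 (i + 1))
  exact (hd i).2.2.2 this.symm

/-- The length of the chain starting at a dart. -/
noncomputable def rk (v₀ : V) (h : X.Had) {F : D → Prop} (hF : Fix X F) (d : D) : Ordinal.{0} :=
  ((wf_Nx (v₀ := v₀) h hF).apply d).rank

theorem rk_lt {d d' : D} (hd : Nx v₀ h F d d') : rk v₀ h hF d' < rk v₀ h hF d :=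
  Acc.rank_lt_of_rel ((wf_Nx (v₀ := v₀) h hF).apply d) hd

variable (v₀) in
/-- The darts which are chosen as parents. -/
def Sel (d : D) : Prop := Hd v₀ h F d ∧ (rk v₀ h hF (X.inv d) < rk v₀ h hF d ∨
  (rk v₀ h hF (X.inv d) = rk v₀ h hF d ∧ WellOrderingRel d (X.inv d)))

include h in
theorem inv_ne (d : D) : X.inv d ≠ d := fun hd =>
  no_loop h d (by
    have : X.src (X.inv d) = X.src d := by rw [hd]
    exact this.symm)

theorem Sel.not_inv {d : D} (hd : Sel v₀ h hF d) : ¬ Sel v₀ h hF (X.inv d) := by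
  intro hd'
  obtain ⟨h1, h2⟩ := hd
  obtain ⟨h3, h4⟩ := hd'
  rw [X.inv_inv] at h4
  rcases h2 with h2 | ⟨h2, h2'⟩
  · rcases h4 with h4 | ⟨h4, -⟩
    · exact absurd (h2.trans h4) (lt_irrefl _)
    · exact h2.ne h4.symm
  · rcases h4 with h4 | ⟨-, h4⟩
    · exact h4.ne h2.symm
    · exact (asymm h2' h4 : False)

theorem Sel.total {d : D} (hd : Hd v₀ h F d) : Sel v₀ h hF d ∨ Sel v₀ h hF (X.inv d) := by
  have hd' := Hd.inv h hF hd
  rcases lt_trichotomy (rk v₀ h hF (X.inv d)) (rk v₀ h hF d) with h1 | h1 | h1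
  · exact Or.inl ⟨hd, Or.inl h1⟩
  · rcases trichotomous_of WellOrderingRel d (X.inv d) with h2 | h2 | h2
    · exact Or.inl ⟨hd, Or.inr ⟨h1, h2⟩⟩
    · exact (inv_ne h d h2.symm).elim
    · exact Or.inr ⟨hd', Or.inr ⟨by rw [X.inv_inv, h1], by rw [X.inv_inv]; exact h2⟩⟩
  · exact Or.inr ⟨hd', Or.inl (by rw [X.inv_inv]; exact h1)⟩

theorem Sel.le {d : D} (hd : Sel v₀ h hF d) : rk v₀ h hF (X.inv d) ≤ rk v₀ h hF d := by
  rcases hd.2 with h1 | h1
  · exact h1.le
  · exact h1.1.le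

theorem Sel.unique {d d' : D} (hd : Sel v₀ h hF d) (hd' : Sel v₀ h hF d')
    (hs : X.src d = X.src d') : d = d' := by
  by_contra hne
  have h1 : rk v₀ h hF d' < rk v₀ h hF (X.inv d) :=
    rk_lt h hF ⟨Hd.inv h hF hd.1, hd'.1, by rw [tgt_inv]; exact hs.symm,
      fun h2 => hne (by rw [h2, X.inv_inv])⟩
  have h2 : rk v₀ h hF d < rk v₀ h hF (X.inv d') :=
    rk_lt h hF ⟨Hd.inv h hF hd'.1, hd.1, by rw [tgt_inv]; exact hs,
      fun h2 => hne (by rw [h2, X.inv_inv])⟩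
  exact absurd (((h1.trans_le hd.le).trans h2).trans_le hd'.le) (lt_irrefl _)

theorem Sel.next {d d' : D} (hd : Sel v₀ h hF d) (hd' : Sel v₀ h hF d')
    (hs : X.src d' = X.tgt d) : rk v₀ h hF d' < rk v₀ h hF d :=
  rk_lt h hF ⟨hd.1, hd'.1, hs, fun h1 => hd.not_inv h hF (h1 ▸ hd')⟩

end TC

end Pool.Agent.Helper3.FJ
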