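import Pool.Agent.Helper3.FJ.Span

/-!
# The spanning tree and the designated triangles
-/

set_option autoImplicit false

namespace Pool.Agent.Helper3.FJ

open Relation

namespace TC

variable {V D : Type} {X : TC V D} {v₀ : V} (h : X.Had) {F : D → Prop} (hF : Fix X F)

open Classical in
variable (v₀ F) in
/-- A dart leading down, fixed if possible. -/
noncomputable def pick (v : V) (h3 : ∃ y, DD v₀ h v y) : D :=
  if h2 : ∃ y, DD v₀ h v y ∧ F y then h2.choose else h3.choose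

theorem pick_DD (v : V) (h3 : ∃ y, DD v₀ h v y) : DD v₀ h v (pick v₀ h F v h3) := by
  unfold pick
  split_ifs with h2
  · exact h2.choose_spec.1
  · exact h3.choose_spec

theorem pick_F (v : V) (h3 : ∃ y, DD v₀ h v y) {y : D} (hy : DD v₀ h v y) (hFy : F y) :
    F (pick v₀ h F v h3) := by
  have h2 : ∃ y, DD v₀ h v y ∧ F y := ⟨y, hy, hFy⟩
  rw [pick, dif_pos h2]
  exact h2.choose_spec.2

variable (v₀) in
/-- `d` is the parent dart of its source. -/
def Pa (d : D) : Prop := Sel v₀ h hF d ∨ ((¬ ∃ d', Sel v₀ h hF d' ∧ X.src d' = X.src d) ∧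
  ∃ h3 : ∃ y, DD v₀ h (X.src d) y, d = pick v₀ h F (X.src d) h3)

theorem Sel.lv {d : D} (hd : Sel v₀ h hF d) : lv v₀ h (X.src d) = lv v₀ h (X.tgt d) :=
  Hd.lv h hd.1

theorem Pa.unique {d d' : D} (hd : Pa v₀ h hF d) (hd' : Pa v₀ h hF d')
    (hs : X.src d = X.src d') : d = d' := by
  rcases hd with hd | ⟨hd1, h3, hd2⟩
  · rcases hd' with hd' | ⟨hd1', h3', hd2'⟩
    · exact hd.unique h hF hd' hs
    · exact (hd1' ⟨d, hd, hs⟩).elim
  · rcases hd' with hd' | ⟨hd1', h3', hd2'⟩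
    · exact (hd1 ⟨d', hd', hs.symm⟩).elim
    · rw [hd2, hd2']
      have : ∀ (v v' : V) (h3 : ∃ y, DD v₀ h v y) (h3' : ∃ y, DD v₀ h v' y), v = v' →
          pick v₀ h F v h3 = pick v₀ h F v' h3' := by
        rintro v v' h3 h3' rfl
        rfl
      exact this _ _ _ _ hs

theorem exists_Pa {v : V} (h3 : ∃ y, DD v₀ h v y) : ∃ d, Pa v₀ h hF d ∧ X.src d = v := by
  by_cases h1 : ∃ d', Sel v₀ h hF d' ∧ X.src d' = v
  · obtain ⟨d, h2, h4⟩ := h1
    exact ⟨d, Or.inl h2, h4⟩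
  · have hs : X.src (pick v₀ h F v h3) = v := DD_src h (pick_DD h v h3)
    refine ⟨pick v₀ h F v h3, Or.inr ⟨?_, ?_, ?_⟩, hs⟩
    · rw [hs]
      exact h1
    · rw [hs]
      exact h3
    · have : ∀ (v' : V) (h3' : ∃ y, DD v₀ h v' y), v = v' →
          pick v₀ h F v h3 = pick v₀ h F v' h3' := by
        rintro v' h3' rfl
        rfl
      exact this _ _ hs.symm

theorem Pa.lv {d : D} (hd : Pa v₀ h hF d) : TC.lv v₀ h (X.tgt d) ≤ TC.lv v₀ h (X.src d) := by
  rcases hd with hd | ⟨hd1, h3, hd2⟩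
  · exact (hd.lv h hF).ge
  · have h4 := pick_DD (F := F) h (X.src d) h3
    rw [← hd2] at h4
    have := DD_lv h h4
    omega

variable (v₀) in
/-- The edges of the spanning tree. -/
def Tr (d : D) : Prop := Pa v₀ h hF d ∨ Pa v₀ h hF (X.inv d)

theorem Tr.inv {d : D} (hd : Tr v₀ h hF d) : Tr v₀ h hF (X.inv d) := by
  rcases hd with hd | hd
  · exact Or.inr (by rw [X.inv_inv]; exact hd)
  · exact Or.inl hd

theorem Tr.of_inv {d : D} (hd : Tr v₀ h hF (X.inv d)) : Tr v₀ h hF d := by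
  have := Tr.inv h hF hd
  rwa [X.inv_inv] at this

theorem Tr.pa {y : D} (hT : Tr v₀ h hF y) (hy : DD v₀ h (X.src y) y) : Pa v₀ h hF y := by
  rcases hT with h1 | h1
  · exact h1
  · have h2 := h1.lv h hF
    rw [tgt_inv] at h2
    have h3 := DD_lv h hy
    exact absurd h2 (by change ¬ (_ ≤ TC.lv v₀ h (X.tgt y)); omega)

open Classical in
variable (v₀) in
/-- The height inside the chains. -/
noncomputable def mu (v : V) : Ordinal.{0} :=
  if h1 : ∃ d, Sel v₀ h hF d ∧ X.src d = v then Order.succ (rk v₀ h hF h1.choose) else 0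

theorem mu_lt {d : D} (hd : Sel v₀ h hF d) : mu v₀ h hF (X.tgt d) < mu v₀ h hF (X.src d) := by
  have h1 : ∃ d', Sel v₀ h hF d' ∧ X.src d' = X.src d := ⟨d, hd, rfl⟩
  have h2 : mu v₀ h hF (X.src d) = Order.succ (rk v₀ h hF d) := by
    rw [mu, dif_pos h1, h1.choose_spec.1.unique h hF hd h1.choose_spec.2]
  rw [h2]
  unfold mu
  split_ifs with h3
  · exact Order.succ_lt_succ (hd.next h hF h3.choose_spec.1 h3.choose_spec.2)
  · exact zero_le.trans_lt (Order.lt_succ _)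

open Classical in
variable (v₀) in
/-- The second dart leading down at a vertex with horizontal parent comes after the first. -/
noncomputable def jj (y : D) : ℕ :=
  if ∃ x, Sel v₀ h hF x ∧ X.src x = X.src y ∧ ¬ ∃ z, X.cp y z x then 1 else 0

variable (v₀) in
/-- The key of a dart leading down. -/
noncomputable def kd (y : D) : ℕ × Ordinal.{0} × ℕ :=
  (2 * lv v₀ h (X.src y), mu v₀ h hF (X.src y), jj v₀ h hF y)

variable (v₀) in
/-- The keys. -/
noncomputable def key (d : D) : ℕ × Ordinal.{0} × ℕ :=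
  if lv v₀ h (X.tgt d) < lv v₀ h (X.src d) then kd v₀ h hF d
  else if lv v₀ h (X.src d) < lv v₀ h (X.tgt d) then kd v₀ h hF (X.inv d)
  else (2 * lv v₀ h (X.src d) + 1, 0, 0)

theorem key_dn {d : D} (hd : lv v₀ h (X.tgt d) < lv v₀ h (X.src d)) :
    key v₀ h hF d = kd v₀ h hF d := by
  rw [key, if_pos hd]

theorem key_up {d : D} (hd : lv v₀ h (X.src d) < lv v₀ h (X.tgt d)) :
    key v₀ h hF d = kd v₀ h hF (X.inv d) := by
  rw [key, if_neg (by omega), if_pos hd]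

theorem key_hor {d : D} (hd : lv v₀ h (X.src d) = lv v₀ h (X.tgt d)) :
    key v₀ h hF d = (2 * lv v₀ h (X.src d) + 1, 0, 0) := by
  rw [key, if_neg (by omega), if_neg (by omega)]

theorem key_inv (d : D) : key v₀ h hF (X.inv d) = key v₀ h hF d := by
  have e : X.tgt (X.inv d) = X.src d := tgt_inv d
  rcases lt_trichotomy (lv v₀ h (X.src d)) (lv v₀ h (X.tgt d)) with h1 | h1 | h1
  · rw [key_up h hF h1, key_dn]
    rw [e]
    exact h1
  · rw [key_hor h hF h1, key_hor, h1]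
    rw [e]
    exact h1.symm
  · rw [key_dn h hF h1, key_up, X.inv_inv]
    rw [e]
    exact h1

variable (v₀) in
/-- The order of the darts. -/
def KK (d d' : D) : Prop :=
  Prod.Lex (· < ·) (Prod.Lex (· < ·) (· < ·)) (key v₀ h hF d) (key v₀ h hF d')

theorem wf_KK : WellFounded (KK v₀ h hF) :=
  InvImage.wf (key v₀ h hF) (WellFounded.prod_lex wellFounded_lt
    (WellFounded.prod_lex wellFounded_lt wellFounded_lt))

theorem KK_of_lt {d d' : D} (hd : (key v₀ h hF d).1 < (key v₀ h hF d').1) : KK v₀ h hF d d' :=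
  Prod.lex_def.2 (Or.inl hd)

theorem KK_of_mu {d d' : D} (hd : (key v₀ h hF d).1 = (key v₀ h hF d').1)
    (hd2 : (key v₀ h hF d).2.1 < (key v₀ h hF d').2.1) : KK v₀ h hF d d' :=
  Prod.lex_def.2 (Or.inr ⟨hd, Prod.lex_def.2 (Or.inl hd2)⟩)

theorem KK_of_jj {d d' : D} (hd : (key v₀ h hF d).1 = (key v₀ h hF d').1)
    (hd2 : (key v₀ h hF d).2.1 = (key v₀ h hF d').2.1)
    (hd3 : (key v₀ h hF d).2.2 < (key v₀ h hF d').2.2) : KK v₀ h hF d d' :=
  Prod.lex_def.2 (Or.inr ⟨hd, Prod.lex_def.2 (Or.inr ⟨hd2, hd3⟩)⟩)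

theorem KK_inv {d d' : D} (hd : KK v₀ h hF (X.inv d) (X.inv d')) : KK v₀ h hF d d' := by
  unfold KK at hd
  rwa [key_inv, key_inv] at hd

variable (v₀) in
/-- Designated triangles. -/
inductive Ds0 (d a b : D) : Prop
  | hor (y z : D) : DD v₀ h (X.src d) y → DD v₀ h (X.tgt d) (X.inv z) → X.cp y z d →
      ¬ Tr v₀ h hF d → a = X.inv z → b = X.inv y → Ds0 d a b
  | ver1 (y' : D) : DD v₀ h (X.src d) d → DD v₀ h (X.src d) y' → Pa v₀ h hF y' →
      X.cp d a y' → b = X.inv y' → Ds0 d a b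
  | ver2a (x : D) : DD v₀ h (X.src d) d → Sel v₀ h hF x → X.cp d a x → b = X.inv x → Ds0 d a b
  | ver2b (y' z x : D) : DD v₀ h (X.src d) d → DD v₀ h (X.src d) y' → Sel v₀ h hF x →
      X.cp y' z x → X.cp d a y' → b = X.inv y' → Ds0 d a b

variable (v₀) in
/-- Designated triangles. -/
def Ds (d a b : D) : Prop := Ds0 v₀ h hF d a b ∨ Ds0 v₀ h hF (X.inv d) (X.inv b) (X.inv a)

theorem Ds.inv {d a b : D} (hd : Ds v₀ h hF d a b) :
    Ds v₀ h hF (X.inv d) (X.inv b) (X.inv a) := by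
  rcases hd with hd | hd
  · exact Or.inr (by rw [X.inv_inv, X.inv_inv, X.inv_inv]; exact hd)
  · exact Or.inl hd

theorem tri_flip {d a b : D} (ht : X.tri (X.inv d) (X.inv b) (X.inv a)) : X.tri d a b := by
  have := X.tri_inv _ _ _ ht
  rw [X.inv_inv, X.inv_inv, X.inv_inv] at this
  exact X.tri_rot _ _ _ (X.tri_rot _ _ _ this)

theorem Ds0.tri {d a b : D} (hd : Ds0 v₀ h hF d a b) : X.tri d a b := by
  cases hd with
  | hor y z h1 h2 h3 h4 h5 h6 =>
    have := X.tri_inv _ _ _ h3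
    rw [X.inv_inv] at this
    rw [h5, h6]
    exact this
  | ver1 y' h1 h2 h3 h4 h5 => rw [h5]; exact h4
  | ver2a x h1 h2 h3 h4 => rw [h4]; exact h3
  | ver2b y' z x h1 h2 h3 h4 h5 h6 => rw [h6]; exact h5

theorem Ds.tri {d a b : D} (hd : Ds v₀ h hF d a b) : X.tri d a b := by
  rcases hd with hd | hd
  · exact hd.tri h hF
  · exact tri_flip (hd.tri h hF)

theorem DD_lt {y : D} (hy : DD v₀ h (X.src y) y) :
    lv v₀ h (X.src y) = lv v₀ h (X.tgt y) + 1 := DD_lv h hy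

theorem Ds0.not {d a b : D} (hd : Ds0 v₀ h hF d a b) : ¬ Tr v₀ h hF d := by
  cases hd with
  | hor y z h1 h2 h3 h4 h5 h6 => exact h4
  | ver1 y' h1 h2 h3 h4 h5 =>
    intro hT
    have h6 := (hT.pa h hF h1).unique h hF h3 (DD_src h h2).symm
    rw [← h6] at h4
    exact h.npc.n0 _ _ h4
  | ver2a x h1 h2 h3 h4 =>
    intro hT
    have h6 := (hT.pa h hF h1).unique h hF (Or.inl h2) (cp_src h3)
    rw [← h6] at h3
    exact h.npc.n0 _ _ h3
  | ver2b y' z x h1 h2 h3 h4 h5 h6 =>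
    intro hT
    have h7 := (hT.pa h hF h1).unique h hF (Or.inl h3) ((DD_src h h2).symm.trans (cp_src h4))
    have h8 := h3.lv h hF
    rw [← h7] at h8
    have := DD_lt h h1
    omega

theorem Ds.not {d a b : D} (hd : Ds v₀ h hF d a b) : ¬ Tr v₀ h hF d := by
  rcases hd with hd | hd
  · exact hd.not h hF
  · exact fun hT => hd.not h hF (hT.inv h hF)

include hF in
theorem jj_one {y y' z x : D} (h1 : DD v₀ h (X.src y) y) (h2 : DD v₀ h (X.src y) y')
    (h3 : Sel v₀ h hF x) (h4 : X.cp y' z x) (hne : y ≠ y') : jj v₀ h hF y = 1 := by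
  rw [jj, if_pos]
  refine ⟨x, h3, (cp_src h4).symm.trans (DD_src h h2), ?_⟩
  rintro ⟨z', hz'⟩
  exact hne (apex_unique h h1 h2 hz' h4).1

theorem jj_zero {y z x : D} (h3 : Sel v₀ h hF x) (h4 : X.cp y z x) : jj v₀ h hF y = 0 := by
  rw [jj, if_neg]
  rintro ⟨x', h5, h6, h7⟩
  have := h5.unique h hF h3 (h6.trans (cp_src h4))
  exact h7 ⟨z, this ▸ h4⟩

theorem Ds0.keys {d a b : D} (hd : Ds0 v₀ h hF d a b) :
    (Tr v₀ h hF a ∨ KK v₀ h hF a d) ∧ (Tr v₀ h hF b ∨ KK v₀ h hF b d) := by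
  cases hd with
  | hor y z h1 h2 h3 h4 h5 h6 =>
    subst h5 h6
    have e1 := DD_lv h h1
    have e2 := DD_lv h h2
    rw [tgt_inv, ← cp_mid h3] at e2
    have e3 : lv v₀ h (X.src d) = lv v₀ h (X.tgt d) := by omega
    have s1 := DD_src h h1
    have s2 := DD_src h h2
    constructor
    · right
      apply KK_of_lt
      rw [key_hor h hF e3, key_dn h hF (by rw [tgt_inv, s2, ← cp_mid h3]; omega)]
      change 2 * lv v₀ h (X.src (X.inv z)) < 2 * lv v₀ h (X.src d) + 1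
      rw [s2]
      omega
    · right
      apply KK_of_lt
      rw [key_hor h hF e3, key_inv, key_dn h hF (by rw [s1]; omega)]
      change 2 * lv v₀ h (X.src y) < 2 * lv v₀ h (X.src d) + 1
      rw [s1]
      omega
  | ver1 y' h1 h2 h3 h4 h5 =>
    subst h5
    refine ⟨Or.inr ?_, Or.inl (Tr.inv h hF (Or.inl h3))⟩
    apply KK_of_lt
    have e1 := DD_lt h h1
    have e2 := DD_lv h h2
    have e3 := cp_mid h4
    have e4 := cp_tgt h4
    rw [key_hor h hF (by rw [← e3, e4]; omega), key_dn h hF (by omega)]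
    change 2 * lv v₀ h (X.src a) + 1 < 2 * lv v₀ h (X.src d)
    rw [← e3]
    omega
  | ver2a x h1 h2 h3 h4 =>
    subst h4
    refine ⟨Or.inr ?_, Or.inl (Tr.inv h hF (Or.inl (Or.inl h2)))⟩
    have e1 := DD_lt h h1
    have e2 := h2.lv h hF
    have e3 := cp_mid h3
    have e4 := cp_tgt h3
    have e5 := cp_src h3
    have e6 : key v₀ h hF a = kd v₀ h hF (X.inv a) :=
      key_up h hF (by rw [← e3, e4, ← e2, ← e5]; omega)
    have e7 : key v₀ h hF d = kd v₀ h hF d := key_dn h hF (by omega)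
    apply KK_of_mu
    · rw [e6, e7]
      change 2 * lv v₀ h (X.tgt a) = 2 * lv v₀ h (X.src d)
      rw [e4, ← e2, ← e5]
    · rw [e6, e7]
      change mu v₀ h hF (X.tgt a) < mu v₀ h hF (X.src d)
      rw [e4, e5]
      exact mu_lt h hF h2
  | ver2b y' z x h1 h2 h3 h4 h5 h6 =>
    subst h6
    have e1 := DD_lt h h1
    have e2 := DD_lv h h2
    have e3 := cp_mid h5
    have e4 := cp_tgt h5
    have s2 := DD_src h h2
    constructor
    · right
      apply KK_of_lt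
      rw [key_hor h hF (by rw [← e3, e4]; omega), key_dn h hF (by omega)]
      change 2 * lv v₀ h (X.src a) + 1 < 2 * lv v₀ h (X.src d)
      rw [← e3]
      omega
    · right
      have e7 : key v₀ h hF d = kd v₀ h hF d := key_dn h hF (by omega)
      have e8 : key v₀ h hF (X.inv y') = kd v₀ h hF y' := by
        rw [key_inv]
        exact key_dn h hF (by rw [s2]; omega)
      apply KK_of_jj
      · rw [e7, e8]
        change 2 * lv v₀ h (X.src y') = 2 * lv v₀ h (X.src d)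
        rw [s2]
      · rw [e7, e8]
        change mu v₀ h hF (X.src y') = mu v₀ h hF (X.src d)
        rw [s2]
      · rw [e7, e8]
        change jj v₀ h hF y' < jj v₀ h hF d
        rw [jj_zero h hF h3 h4, jj_one h hF h1 h2 h3 h4 (fun h8 => ?_)]
        · exact Nat.one_pos
        · rw [← h8] at h5
          exact h.npc.n0 _ _ h5

theorem Ds.keys {d a b : D} (hd : Ds v₀ h hF d a b) :
    (Tr v₀ h hF a ∨ KK v₀ h hF a d) ∧ (Tr v₀ h hF b ∨ KK v₀ h hF b d) := by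
  rcases hd with hd | hd
  · exact hd.keys h hF
  · obtain ⟨h1, h2⟩ := hd.keys h hF
    constructor
    · rcases h2 with h2 | h2
      · exact Or.inl (h2.of_inv h hF)
      · exact Or.inr (KK_inv h hF h2)
    · rcases h1 with h1 | h1
      · exact Or.inl (h1.of_inv h hF)
      · exact Or.inr (KK_inv h hF h1)

theorem Ds0.fix {d a b : D} (hd : Ds0 v₀ h hF d a b) (hFd : F d) : F a ∧ F b := by
  cases hd with
  | hor y z h1 h2 h3 h4 h5 h6 =>
    subst h5 h6
    by_cases hy : F y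
    · exact ⟨hF.inv _ (hF.two _ _ _ h3 hy hFd), hF.inv _ hy⟩
    · exact (h4 (Sel.total h hF ⟨hFd, y, z, h1, h2, h3, hy⟩ |>.elim (fun h7 => Or.inl (Or.inl h7))
        fun h7 => Or.inr (Or.inl h7))).elim
  | ver1 y' h1 h2 h3 h4 h5 =>
    subst h5
    rcases h3 with h3 | ⟨h3, h3', h6⟩
    · exact ((Hd.down h hF h3.1 (by rw [DD_src h h2]; exact h1)) hFd).elim
    · have h7 : F y' := by
        rw [h6]
        exact pick_F h _ h3' (by rw [DD_src h h2]; exact h1) hFd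
      exact ⟨hF.two _ _ _ h4 hFd h7, hF.inv _ h7⟩
  | ver2a x h1 h2 h3 h4 =>
    exact ((Hd.down h hF h2.1 (by rw [← cp_src h3]; exact h1)) hFd).elim
  | ver2b y' z x h1 h2 h3 h4 h5 h6 =>
    exact ((Hd.down h hF h3.1 (by rw [← cp_src h4, DD_src h h2]; exact h1)) hFd).elim

theorem Ds.fix {d a b : D} (hd : Ds v₀ h hF d a b) (hFd : F d) : F a ∧ F b := by
  rcases hd with hd | hd
  · exact hd.fix h hF hFd
  · obtain ⟨h1, h2⟩ := hd.fix h hF (hF.inv _ hFd)
    have h3 := hF.inv _ h1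
    have h4 := hF.inv _ h2
    rw [X.inv_inv] at h3 h4
    exact ⟨h4, h3⟩

theorem exists_Ds0 {d : D} (h1 : DD v₀ h (X.src d) d) (hT : ¬ Tr v₀ h hF d) :
    ∃ a b, Ds0 v₀ h hF d a b := by
  obtain ⟨x, hx, hxs⟩ := exists_Pa h hF ⟨d, h1⟩
  rcases hx with hx | ⟨hx, h3, hx2⟩
  · obtain ⟨-, y', z, h4, h5, h6, h7⟩ := hx.1
    rw [hxs] at h4
    rcases DD_two h h1 h4 with h8 | ⟨e, p, q, h8, -⟩
    · subst h8
      exact ⟨z, _, Ds0.ver2a x h1 hx h6 rfl⟩
    · exact ⟨e, _, Ds0.ver2b y' z x h1 h4 hx h6 h8 rfl⟩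
  · have h4 : DD v₀ h (X.src d) x := by
      rw [← hxs, hx2]
      have : ∀ (v : V) (h3 : ∃ y, DD v₀ h v y), v = X.src x →
          DD v₀ h (X.src (pick v₀ h F v h3)) (pick v₀ h F v h3) := by
        rintro v h3 rfl
        exact DD_self h (pick_DD h _ h3)
      exact this _ h3 rfl
    rcases DD_two h h1 h4 with h8 | ⟨e, p, q, h8, -⟩
    · exact (hT (Or.inl (Or.inr (by rw [h8]; exact ⟨hx, h3, hx2⟩)))).elim
    · exact ⟨e, _, Ds0.ver1 x h1 h4 (Or.inr ⟨hx, h3, hx2⟩) h8 rfl⟩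

theorem exists_Ds {d : D} (hT : ¬ Tr v₀ h hF d) : ∃ a b, Ds v₀ h hF d a b := by
  rcases cases (v₀ := v₀) h d with ⟨h1, -⟩ | ⟨-, y, z, h1, h2, h3⟩ | ⟨h1, -⟩
  · obtain ⟨a, b, hab⟩ := exists_Ds0 h hF h1 hT
    exact ⟨a, b, Or.inl hab⟩
  · exact ⟨_, _, Or.inl (Ds0.hor y z h1 h2 h3 hT rfl rfl)⟩
  · obtain ⟨a, b, hab⟩ := exists_Ds0 h hF h1 (fun h2 => hT (h2.of_inv h hF))
    exact ⟨X.inv b, X.inv a, Or.inr (by rw [X.inv_inv, X.inv_inv]; exact hab)⟩

end TC

end Pool.Agent.Helper3.FJ
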