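import Pool.Agent.Helper3.FJ.Span2

/-!
# Uniqueness and completeness of the designated triangles
-/

set_option autoImplicit false

namespace Pool.Agent.Helper3.FJ

open Relation

namespace TC

variable {V D : Type} {X : TC V D} {v₀ : V} (h : X.Had) {F : D → Prop} (hF : Fix X F)

theorem sel_not_DD {x : D} (h1 : Sel v₀ h hF x) {v : V} (h2 : DD v₀ h v x) : False := by
  have h3 := h1.lv h hF
  have h4 := DD_lv h h2
  rw [DD_src h h2] at h3
  omega

theorem pa_sel {x y : D} (h1 : Sel v₀ h hF x) (h2 : Pa v₀ h hF y) (hs : X.src x = X.src y)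
    {v : V} (h3 : DD v₀ h v y) : False :=
  sel_not_DD h hF ((Pa.unique h hF (Or.inl h1) h2 hs) ▸ h1) h3

theorem Ds0.hor_of {d a b : D} (hd : Ds0 v₀ h hF d a b)
    (hl : lv v₀ h (X.src d) = lv v₀ h (X.tgt d)) :
    ∃ y z, DD v₀ h (X.src d) y ∧ DD v₀ h (X.tgt d) (X.inv z) ∧ X.cp y z d ∧
      ¬ Tr v₀ h hF d ∧ a = X.inv z ∧ b = X.inv y := by
  cases hd with
  | hor y z h1 h2 h3 h4 h5 h6 => exact ⟨y, z, h1, h2, h3, h4, h5, h6⟩
  | ver1 y' h1 h2 h3 h4 h5 =>
    have := DD_lt h h1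
    omega
  | ver2a x h1 h2 h3 h4 =>
    have := DD_lt h h1
    omega
  | ver2b y' z x h1 h2 h3 h4 h5 h6 =>
    have := DD_lt h h1
    omega

theorem Ds0.level {d a b : D} (hd : Ds0 v₀ h hF d a b) :
    lv v₀ h (X.tgt d) ≤ lv v₀ h (X.src d) := by
  cases hd with
  | hor y z h1 h2 h3 h4 h5 h6 =>
    have e1 := DD_lv h h1
    have e2 := DD_lv h h2
    rw [tgt_inv, ← cp_mid h3] at e2
    omega
  | ver1 y' h1 h2 h3 h4 h5 =>
    have := DD_lt h h1
    omega
  | ver2a x h1 h2 h3 h4 =>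
    have := DD_lt h h1
    omega
  | ver2b y' z x h1 h2 h3 h4 h5 h6 =>
    have := DD_lt h h1
    omega

theorem Ds.to0 {d a b : D} (hd : Ds v₀ h hF d a b)
    (hl : lv v₀ h (X.tgt d) ≤ lv v₀ h (X.src d)) : Ds0 v₀ h hF d a b := by
  rcases hd with hd | hd
  · exact hd
  · have h1 := hd.level h hF
    rw [tgt_inv] at h1
    have h2 : lv v₀ h (X.src (X.inv d)) = lv v₀ h (X.tgt (X.inv d)) := by
      rw [tgt_inv]
      exact le_antisymm hl h1
    obtain ⟨y, z, h3, h4, h5, h6, h7, h8⟩ := hd.hor_of h hF h2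
    refine Ds0.hor (X.inv z) (X.inv y) ?_ ?_ ?_ (fun h9 => h6 (h9.inv h hF)) ?_ ?_
    · rw [tgt_inv] at h4
      exact h4
    · rw [X.inv_inv]
      exact h3
    · have := cp5 h5
      rwa [X.inv_inv] at this
    · rw [X.inv_inv]
      exact inv_inj h8
    · rw [X.inv_inv]
      exact inv_inj h7

theorem Ds0.unique {d a b a' b' : D} (hd : Ds0 v₀ h hF d a b) (hd' : Ds0 v₀ h hF d a' b') :
    a = a' ∧ b = b' := by
  by_cases hl : lv v₀ h (X.src d) = lv v₀ h (X.tgt d)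
  · obtain ⟨y, z, h1, h2, h3, h4, h5, h6⟩ := hd.hor_of h hF hl
    obtain ⟨y', z', h1', h2', h3', h4', h5', h6'⟩ := hd'.hor_of h hF hl
    obtain ⟨h7, h8⟩ := apex_unique h h1 h1' h3 h3'
    rw [h5, h6, h5', h6', h7, h8]
    exact ⟨rfl, rfl⟩
  have hor_no : ∀ {y z : D}, DD v₀ h (X.src d) y → DD v₀ h (X.tgt d) (X.inv z) →
      X.cp y z d → False := by
    intro y z h1 h2 h3
    have e1 := DD_lv h h1
    have e2 := DD_lv h h2
    rw [tgt_inv, ← cp_mid h3] at e2
    omega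
  cases hd with
  | hor y z h1 h2 h3 h4 h5 h6 => exact (hor_no h1 h2 h3).elim
  | ver1 y' h1 h2 h3 h4 h5 =>
    have s2 := DD_src h h2
    cases hd' with
    | hor y z g1 g2 g3 g4 g5 g6 => exact (hor_no g1 g2 g3).elim
    | ver1 y2 g1 g2 g3 g4 g5 =>
      have h6 := h3.unique h hF g3 (s2.trans (DD_src h g2).symm)
      subst h6
      exact ⟨h.npc.n1 _ _ _ _ h4 g4, h5.trans g5.symm⟩
    | ver2a x g1 g2 g3 g4 =>
      exact (pa_sel h hF g2 h3 ((cp_src g3).symm.trans s2.symm) h2).elim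
    | ver2b y2 z x g1 g2 g3 g4 g5 g6 =>
      exact (pa_sel h hF g3 h3 (((cp_src g4).symm.trans (DD_src h g2)).trans s2.symm) h2).elim
  | ver2a x h1 h2 h3 h4 =>
    cases hd' with
    | hor y z g1 g2 g3 g4 g5 g6 => exact (hor_no g1 g2 g3).elim
    | ver1 y2 g1 g2 g3 g4 g5 =>
      exact (pa_sel h hF h2 g3 ((cp_src h3).symm.trans (DD_src h g2).symm) g2).elim
    | ver2a x' g1 g2 g3 g4 =>
      have h6 := h2.unique h hF g2 ((cp_src h3).symm.trans (cp_src g3))
      subst h6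
      exact ⟨h.npc.n1 _ _ _ _ h3 g3, h4.trans g4.symm⟩
    | ver2b y2 z x' g1 g2 g3 g4 g5 g6 =>
      exfalso
      have h6 := h2.unique h hF g3 ((cp_src h3).symm.trans
        ((DD_src h g2).symm.trans (cp_src g4)))
      subst h6
      have h7 := (apex_unique h h1 g2 h3 g4).1
      rw [← h7] at g5
      exact h.npc.n0 _ _ g5
  | ver2b y' z x h1 h2 h3 h4 h5 h6 =>
    have s2 := DD_src h h2
    cases hd' with
    | hor y z g1 g2 g3 g4 g5 g6 => exact (hor_no g1 g2 g3).elim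
    | ver1 y2 g1 g2 g3 g4 g5 =>
      exact (pa_sel h hF h3 g3 (((cp_src h4).symm.trans s2).trans (DD_src h g2).symm) g2).elim
    | ver2a x' g1 g2 g3 g4 =>
      exfalso
      have h6 := g2.unique h hF h3 ((cp_src g3).symm.trans (s2.symm.trans (cp_src h4)))
      subst h6
      have h7 := (apex_unique h h1 h2 g3 h4).1
      rw [← h7] at h5
      exact h.npc.n0 _ _ h5
    | ver2b y2 z' x' g1 g2 g3 g4 g5 g6 =>
      have s3 := DD_src h g2
      have h8 := h3.unique h hF g3 (((cp_src h4).symm.trans s2).trans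
        (s3.symm.trans (cp_src g4)))
      subst h8
      have h9 := (apex_unique h h2 g2 h4 g4).1
      subst h9
      exact ⟨h.npc.n1 _ _ _ _ h5 g5, h6.trans g6.symm⟩

theorem Ds.unique {d a b a' b' : D} (hd : Ds v₀ h hF d a b) (hd' : Ds v₀ h hF d a' b') :
    a = a' ∧ b = b' := by
  by_cases hl : lv v₀ h (X.tgt d) ≤ lv v₀ h (X.src d)
  · exact (hd.to0 h hF hl).unique h hF (hd'.to0 h hF hl)
  · have hl' : lv v₀ h (X.tgt (X.inv d)) ≤ lv v₀ h (X.src (X.inv d)) := by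
      rw [tgt_inv]
      exact (not_le.1 hl).le
    obtain ⟨h1, h2⟩ := (Ds.to0 h hF (hd.inv h hF) hl').unique h hF (Ds.to0 h hF (hd'.inv h hF) hl')
    exact ⟨inv_inj h2, inv_inj h1⟩

/-- One of the sides designates the triangle. -/
def Al (v₀ : V) (h : X.Had) {F : D → Prop} (hF : Fix X F) (a b c : D) : Prop :=
  Ds v₀ h hF a b c ∨ Ds v₀ h hF b c a ∨ Ds v₀ h hF c a b

theorem Al.rot {a b c : D} (ha : Al v₀ h hF a b c) : Al v₀ h hF b c a := by
  rcases ha with ha | ha | ha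
  · exact Or.inr (Or.inr ha)
  · exact Or.inl ha
  · exact Or.inr (Or.inl ha)

theorem Al.inv {a b c : D} (ha : Al v₀ h hF (X.inv c) (X.inv b) (X.inv a)) :
    Al v₀ h hF a b c := by
  rcases ha with ha | ha | ha
  · have := ha.inv h hF
    rw [X.inv_inv, X.inv_inv, X.inv_inv] at this
    exact Or.inr (Or.inr this)
  · have := ha.inv h hF
    rw [X.inv_inv, X.inv_inv, X.inv_inv] at this
    exact Or.inr (Or.inl this)
  · have := ha.inv h hF
    rw [X.inv_inv, X.inv_inv, X.inv_inv] at this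
    exact Or.inl this

/-- Two darts leading down. -/
theorem al_dd {a b a' : D} (h1 : DD v₀ h (X.src a) a) (h2 : DD v₀ h (X.src a) a')
    (hc : X.cp a b a') : Al v₀ h hF a b (X.inv a') := by
  have key : ∀ {a b a' : D}, DD v₀ h (X.src a) a → DD v₀ h (X.src a) a' → X.cp a b a' →
      (Pa v₀ h hF a' ∨ ∃ x z, Sel v₀ h hF x ∧ X.cp a' z x) → Ds v₀ h hF a b (X.inv a') := by
    rintro a b a' h1 h2 hc (h3 | ⟨x, z, h3, h4⟩)
    · exact Or.inl (Ds0.ver1 a' h1 h2 h3 hc rfl)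
    · exact Or.inl (Ds0.ver2b a' z x h1 h2 h3 h4 hc rfl)
  have s2 := DD_src h h2
  have h1' : DD v₀ h (X.src a') a := by rw [s2]; exact h1
  have h2' : DD v₀ h (X.src a') a' := by rw [s2]; exact h2
  have second : (Pa v₀ h hF a ∨ ∃ x z, Sel v₀ h hF x ∧ X.cp a z x) →
      Al v₀ h hF a b (X.inv a') := by
    intro h3
    have h4 := (key h2' h1' (cp1 hc) h3).inv h hF
    rw [X.inv_inv, X.inv_inv] at h4
    exact Or.inr (Or.inr h4)
  obtain ⟨x, hx, hxs⟩ := exists_Pa h hF ⟨a, h1⟩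
  have hx' := hx
  rcases hx with hx | ⟨hx, h3, hx2⟩
  · obtain ⟨-, y', z, h4, h5, h6, h7⟩ := hx.1
    rw [hxs] at h4
    rcases DD_two h h4 h1 with h8 | ⟨e, p, q, h8, -⟩
    · rw [h8] at h6
      exact second (Or.inr ⟨x, z, hx, h6⟩)
    rcases DD_two h h4 h2 with h9 | ⟨e', p', q', h9, -⟩
    · rw [h9] at h6
      exact Or.inl (key h1 h2 hc (Or.inr ⟨x, z, hx, h6⟩))
    · exact (h.npc.n3 _ _ _ ⟨_, h8⟩ ⟨_, hc⟩ (L_symm ⟨_, h9⟩)).elim
  · have h4 : DD v₀ h (X.src a) x := by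
      have : ∀ (v : V) (h3 : ∃ y, DD v₀ h v y), v = X.src a →
          DD v₀ h (X.src a) (pick v₀ h F v h3) := by
        rintro v h3 rfl
        exact pick_DD h _ h3
      rw [hx2]
      exact this _ h3 hxs
    rcases DD_two h h4 h1 with h8 | ⟨e, p, q, h8, -⟩
    · exact second (Or.inl (h8 ▸ hx'))
    rcases DD_two h h4 h2 with h9 | ⟨e', p', q', h9, -⟩
    · exact Or.inl (key h1 h2 hc (Or.inl (h9 ▸ hx')))
    · exact (h.npc.n3 _ _ _ ⟨_, h8⟩ ⟨_, hc⟩ (L_symm ⟨_, h9⟩)).elim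

/-- A horizontal dart and its apex. -/
theorem al_hor {y z d : D} (h1 : DD v₀ h (X.src d) y) (h2 : DD v₀ h (X.tgt d) (X.inv z))
    (hc : X.cp y z d) : Al v₀ h hF y z (X.inv d) := by
  have e1 := DD_lv h h1
  have e2 := DD_lv h h2
  rw [tgt_inv, ← cp_mid hc] at e2
  have s1 := DD_src h h1
  have s2 := DD_src h h2
  by_cases hT : Tr v₀ h hF d
  · have hsel : ∀ {d : D}, lv v₀ h (X.src d) = lv v₀ h (X.tgt d) → Pa v₀ h hF d →
        Sel v₀ h hF d := by
      rintro d hl (h3 | ⟨h3, h4, h5⟩)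
      · exact h3
      · have h6 := pick_DD (F := F) h (X.src d) h4
        rw [← h5] at h6
        have := DD_lv h h6
        omega
    rcases hT with hT | hT
    · have h3 := hsel (by omega) hT
      exact Or.inl (Or.inl (Ds0.ver2a d (DD_self h h1) h3 hc rfl))
    · have h3 := hsel (by rw [tgt_inv]; change lv v₀ h (X.tgt d) = _; omega) hT
      have h4 : Ds v₀ h hF (X.inv z) (X.inv y) (X.inv (X.inv d)) :=
        Or.inl (Ds0.ver2a (X.inv d) (DD_self h h2) h3 (cp5 hc) rfl)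
      have h5 := h4.inv h hF
      rw [X.inv_inv, X.inv_inv, X.inv_inv] at h5
      exact Or.inr (Or.inl h5)
  · have h3 : Ds v₀ h hF d (X.inv z) (X.inv y) :=
      Or.inl (Ds0.hor y z h1 h2 hc hT rfl rfl)
    have h5 := h3.inv h hF
    rw [X.inv_inv, X.inv_inv] at h5
    exact Or.inr (Or.inr h5)

/-- Triangles with a side leading down. -/
theorem al_down {a b c : D} (ht : X.tri a b c) (h1 : DD v₀ h (X.src a) a) :
    Al v₀ h hF a b c := by
  have hc : X.cp a b (X.inv c) := by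
    rw [cp, X.inv_inv]
    exact ht
  have h3 : Al v₀ h hF a b (X.inv (X.inv c)) := by
    rcases DD_adj h h1 hc with h2 | ⟨-, h2⟩
    · exact al_dd h hF h1 h2 hc
    · refine al_hor h hF ?_ h2 hc
      rw [← cp_src hc]
      exact h1
  rwa [X.inv_inv] at h3

/-- Every triangle is designated by one of its sides. -/
theorem al {a b c : D} (ht : X.tri a b c) : Al v₀ h hF a b c := by
  -- a triangle with a side which is not horizontal
  have key : ∀ {a b c : D}, X.tri a b c → (DD v₀ h (X.src a) a ∨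
      DD v₀ h (X.tgt a) (X.inv a)) → Al v₀ h hF a b c := by
    rintro a b c ht (h1 | h1)
    · exact al_down h hF ht h1
    · have h2 := al_down h hF (X.tri_rot _ _ _ (X.tri_rot _ _ _ (X.tri_inv _ _ _ ht))) h1
      exact Al.inv h hF (Al.rot h hF h2)
  rcases cases (v₀ := v₀) h a with ⟨h1, -⟩ | ⟨-, y, z, h1, h2, h3⟩ | ⟨h1, -⟩
  · exact key ht (Or.inl h1)
  · rcases cases (v₀ := v₀) h c with ⟨g1, -⟩ | ⟨-, y', z', g1, g2, g3⟩ | ⟨g1, -⟩
    · exact Al.rot h hF (key (X.tri_rot _ _ _ (X.tri_rot _ _ _ ht)) (Or.inl g1))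
    · exfalso
      -- the darts `a` and `c⁻¹` at the source of `a`
      have hc : X.cp a b (X.inv c) := by
        rw [cp, X.inv_inv]
        exact ht
      have l0 : X.L a (X.inv c) := ⟨b, hc⟩
      have l1 : X.L y a := ⟨z, h3⟩
      have l2 : X.L (X.inv z') (X.inv c) := ⟨_, cp5 g3⟩
      have hs : X.tgt c = X.src a := (cp_src hc).symm
      rw [hs] at g2
      have no : ∀ {x : D}, DD v₀ h (X.src a) x → x ≠ a := by
        rintro x hx rfl
        have e1 := DD_lv h hx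
        have e2 := DD_lv h h1
        have e3 := DD_lv h h2
        rw [tgt_inv, ← cp_mid h3] at e3
        omega
      rcases DD_two h h1 g2 with h4 | ⟨e, p, q, h4, -⟩
      · rw [← h4] at l2
        exact h.npc.n3 _ _ _ l1 l0 (L_symm l2)
      · rcases h.npc.n4 _ _ _ _ l1 l0 (L_symm l2) (L_symm ⟨_, h4⟩) with h5 | h5
        · rw [h5] at h1
          have e1 := DD_lv h h1
          have e2 := DD_lv h g1
          have e3 := DD_lv h g2
          rw [tgt_inv, ← cp_mid g3] at e3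
          rw [tgt_inv] at e1
          omega
        · exact no g2 h5.symm
    · exact Al.rot h hF (key (X.tri_rot _ _ _ (X.tri_rot _ _ _ ht)) (Or.inr g1))
  · exact key ht (Or.inr h1)

/-- The properties of the spanning tree and of the designated triangles. -/
structure Spn (X : TC V D) (F T : D → Prop) (K : D → D → Prop) (E : D → D → D → Prop) : Prop where
  wf : WellFounded K
  T_inv : ∀ d, T d → T (X.inv d)
  inv : ∀ d a b, E d a b → E (X.inv d) (X.inv b) (X.inv a)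
  tri : ∀ d a b, E d a b → X.tri d a b
  not : ∀ d a b, E d a b → ¬ T d
  left : ∀ d a b, E d a b → T a ∨ K a d
  right : ∀ d a b, E d a b → T b ∨ K b d
  fix : ∀ d a b, E d a b → F d → F a
  ex : ∀ d, ¬ T d → ∃ a b, E d a b
  un : ∀ d a b a' b', E d a b → E d a' b' → a = a' ∧ b = b'
  all : ∀ a b c, X.tri a b c → E a b c ∨ E b c a ∨ E c a b

include h hF in
theorem exists_span : ∃ T K E, Spn X F T K E := by
  obtain ⟨v₀⟩ := h.sc.1
  exact ⟨Tr v₀ h hF, KK v₀ h hF, Ds v₀ h hF, wf_KK h hF, fun d hd => hd.inv h hF,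
    fun d a b hd => hd.inv h hF, fun d a b hd => hd.tri h hF, fun d a b hd => hd.not h hF,
    fun d a b hd => (hd.keys h hF).1, fun d a b hd => (hd.keys h hF).2,
    fun d a b hd hFd => (hd.fix h hF hFd).1, fun d hd => exists_Ds h hF hd,
    fun d a b a' b' hd hd' => hd.unique h hF hd', fun a b c ht => al h hF ht⟩

end TC

end Pool.Agent.Helper3.FJ
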