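import Pool.Agent.Helper3.FJ.Quo

/-!
# Groups generated by elements with fixed points
-/

set_option autoImplicit false

namespace Pool.Agent.Helper3.FJ

open Relation Pool.Agent.Helper29.BA Pool.Agent.Helper29.PA

namespace Cpx

variable {V : Type} {X : Cpx V} {R : Type} [Group R] [MulAction R V] (hN : X.Nice R)

variable (X R) in
/-- The fixed darts of the quotient. -/
def FD (d : QD X R) : Prop := ∃ x y, Is d x y ∧ Fx R x y

include hN in
theorem FD.fx {d : QD X R} (h : FD X R d) {x y : V} (hd : Is d x y) : Fx R x y := by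
  obtain ⟨x', y', h1, h2⟩ := h
  obtain ⟨g, rfl, rfl⟩ := h1.trans hd
  exact h2.smul g

include hN in
theorem fix_FD : (quo X R).Fix (FD X R) := by
  refine ⟨?_, ?_, ?_⟩
  · rintro d ⟨x, y, h1, h2⟩
    exact ⟨y, x, h1.inv, h2.symm⟩
  · rintro a x b ⟨v, p, q, ht, h1, h2, h3⟩ ha hb
    have h3' := h3.inv
    rw [TC.inv_inv] at h3'
    obtain ⟨r, hr1, hr2, hr3⟩ := ha.fx hN h1
    have hq := hN.rigid _ _ h3'.adj (hb.fx hN h3') r hr2
    exact ⟨p, q, h2, r, hr1, hr3, hq⟩
  · intro a b c hab hbc ha hc hb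
    obtain ⟨v, y, hy⟩ := exists_is a
    obtain ⟨z, ht, hz⟩ := lift_L hN hab hy
    obtain ⟨w, ht', hw⟩ := lift_L hN hbc hz
    obtain ⟨r, hr1, hr2, hr3⟩ := ha.fx hN hy
    have hrw := hN.rigid _ _ hw.adj (hc.fx hN hw) r hr2
    have flip : ∀ {v y z : V}, X.tri v y z → X.tri v z y := fun h =>
      X.tri_flip _ _ _ (X.tri_rot _ _ _ (X.tri_rot _ _ _ h))
    have t3 := flip (hN.acts.2 r _ _ _ ht')
    rw [hr2, hrw] at t3
    have t4 := flip (hN.acts.2 r _ _ _ ht)
    rw [hr2, hr3] at t4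
    rcases k4 hN.girth ht ht' t3 t4 with h5 | h5
    · rw [← h5] at hw
      exact hy.unique hw
    · exact (hb ⟨v, z, hz, r, hr1, hr2, h5.symm⟩).elim

include hN in
/-- A group generated by elements with fixed vertices is in the class. -/
theorem gen_mem {C : ∀ (G : Type) [Group G], Prop} (hC : ExtClass C) (hX : X.SimplyConn)
    (hR : Subgroup.closure {r : R | ∃ x : V, r • x = x} = ⊤) {Q : Type} [Group Q] (f : R →* Q)
    (hQ : C Q) (hf : ∀ (v : V) (r : R), r • v = v → f r = 1 → r = 1) : C R := by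
  have hh := quo_had hN hX hR
  obtain ⟨T, K, E, hS⟩ := TC.exists_span hh (fix_FD hN)
  have hsc : (X.gr (fun x y => ∃ d : QD X R, Is d x y ∧ T d)
      (fun x y ⟨d, h1, h2⟩ => ⟨_, h1.inv, hS.T_inv _ h2⟩)
      (fun x y ⟨d, h1, h2⟩ => h1.adj)).SimplyConn := by
    refine collapse hX _ (fun p q => ∃ d e : QD X R, Is d p.1 p.2 ∧ Is e q.1 q.2 ∧ K d e)
      (fun x y z => X.tri x y z ∧ ∃ d a b : QD X R, Is d x y ∧ Is a y z ∧ Is b z x ∧ E d a b)
      ?_ _ _ ?_ ?_ ?_ ?_ ?_ ?_ ?_ ?_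
    · refine ⟨fun p => ?_⟩
      by_cases hp : ∃ d : QD X R, Is d p.1 p.2
      · obtain ⟨d, hd⟩ := hp
        have key : ∀ d : QD X R, Acc K d → ∀ p : V × V, Is d p.1 p.2 →
            Acc (fun p q : V × V => ∃ d e : QD X R, Is d p.1 p.2 ∧ Is e q.1 q.2 ∧ K d e) p := by
          intro d hd
          induction hd with
          | intro d _ ih =>
            intro p hp
            refine ⟨p, fun q hq => ?_⟩
            obtain ⟨e, d', h1, h2, h3⟩ := hq
            rw [h2.unique hp] at h3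
            exact ih e h3 q h1
        exact key d (hS.wf.apply d) p hd
      · refine ⟨p, fun q hq => ?_⟩
        obtain ⟨e, d', h1, h2, h3⟩ := hq
        exact (hp ⟨d', h2⟩).elim
    · rintro x y z ⟨ht, d, a, b, h1, h2, h3, h4⟩
      exact ⟨X.tri_flip _ _ _ ht, _, _, _, h1.inv, h3.inv, h2.inv, hS.inv _ _ _ h4⟩
    · rintro x y z ⟨ht, d, a, b, h1, h2, h3, h4⟩ ⟨d', h5, h6⟩
      rw [h5.unique h1] at h6
      exact hS.not _ _ _ h4 h6
    · rintro x y z ⟨ht, d, a, b, h1, h2, h3, h4⟩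
      rcases hS.left _ _ _ h4 with h5 | h5
      · exact Or.inl ⟨a, h2, h5⟩
      · exact Or.inr ⟨a, d, h2, h1, h5⟩
    · rintro x y z ⟨ht, d, a, b, h1, h2, h3, h4⟩
      rcases hS.right _ _ _ h4 with h5 | h5
      · exact Or.inl ⟨b, h3, h5⟩
      · exact Or.inr ⟨b, d, h3, h1, h5⟩
    · intro x y hxy hT
      have hd : Is (dt hxy : QD X R) x y := ⟨hxy, rfl⟩
      obtain ⟨a, b, hab⟩ := hS.ex (dt hxy) (fun h => hT ⟨_, hd, h⟩)
      obtain ⟨u, v, w, ht, h1, h2, h3⟩ := hS.tri _ _ _ hab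
      obtain ⟨g, hg1, hg2⟩ := h1.trans hd
      refine ⟨g • w, ?_, dt hxy, a, b, hd, ?_, ?_, hab⟩
      · rw [← hg1, ← hg2]
        exact hN.acts.2 g _ _ _ ht
      · rw [← hg2]
        exact h2.smul hN.acts g
      · rw [← hg1]
        exact h3.smul hN.acts g
    · rintro x y z z' ⟨ht, d, a, b, h1, h2, h3, h4⟩ ⟨ht', d', a', b', h1', h2', h3', h4'⟩
      rw [h1'.unique h1] at h4'
      obtain ⟨-, e2⟩ := hS.un _ _ _ _ _ h4 h4'
      rw [← e2] at h3'
      obtain ⟨r, hr1, hr2⟩ := h3.trans h3'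
      by_cases hxz : Fx R x z
      · rw [← hr1]
        exact (hN.rigid _ _ (X.adj_symm _ _ h3.adj) hxz r hr2).symm
      by_cases hxy : Fx R x y
      · exfalso
        apply hxz
        have h5 := FD.fx hN (hS.fix _ _ _ h4 ⟨x, y, h1, hxy⟩) h2
        obtain ⟨s, hs1, hs2, hs3⟩ := hxy
        exact ⟨s, hs1, hs2, hN.rigid _ _ h2.adj h5 s hs3⟩
      · have flip : X.tri x z y := X.tri_flip _ _ _ (X.tri_rot _ _ _ (X.tri_rot _ _ _ ht))
        have h5 := hN.far x r hr2 2 (by norm_num)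
          (fun i => if i = 0 then z else if i = 1 then y else z') (fun i hi => by
            interval_cases i
            · simpa using flip
            · simpa using ht') (fun i hi => by
            interval_cases i
            · simpa using hxz
            · simpa using hxy
            · simp only [OfNat.ofNat_ne_zero, if_false, OfNat.ofNat_ne_one]
              intro h6
              refine hxz (Fx.of_smul (g := r) ?_)
              rw [hr2, hr1]
              exact h6) (by simp [hr1])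
        rw [← hr1, h5, one_smul]
    · intro x y z ht
      have h1 : Is (dt (X.tri_adj _ _ _ ht) : QD X R) x y := ⟨_, rfl⟩
      have h2 : Is (dt (adj2 ht) : QD X R) y z := ⟨_, rfl⟩
      have h3 : Is (dt (adj3 ht) : QD X R) z x := ⟨_, rfl⟩
      rcases hS.all _ _ _ ⟨x, y, z, ht, h1, h2, h3⟩ with h4 | h4 | h4
      · exact Or.inl ⟨ht, _, _, _, h1, h2, h3, h4⟩
      · exact Or.inr (Or.inl ⟨X.tri_rot _ _ _ ht, _, _, _, h2, h3, h1, h4⟩)
      · exact Or.inr (Or.inr ⟨X.tri_rot _ _ _ (X.tri_rot _ _ _ ht), _, _, _, h3, h1, h2, h4⟩)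
    · rintro x y z ⟨ht, -⟩
      exact ht
  refine tree hC _ hsc (fun _ _ _ h => h) ?_ ?_ fun _ => ⟨Q, _, f, hQ, fun v _ g => hf v g⟩
  · rintro g u v ⟨d, h1, h2⟩
    exact ⟨d, h1.smul hN.acts g, h2⟩
  · rintro g u v ⟨d, h1, h2⟩ e1 e2
    have h3 := h1.smul hN.acts g
    rw [e1, e2] at h3
    exact TC.inv_ne hh d (h1.inv.unique h3)

end Cpx

end Pool.Agent.Helper3.FJ
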